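import Pool.Agent.J4.H73.BF.Gen

/-!
Linear degree bounds for the varieties whose functions are algebraic over the values of orbifold
polynomials.
-/

set_option autoImplicit false
set_option linter.unusedSectionVars false
set_option linter.overlappingInstances false

open FF IntermediateField

namespace Pool.Agent.J4.H73.BF

open Pool.Agent.TH466.QG Pool.Agent.N111.FT
open Pool.Agent.W603.LV
open Pool.Agent.W603.PV (pord pht pht_le pord_le exists_pord)
open Pool.Agent.W602.GT (IsForm val coords)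
open Pool.Agent.Y216 (OnVar CurveBound)
open Pool.Agent.Y221.PB (alg_hgt)

variable {k L : Type} [Field k] [IsAlgClosed k] [CharZero k] [Field L] [Algebra k L] {N : ℕ}
  {u : Fin (N + 1) → L} {B : MvPolynomial (Fin (N + 1)) k} {b : ℕ}

/-- **Linear degree bounds** from bounds for the heights of finitely many functions. -/
theorem bound_of_values (hu : u ≠ 0) (hgen : coords k u = ⊤)
    {J : Type} [Finite J] (δ : J → ℕ) (num dnm : J → MvPolynomial (Fin (N + 1)) k)
    (hnum : ∀ j, (num j).IsHomogeneous (δ j)) (hdnm : ∀ j, (dnm j).IsHomogeneous (δ j))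
    (hd0 : ∀ j, MvPolynomial.aeval u (dnm j) ≠ 0)
    (hbd : ∀ j, ∃ G : MvPolynomial (Fin (N + 1)) k, IsForm G ∧ MvPolynomial.aeval u G ≠ 0 ∧
      ∃ C : ℕ, ∀ (E : Type) [Field E] [Algebra k E] [IsFF k E] (S : Finset (Place k E))
        (f : Fin (N + 1) → E), CurveTo u B b S f → MvPolynomial.aeval f G ≠ 0 →
        MvPolynomial.aeval f (dnm j) ≠ 0 →
        hgt k (MvPolynomial.aeval f (num j) / MvPolynomial.aeval f (dnm j)) ≤
          C * max (canDeg k E + S.card) 0)
    (hh : ∀ t : L, t ∈ aclo k (Set.range fun j =>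
      MvPolynomial.aeval u (num j) / MvPolynomial.aeval u (dnm j))) :
    LinearBound u B b := by
  classical
  have := Fintype.ofFinite J
  obtain ⟨i1, hi1'⟩ := Function.ne_iff.1 hu
  have hi1 : u i1 ≠ 0 := hi1'
  obtain ⟨vv, hvv⟩ : ∃ vv : J → L, vv = fun j =>
      MvPolynomial.aeval u (num j) / MvPolynomial.aeval u (dnm j) := ⟨_, rfl⟩
  rw [← hvv] at hh
  choose Gj hGf hGu Bd hBd using hbd
  choose dj hGh using hGf
  -- the field of the values
  obtain ⟨K1, hK1⟩ : ∃ K1 : IntermediateField k L, K1 = adjoin k (Set.range vv) := ⟨_, rfl⟩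
  have hvK : ∀ j, vv j ∈ K1 := fun j => by rw [hK1]; exact subset_adjoin _ _ ⟨j, rfl⟩
  have halg : Algebra.IsAlgebraic K1 L := by
    constructor
    intro t
    rw [hK1, ← mem_aclo]
    exact hh t
  obtain ⟨p, hp⟩ : ∃ p, p = Fintype.card J := ⟨_, rfl⟩
  let e : Fin p ≃ J := (Fintype.equivFinOfCardEq hp.symm).symm
  let y : Fin (p + 1) → K1 := Fin.cons 1 fun i => ⟨vv (e i), hvK _⟩
  have hy0 : y 0 = 1 := rfl
  have hys : ∀ i : Fin p, ((y i.succ : K1) : L) = vv (e i) := fun i => rfl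
  have hygen : coords k y = ⊤ := by
    rw [eq_top_iff]
    rintro ⟨t, ht⟩ -
    have h1 : adjoin k (Set.range vv) ≤ (coords k y).map K1.val := by
      rw [adjoin_le_iff]
      rintro _ ⟨j, rfl⟩
      refine ⟨y (e.symm j).succ, ?_, ?_⟩
      · unfold coords
        refine subset_adjoin _ _ ⟨(e.symm j).succ, 0, ?_, ?_⟩
        · rw [hy0]
          exact one_ne_zero
        · rw [hy0, div_one]
      · change ((y (e.symm j).succ : K1) : L) = vv j
        rw [hys, Equiv.apply_symm_apply]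
    obtain ⟨t', ht', h2⟩ := h1 (hK1 ▸ ht)
    have h3 : t' = ⟨t, ht⟩ := Subtype.ext h2
    rw [← h3]
    exact ht'
  obtain ⟨Θ2, Ca, hΘ2, halgs⟩ := alg_hgt (k := k) (K := K1) (K' := L) hygen (i0 := 0)
    (by rw [hy0]; exact one_ne_zero) (fun m : Fin (N + 1) => u m / u i1)
  obtain ⟨G0, ⟨d0, hG0⟩, hGu0, hspread⟩ := spread_form (k := k) hgen hi1
    (Θ := (algebraMap K1 L '' Θ2) ∪ Set.range vv) ((hΘ2.image _).union (Set.finite_range _))
  refine ⟨G0 * ((∏ j, Gj j) * ∏ j, dnm j), ?_, ?_, (N + 1) * (Ca * (∑ j, Bd j)), ?_⟩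
  · exact ⟨_, hG0.mul ((MvPolynomial.IsHomogeneous.prod _ _ _ fun j _ => hGh j).mul
      (MvPolynomial.IsHomogeneous.prod _ _ _ fun j _ => hdnm j))⟩
  · rw [map_mul, map_mul, map_prod, map_prod]
    exact mul_ne_zero hGu0 (mul_ne_zero (Finset.prod_ne_zero_iff.2 fun j _ => hGu j)
      (Finset.prod_ne_zero_iff.2 fun j _ => hd0 j))
  intro E _ _ _ S f hf hfR
  rw [map_mul, map_mul, map_prod, map_prod] at hfR
  have hfG := Finset.prod_ne_zero_iff.1 (left_ne_zero_of_mul (right_ne_zero_of_mul hfR))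
  have hfd := Finset.prod_ne_zero_iff.1 (right_ne_zero_of_mul (right_ne_zero_of_mul hfR))
  obtain ⟨hf1, Sp', hSx, hSΘ⟩ := hspread E f hf.1 (left_ne_zero_of_mul hfR)
  obtain ⟨χ, hχ⟩ : ∃ χ : ℤ, χ = max (canDeg k E + S.card) 0 := ⟨_, rfl⟩
  have hχ0 : 0 ≤ χ := by rw [hχ]; exact le_max_right _ _
  rw [← hχ]
  -- the specializations of the values
  have key : ∀ j, ∃ v' : E, Sp'.T (vv j) v' ∧ hgt k v' ≤ (Bd j : ℕ) * χ := by
    intro j
    obtain ⟨t, ht⟩ := hSΘ (vv j) (Or.inr ⟨j, rfl⟩)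
    have hdj := hfd j (Finset.mem_univ j)
    have h1 : vv j * MvPolynomial.aeval (fun i => u i / u i1) (dnm j) =
        MvPolynomial.aeval (fun i => u i / u i1) (num j) := by
      have h2 := hd0 j
      rw [aeval_div (hdnm j) hi1] at h2
      rw [hvv]
      beta_reduce
      rw [aeval_div (hdnm j) hi1, aeval_div (hnum j) hi1, mul_div_mul_left _ _
        (pow_ne_zero _ hi1), div_mul_cancel₀ _ (right_ne_zero_of_mul h2)]
    have h3 := Sp'.mul ht (sp_val Sp' hSx (dnm j))
    rw [h1] at h3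
    have h4 := Sp'.ext h3 (sp_val Sp' hSx (num j))
    have h5 : t = MvPolynomial.aeval f (num j) / MvPolynomial.aeval f (dnm j) := by
      rw [aeval_div (hdnm j) hf1] at hdj
      rw [aeval_div (hdnm j) hf1, aeval_div (hnum j) hf1, mul_div_mul_left _ _
        (pow_ne_zero _ hf1), eq_div_iff (right_ne_zero_of_mul hdj)]
      exact h4
    refine ⟨t, ht, ?_⟩
    rw [h5, hχ]
    exact hBd j E S f hf (hfG j (Finset.mem_univ j)) hdj
  choose v' hv'S hv'h using key
  obtain ⟨y', hy'⟩ : ∃ y' : Fin (p + 1) → E, y' = Fin.cons 1 fun i => v' (e i) := ⟨_, rfl⟩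
  have hy'0 : y' 0 = 1 := by rw [hy']; rfl
  have hy's : ∀ i : Fin p, y' i.succ = v' (e i) := fun i => by rw [hy']; rfl
  have hyS : ∀ i, Sp'.T (algebraMap K1 L (y i)) (y' i) := by
    intro i
    refine Fin.cases ?_ (fun i => ?_) i
    · rw [hy0, hy'0, map_one]
      exact Sp'.one
    · rw [hy's]
      exact hv'S (e i)
  have hpht : pht k y' ≤ (∑ j, Bd j : ℕ) * χ := by
    refine (pht_le (k := k) y' (l := 0) (by rw [hy'0]; exact one_ne_zero)).trans ?_
    rw [hy'0, Fin.sum_univ_succ, hy'0, div_one]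
    have h0 : hgt k (1 : E) = 0 := hgt_one
    rw [h0, zero_add]
    have h1 : ∑ i : Fin p, hgt k (y' i.succ / 1) = ∑ j, hgt k (v' j) := by
      rw [← Equiv.sum_comp e]
      exact Finset.sum_congr rfl fun i _ => by rw [div_one, hy's]
    rw [h1, Nat.cast_sum, Finset.sum_mul]
    exact Finset.sum_le_sum fun j _ => hv'h j
  have h2 : ∀ m, hgt k (f m / f i1) ≤ Ca * pht k y' := fun m =>
    halgs E Sp' (fun ϑ hϑ => hSΘ _ (Or.inl ⟨ϑ, hϑ, rfl⟩)) y' hyS _ hSx m
  have h3 : pht k f ≤ (N + 1) * (Ca * pht k y') := by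
    refine (pht_le f hf1).trans ?_
    refine (Finset.sum_le_sum fun j _ => h2 j).trans (le_of_eq ?_)
    rw [Finset.sum_const, nsmul_eq_mul, Finset.card_univ, Fintype.card_fin]
    push_cast
    ring
  refine h3.trans ?_
  have h8 : (Ca : ℤ) * pht k y' ≤ Ca * ((∑ j, Bd j : ℕ) * χ) :=
    mul_le_mul_of_nonneg_left hpht (Nat.cast_nonneg _)
  have h9 := mul_le_mul_of_nonneg_left h8 (by positivity : (0 : ℤ) ≤ (N : ℤ) + 1)
  refine h9.trans (le_of_eq ?_)
  push_cast
  ring

/-- the values of all orbifold polynomials -/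
def Values (u : Fin (N + 1) → L) (B : MvPolynomial (Fin (N + 1)) k) (b : ℕ) : Set L :=
  {t | ∃ H : OrbifoldPolynomial u B b, t ∈ H.values}

/-- **Linear degree bounds**, if all functions are algebraic over the values. -/
theorem joint_bound (hu : u ≠ 0) (hgen : coords k u = ⊤)
    (hh : ∀ t : L, t ∈ aclo k (Values u B b)) : LinearBound u B b := by
  classical
  obtain ⟨i1, hi1'⟩ := Function.ne_iff.1 hu
  have hi1 : u i1 ≠ 0 := hi1'
  choose T hTV hT using fun m : Fin (N + 1) =>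
    Pool.Agent.N111.GG.aclo_finite (hh (u m / u i1))
  let W : Set L := {v | v ≠ 0 ∧ ∃ m, v ∈ (T m : Set L)}
  have hWf : W.Finite := by
    refine (Set.finite_iUnion fun m => (T m).finite_toSet).subset ?_
    rintro v ⟨-, m, hm⟩
    exact Set.mem_iUnion.2 ⟨m, hm⟩
  have hWF : Finite W := hWf
  have hW : ∀ v : W, ∃ (H : OrbifoldPolynomial u B b) (i j : Fin (H.n + 1)),
      (v : L) = MvPolynomial.aeval u (H.φ i) / MvPolynomial.aeval u (H.φ j) := by
    rintro ⟨v, -, m, hm⟩
    obtain ⟨H, i, j, h⟩ := hTV m hm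
    exact ⟨H, i, j, h⟩
  choose H ii jj hv using hW
  have hd0 : ∀ v : W, MvPolynomial.aeval u ((H v).φ (jj v)) ≠ 0 := by
    intro v h0
    apply v.2.1
    rw [hv v, h0, div_zero]
  refine bound_of_values hu hgen (fun v => (H v).δ) (fun v => (H v).φ (ii v))
    (fun v => (H v).φ (jj v)) (fun v => (H v).form _) (fun v => (H v).form _) hd0
    (fun v => ?_) fun t => ?_
  · obtain ⟨G, hG, hGu, C, h⟩ := curve_nat hu hgen (H v)
    refine ⟨G, hG, hGu, C, fun E _ _ _ S f hf hfG hfd => ?_⟩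
    have h1 := h E S f hf hfG
    by_cases h0 : MvPolynomial.aeval f ((H v).φ (ii v)) = 0
    · rw [h0, zero_div, hgt_zero]
      exact mul_nonneg (Nat.cast_nonneg _) (le_max_right _ _)
    · exact (Pool.Agent.W603.CX.hgt_le_pht (k := k)
        (fun l => MvPolynomial.aeval f ((H v).φ l)) (j := ii v) h0 hfd).trans h1
  · have h3 : (⊤ : IntermediateField k L) ≤ aclo k (Set.range fun v : W =>
        MvPolynomial.aeval u ((H v).φ (ii v)) / MvPolynomial.aeval u ((H v).φ (jj v))) := by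
      rw [← adjoin_norm hgen hi1, adjoin_le_iff]
      rintro _ ⟨m, rfl⟩
      refine aclo_le ?_ (hT m)
      intro v hvT
      by_cases hv0 : v = 0
      · rw [hv0]
        exact (aclo k _).zero_mem
      · exact subset_aclo _ ⟨⟨v, hv0, m, hvT⟩, (hv ⟨v, hv0, m, hvT⟩).symm⟩
    exact h3 (mem_top (x := t))

/-- the projective case -/
theorem curve_of_linear (h : LinearBound u (1 : MvPolynomial (Fin (N + 1)) k) 0) :
    CurveBound k u := by
  obtain ⟨G, hG, hGu, A, hA⟩ := h
  refine ⟨G, hG, hGu, A, fun E _ _ _ f hf hfG => ?_⟩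
  have h1 := hA E ∅ f ⟨hf, by rw [map_one]; exact one_ne_zero, fun P hP => by
    unfold boundary at hP
    rw [Set.mem_setOf_eq, map_one, P.ord_one] at hP
    simp at hP⟩ hfG
  simpa using h1

end Pool.Agent.J4.H73.BF
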