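import Pool.Agent.TH466.QG.Spread
import Pool.Agent.Y190.BV.Bez
import Pool.Agent.Y190.BV.Rad

/-!
Specializations of polynomials.
-/

set_option autoImplicit false
set_option linter.unusedSectionVars false

namespace Pool.Agent.J4.H73.BF

open Pool.Agent.TH466.QG Polynomial

section spp

variable {k L E : Type} [Field k] [Field L] [Field E] [Algebra k L] [Algebra k E] (S : Sp k L E)

/-- the coefficients of `p'` are the specializations of those of `p` -/
def SpP (p : L[X]) (p' : E[X]) : Prop := ∀ j, S.T (p.coeff j) (p'.coeff j)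

variable {S}

theorem SpP.mul {p q : L[X]} {p' q' : E[X]} (hp : SpP S p p') (hq : SpP S q q') :
    SpP S (p * q) (p' * q') := by
  intro j
  rw [coeff_mul, coeff_mul]
  exact S.sum _ fun x _ => S.mul (hp _) (hq _)

theorem SpP.add {p q : L[X]} {p' q' : E[X]} (hp : SpP S p p') (hq : SpP S q q') :
    SpP S (p + q) (p' + q') := by
  intro j
  rw [coeff_add, coeff_add]
  exact S.add (hp _) (hq _)

theorem SpP.sum {I : Type} (s : Finset I) {f : I → L[X]} {f' : I → E[X]}
    (h : ∀ i ∈ s, SpP S (f i) (f' i)) : SpP S (∑ i ∈ s, f i) (∑ i ∈ s, f' i) := by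
  intro j
  rw [finsetSum_coeff, finsetSum_coeff]
  exact S.sum _ fun i hi => h i hi j

theorem SpP.C {x : L} {x' : E} (h : S.T x x') : SpP S (C x) (C x') := by
  intro j
  rw [coeff_C, coeff_C]
  split_ifs
  · exact h
  · exact S.zero

theorem SpP.X : SpP S (X : L[X]) (X : E[X]) := by
  intro j
  rw [coeff_X, coeff_X]
  split_ifs
  · exact S.one
  · exact S.zero

theorem SpP.map (p : k[X]) : SpP S (p.map (algebraMap k L)) (p.map (algebraMap k E)) := by
  intro j
  rw [coeff_map, coeff_map]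
  exact S.const _

theorem SpP.one : SpP S (1 : L[X]) (1 : E[X]) := by
  intro j
  rw [coeff_one, coeff_one]
  split_ifs
  · exact S.one
  · exact S.zero

theorem SpP.pow {p : L[X]} {p' : E[X]} (hp : SpP S p p') (m : ℕ) : SpP S (p ^ m) (p' ^ m) := by
  induction m with
  | zero => rw [pow_zero, pow_zero]; exact SpP.one
  | succ m ih => rw [pow_succ, pow_succ]; exact ih.mul hp

theorem SpP.prod {I : Type} (s : Finset I) {f : I → L[X]} {f' : I → E[X]}
    (h : ∀ i ∈ s, SpP S (f i) (f' i)) : SpP S (∏ i ∈ s, f i) (∏ i ∈ s, f' i) := by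
  classical
  induction s using Finset.induction_on with
  | empty => rw [Finset.prod_empty, Finset.prod_empty]; exact SpP.one
  | insert a s ha ih =>
    rw [Finset.prod_insert ha, Finset.prod_insert ha]
    exact (h a (Finset.mem_insert_self _ _)).mul
      (ih fun i hi => h i (Finset.mem_insert_of_mem hi))

theorem SpP.ext {p : L[X]} {p' p'' : E[X]} (h : SpP S p p') (h' : SpP S p p'') : p' = p'' := by
  ext j
  exact S.ext (h j) (h' j)

theorem SpP.derivative {p : L[X]} {p' : E[X]} (hp : SpP S p p') :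
    SpP S (derivative p) (derivative p') := by
  intro j
  rw [coeff_derivative, coeff_derivative]
  refine S.mul (hp _) ?_
  have h := S.const ((j : k) + 1)
  simpa using h

theorem SpP.iter {p : L[X]} {p' : E[X]} (hp : SpP S p p') (m : ℕ) :
    SpP S (Polynomial.derivative^[m] p) (Polynomial.derivative^[m] p') := by
  induction m with
  | zero => exact hp
  | succ m ih =>
    rw [Function.iterate_succ_apply', Function.iterate_succ_apply']
    exact ih.derivative

theorem SpP.eval {p : L[X]} {p' : E[X]} (hp : SpP S p p') {x : L} {x' : E} (hx : S.T x x') :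
    S.T (p.eval x) (p'.eval x') := by
  have h : ∀ {A : Type} [Field A] (r : A[X]) (n : ℕ), r.natDegree < n →
      ∀ y : A, r.eval y = ∑ j ∈ Finset.range n, r.coeff j * y ^ j :=
    fun r n hn y => eval_eq_sum_range' hn y
  rw [h p (p.natDegree + p'.natDegree + 1) (by omega), h p' (p.natDegree + p'.natDegree + 1)
    (by omega)]
  exact S.sum _ fun j _ => S.mul (hp j) (S.pow hx j)

theorem exists_spP {p : L[X]} (h : ∀ x ∈ (p.coeffs : Set L), ∃ t, S.T x t) :
    ∃ p', SpP S p p' := by
  have h1 : ∀ j, ∃ t, S.T (p.coeff j) t := by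
    intro j
    by_cases hj : p.coeff j = 0
    · exact ⟨0, by rw [hj]; exact S.zero⟩
    · exact h _ (coeff_mem_coeffs hj)
  choose t ht using h1
  refine ⟨∑ j ∈ Finset.range (p.natDegree + 1), Polynomial.C (t j) * Polynomial.X ^ j, ?_⟩
  conv_lhs => rw [p.as_sum_range_C_mul_X_pow]
  exact SpP.sum _ fun j _ => (SpP.C (ht j)).mul (SpP.X.pow j)

end spp

variable {k L : Type} [Field k] [Field L] [Algebra k L]

/-- The splitting into the part with constant roots and the part without. -/
theorem split_const [IsAlgClosed k] [CharZero k] {r : ℕ} {H : L[X]} (hH : H ≠ 0)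
    (hmult : ∀ p : L[X], Irreducible p → (∀ c : k, p.eval (algebraMap k L c) ≠ 0) →
      ¬ p ^ (r + 1) ∣ H) :
    ∃ (H0 : k[X]) (H1 : L[X]), H0 ≠ 0 ∧ H = H0.map (algebraMap k L) * H1 ∧
      ∃ U : Fin (r + 1) → L[X], ∑ j, U j * Polynomial.derivative^[(j : ℕ)] H1 = 1 := by
  classical
  have hL : CharZero L := charZero_of_injective_algebraMap (algebraMap k L).injective
  obtain ⟨T, e, u, hu, hT, hHT, hTall⟩ := Pool.Agent.Y190.BV.factor hH
  set T1 : Finset L[X] := T.filter (fun p => ∀ c : k, p.eval (algebraMap k L c) ≠ 0) with hT1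
  set T0 : Finset L[X] := T.filter (fun p => ¬ ∀ c : k, p.eval (algebraMap k L c) ≠ 0) with hT0
  have hc : ∀ p : L[X], ∃ c : k, p ∈ T0 → p = (X - C c : k[X]).map (algebraMap k L) := by
    intro p
    by_cases hp : p ∈ T0
    · have hp' := Finset.mem_filter.1 hp
      have hp2 := hp'.2
      push Not at hp2
      obtain ⟨c, hc⟩ := hp2
      refine ⟨c, fun _ => ?_⟩
      rw [Polynomial.map_sub, Polynomial.map_X, Polynomial.map_C]
      exact Pool.Agent.Y190.BV.eq_X_sub_C (hT p hp'.1).1 (hT p hp'.1).2.1 hc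
    · exact ⟨0, fun h => absurd h hp⟩
  choose c hc using hc
  have hH1 : C u * ∏ p ∈ T1, p ^ e p ≠ 0 := mul_ne_zero (C_ne_zero.2 hu)
    (Finset.prod_ne_zero_iff.2 fun p hp =>
      pow_ne_zero _ (hT p (Finset.mem_filter.1 hp).1).1.ne_zero)
  refine ⟨∏ p ∈ T0, (X - C (c p)) ^ e p, C u * ∏ p ∈ T1, p ^ e p,
    Finset.prod_ne_zero_iff.2 fun p _ => pow_ne_zero _ (X_sub_C_ne_zero _), ?_, ?_⟩
  · rw [Polynomial.map_prod]
    have h1 : ∏ p ∈ T0, ((X - C (c p)) ^ e p).map (algebraMap k L) = ∏ p ∈ T0, p ^ e p := by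
      refine Finset.prod_congr rfl fun p hp => ?_
      rw [Polynomial.map_pow, ← hc p hp]
    rw [h1, mul_left_comm, mul_comm (∏ p ∈ T0, p ^ e p), hHT]
    congr 1
    exact (Finset.prod_filter_mul_prod_filter_not T _ _).symm
  · refine Pool.Agent.Y190.BV.bezout hH1 fun g hg hgd => ?_
    -- an irreducible factor of high multiplicity
    have hg1 : g ∣ C u * ∏ p ∈ T1, p ^ e p := (dvd_pow_self g (Nat.succ_ne_zero r)).trans hgd
    have hgd' : g ^ (r + 1) ∣ H := by
      refine hgd.trans ?_
      rw [hHT]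
      refine mul_dvd_mul_left _ ?_
      rw [← Finset.prod_filter_mul_prod_filter_not T (fun p => ∀ c : k,
        p.eval (algebraMap k L c) ≠ 0)]
      exact Dvd.intro _ rfl
    refine hmult g hg (fun y hy => ?_) hgd'
    have h2 := eval_dvd (x := algebraMap k L y) hg1
    rw [hy, zero_dvd_iff, eval_mul, eval_C, eval_prod] at h2
    have h3 := (mul_eq_zero.1 h2).resolve_left hu
    obtain ⟨p, hp, hp0⟩ := Finset.prod_eq_zero_iff.1 h3
    rw [eval_pow] at hp0
    exact (Finset.mem_filter.1 hp).2 y (eq_zero_of_pow_eq_zero hp0)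

/-- The multiplicities of the roots of the specialization. -/
theorem mult_of_bezout [IsAlgClosed k] {E : Type} [Field E] [Algebra k E] {r : ℕ} {H0 : k[X]}
    (hH0 : H0 ≠ 0) {H1 : E[X]} {U : Fin (r + 1) → E[X]}
    (hU : ∑ j, U j * Polynomial.derivative^[(j : ℕ)] H1 = 1) :
    H0.map (algebraMap k E) * H1 ≠ 0 ∧
      ∀ p : E[X], Irreducible p → (∀ c : k, p.eval (algebraMap k E c) ≠ 0) →
        ¬ p ^ (r + 1) ∣ H0.map (algebraMap k E) * H1 := by
  have hH1 : H1 ≠ 0 := by
    rintro rfl
    rw [Finset.sum_eq_zero fun j _ => by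
      rw [Polynomial.iterate_derivative_zero, mul_zero]] at hU
    exact zero_ne_one hU
  refine ⟨mul_ne_zero (Polynomial.map_ne_zero hH0) hH1, fun p hp hpc hd => ?_⟩
  have hcop : IsCoprime p (H0.map (algebraMap k E)) := by
    rw [hp.coprime_iff_not_dvd]
    intro hdv
    have hs := (IsAlgClosed.splits H0).map (algebraMap k E)
    obtain ⟨q, hq⟩ := hdv
    have hdeg : (p.map (RingHom.id E)).degree ≠ 0 := by
      rw [Polynomial.map_id]
      exact (degree_pos_of_irreducible hp).ne'
    have hps : p.Splits := hs.of_dvd (Polynomial.map_ne_zero hH0) ⟨q, hq⟩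
    obtain ⟨x, hx⟩ := hps.exists_eval_eq_zero (degree_pos_of_irreducible hp).ne'
    have h1 : (H0.map (algebraMap k E)).eval x = 0 := by rw [hq, eval_mul, hx, zero_mul]
    rw [eval_map_algebraMap] at h1
    have h2 : IsAlgebraic k x := ⟨H0, hH0, h1⟩
    obtain ⟨c, hc⟩ := Pool.Agent.W602.GT.const_of_algebraic h2
    rw [hc] at hx
    exact hpc c hx
  have h1 : p ^ (r + 1) ∣ H1 := (hcop.pow_left).dvd_of_dvd_mul_left hd
  have h2 : p ∣ 1 := by
    rw [← hU]
    refine Finset.dvd_sum fun j _ => Dvd.dvd.mul_left ?_ _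
    have h3 := Polynomial.pow_sub_dvd_iterate_derivative_of_pow_dvd (j : ℕ) h1
    exact (dvd_pow_self p (by have := j.2; omega)).trans h3
  exact hp.not_isUnit (isUnit_of_dvd_one h2)

end Pool.Agent.J4.H73.BF
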