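import Pool.Agent.J4.H73.BF.Defs
import Pool.Agent.J4.H73.BF.Spz
import Pool.Agent.Y221.PB.Hgt
import Pool.Agent.N111.GG.SP

/-!
The values of an orbifold polynomial on a general curve.
-/

set_option autoImplicit false
set_option linter.unusedSectionVars false
set_option linter.overlappingInstances false

open FF

namespace Pool.Agent.J4.H73.BF

open Pool.Agent.TH466.QG Pool.Agent.N111.FT
open Pool.Agent.W603.LV (canDeg hgt hgt_nonneg)
open Pool.Agent.W603.PV (pord pht pht_le pord_le exists_pord)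
open Pool.Agent.W602.GT (IsForm val coords)
open Pool.Agent.Y216 (OnVar CurveBound)
open Pool.Agent.Y221.PB (alg_hgt)
open Pool.Agent.Y190.BV (ct cnt)

/-- the values of polynomials -/
theorem sp_val {k K' K'' : Type} [Field k] [Field K'] [Field K''] [Algebra k K'] [Algebra k K'']
    (S : Sp k K' K'') {τ : Type} {v : τ → K'} {v' : τ → K''} (h : ∀ i, S.T (v i) (v' i))
    (G : MvPolynomial τ k) : S.T (MvPolynomial.aeval v G) (MvPolynomial.aeval v' G) := by
  induction G using MvPolynomial.induction_on with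
  | C c =>
    rw [MvPolynomial.aeval_C, MvPolynomial.aeval_C]
    exact S.const c
  | add p q hp hq =>
    rw [map_add, map_add]
    exact S.add hp hq
  | mul_X p i hp =>
    rw [map_mul, map_mul, MvPolynomial.aeval_X, MvPolynomial.aeval_X]
    exact S.mul hp (h i)

section poly

variable {k E : Type} [Field k] [Field E] [Algebra k E] {n : ℕ}

theorem poly_coeff (h : Fin (n + 1) → E) (j : ℕ) :
    (poly h).coeff j = if hj : j < n + 1 then h ⟨j, hj⟩ else 0 := by
  unfold poly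
  rw [Polynomial.finsetSum_coeff]
  simp only [Polynomial.coeff_C_mul, Polynomial.coeff_X_pow]
  split_ifs with hj
  · rw [Finset.sum_eq_single (⟨j, hj⟩ : Fin (n + 1))]
    · simp
    · intro l _ hl
      rw [if_neg, mul_zero]
      intro h
      exact hl (Fin.ext h.symm)
    · intro h
      exact absurd (Finset.mem_univ _) h
  · refine Finset.sum_eq_zero fun l _ => ?_
    rw [if_neg, mul_zero]
    intro h
    exact hj (h ▸ l.2)

theorem poly_coeff_fin (h : Fin (n + 1) → E) (l : Fin (n + 1)) : (poly h).coeff l = h l := by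
  rw [poly_coeff, dif_pos l.2]

theorem poly_deg (h : Fin (n + 1) → E) : (poly h).natDegree ≤ n := by
  rw [Polynomial.natDegree_le_iff_coeff_eq_zero]
  intro j hj
  rw [poly_coeff, dif_neg (by omega)]

theorem poly_ne {h : Fin (n + 1) → E} (h0 : ∃ l, h l ≠ 0) : poly h ≠ 0 := by
  obtain ⟨l, hl⟩ := h0
  intro h1
  apply hl
  rw [← poly_coeff_fin h l, h1, Polynomial.coeff_zero]

theorem poly_ne_iff {h : Fin (n + 1) → E} : poly h ≠ 0 ↔ ∃ l, h l ≠ 0 := by
  refine ⟨fun h1 => ?_, poly_ne⟩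
  by_contra hcon
  push Not at hcon
  apply h1
  ext j
  rw [poly_coeff, Polynomial.coeff_zero]
  split_ifs with hj
  · exact hcon _
  · rfl

theorem poly_eval (h : Fin (n + 1) → E) (c : k) :
    (poly h).eval (algebraMap k E c) = value h c := by
  unfold poly value
  rw [Polynomial.eval_finsetSum]
  refine Finset.sum_congr rfl fun l _ => ?_
  rw [Polynomial.eval_mul, Polynomial.eval_C, Polynomial.eval_pow, Polynomial.eval_X]

theorem poly_smul (c : E) (h : Fin (n + 1) → E) :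
    poly (fun l => c * h l) = Polynomial.C c * poly h := by
  unfold poly
  rw [Finset.mul_sum]
  refine Finset.sum_congr rfl fun l _ => ?_
  rw [Polynomial.C_mul, mul_assoc]

theorem poly_coeff_eq (h : Fin (n + 1) → E) : (fun j : Fin (n + 1) => (poly h).coeff j) = h := by
  funext l
  exact poly_coeff_fin h l

theorem contact_eq {h : Fin (n + 1) → E} (h0 : ∃ l, h l ≠ 0) (P : Place k E) (c : k) :
    contact P h c = ct P (poly h) c := by
  unfold contact ct
  rw [poly_eval]
  congr 1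
  rw [← pord_coeff (poly_deg h) (poly_ne h0) P, poly_coeff_eq]

theorem hp_poly {h : Fin (n + 1) → E} (h0 : ∃ l, h l ≠ 0) : hp k (poly h) = pht k h := by
  rw [← pht_coeff (k := k) (poly_deg h) (poly_ne h0), poly_coeff_eq]

/-- **The height inequality.** -/
theorem height_ineq [IsAlgClosed k] [CharZero k] [IsFF k E] {r q : ℕ} (hr : 1 ≤ r)
    {a : Fin q → k} (ha : Function.Injective a) {m : Fin q → ℕ}
    (hsum : 2 * (n : ℝ) < ∑ i, weight r (m i)) {h : Fin (n + 1) → E} (h0 : ∃ l, h l ≠ 0)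
    (hmult : RootsLE k r (poly h)) (S : Finset (Place k E)) (hram : RamifiedOff a m S h) :
    (∑ i, weight r (m i) - 2 * n) * (pht k h : ℝ) ≤
      r * (n * ((max (canDeg k E + S.card) 0 : ℤ) : ℝ)) := by
  rw [← hp_poly h0]
  refine height_poly hr ha hsum (poly_ne h0) (poly_deg h) hmult S fun P hP i hi => ?_
  rw [poly_eval] at hi
  have h1 := hram P (fun h => hP (Finset.mem_coe.1 h)) i hi
  rwa [contact_eq h0] at h1

theorem rootsLE_C {r : ℕ} {c : E} (hc : c ≠ 0) {H : Polynomial E} :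
    RootsLE k r (Polynomial.C c * H) ↔ RootsLE k r H := by
  have hu : IsUnit (Polynomial.C c : Polynomial E) := Polynomial.isUnit_C.2 (isUnit_iff_ne_zero.2 hc)
  unfold RootsLE
  simp only [hu.dvd_mul_left]

end poly

section gen

variable {k L : Type} [Field k] [IsAlgClosed k] [CharZero k] [Field L] [Algebra k L] {N : ℕ}
  {u : Fin (N + 1) → L} {B : MvPolynomial (Fin (N + 1)) k} {b : ℕ}

/-- spreading out -/
theorem spread2 {σ : Type}
    {x : σ → L} (hx : IntermediateField.adjoin k (Set.range x) = ⊤) {Θ : Set L}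
    (hΘ : Θ.Finite) : ∃ H : MvPolynomial σ k, MvPolynomial.aeval x H ≠ 0 ∧
      ∀ (E : Type) [Field E] [Algebra k E] (z : σ → E),
        (∀ G : MvPolynomial σ k, MvPolynomial.aeval x G = 0 → MvPolynomial.aeval z G = 0) →
        MvPolynomial.aeval z H ≠ 0 →
        ∃ S : Sp k L E, (∀ i, S.T (x i) (z i)) ∧ ∀ ϑ ∈ Θ, ∃ t, S.T ϑ t := by
  classical
  obtain ⟨H, hH, hG⟩ := exists_den hx hΘ
  refine ⟨H, hH, fun E _ _ z hz hzH => ?_⟩
  let α : graph k x z →ₐ[k] L := (AlgHom.fst k L E).comp (graph k x z).val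
  let β : graph k x z →ₐ[k] E := (AlgHom.snd k L E).comp (graph k x z).val
  have hker : ∀ b, α b = 0 → β b = 0 := by
    rintro ⟨⟨a, a'⟩, G, H', h1, h2, h3, h4⟩ h0
    change a = 0 at h0
    change a' = 0
    simp only at h3 h4
    rw [h0, zero_mul] at h3
    rw [hz G h3.symm] at h4
    exact (mul_eq_zero.1 h4).resolve_right h2
  refine ⟨Sp.ofHom α β hker, fun i => ?_, fun ϑ hϑ => ?_⟩
  · exact ⟨⟨(x i, z i), MvPolynomial.X i, 1, by rw [map_one]; exact one_ne_zero, by
      rw [map_one]; exact one_ne_zero, by simp, by simp⟩, rfl, rfl⟩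
  · obtain ⟨G, hG'⟩ := hG ϑ hϑ
    exact ⟨MvPolynomial.aeval z G / MvPolynomial.aeval z H,
      ⟨⟨(ϑ, MvPolynomial.aeval z G / MvPolynomial.aeval z H), G, H, hH, hzH, hG',
        div_mul_cancel₀ _ hzH⟩, rfl, rfl⟩⟩

/-- values of forms at scaled points -/
theorem aeval_div {E : Type} [Field E] [Algebra k E] {M d : ℕ} {F : MvPolynomial (Fin (M + 1)) k}
    (hF : F.IsHomogeneous d) {x : Fin (M + 1) → E} {t : E} (ht : t ≠ 0) :
    MvPolynomial.aeval x F = t ^ d * MvPolynomial.aeval (fun i => x i / t) F := by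
  have h1 := Pool.Agent.W602.GT.val_smul hF t (fun i => x i / t)
  have h2 : (fun i => t * (x i / t)) = x := by
    funext i
    field_simp
  rw [h2] at h1
  exact h1

/-- A general point of the variety: spreading out for homogeneous coordinates. -/
theorem spread_form (hgen : coords k u = ⊤) {i1 : Fin (N + 1)} (hi1 : u i1 ≠ 0) {Θ : Set L}
    (hΘ : Θ.Finite) : ∃ G : MvPolynomial (Fin (N + 1)) k, IsForm G ∧ MvPolynomial.aeval u G ≠ 0 ∧
      ∀ (E : Type) [Field E] [Algebra k E] (f : Fin (N + 1) → E), OnVar k u f →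
        MvPolynomial.aeval f G ≠ 0 → f i1 ≠ 0 ∧
        ∃ S : Sp k L E, (∀ i, S.T (u i / u i1) (f i / f i1)) ∧ ∀ ϑ ∈ Θ, ∃ t, S.T ϑ t := by
  obtain ⟨H, hH, hspread⟩ := spread2 (k := k) (L := L) (adjoin_norm hgen hi1) hΘ
  refine ⟨MvPolynomial.X i1 * hz i1 H, ?_, ?_, ?_⟩
  · obtain ⟨d, hd⟩ := hz_form i1 H
    exact ⟨1 + d, (MvPolynomial.isHomogeneous_X k i1).mul hd⟩
  · rw [map_mul, MvPolynomial.aeval_X]
    refine mul_ne_zero hi1 ?_
    change val u _ ≠ 0
    rw [val_hz H hi1]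
    exact mul_ne_zero (pow_ne_zero _ hi1) hH
  · intro E _ _ f hfM hfR
    rw [map_mul, MvPolynomial.aeval_X] at hfR
    have hf1 : f i1 ≠ 0 := left_ne_zero_of_mul hfR
    have hfH : MvPolynomial.aeval (fun i => f i / f i1) H ≠ 0 := by
      have h1 : val f (hz i1 H) ≠ 0 := right_ne_zero_of_mul hfR
      rw [val_hz H hf1] at h1
      exact right_ne_zero_of_mul h1
    have hsp : ∀ G : MvPolynomial (Fin (N + 1)) k,
        MvPolynomial.aeval (fun i => u i / u i1) G = 0 →
        MvPolynomial.aeval (fun i => f i / f i1) G = 0 := by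
      intro G hG
      have h1 : val u (hz i1 G) = 0 := by
        rw [val_hz G hi1, hG, mul_zero]
      have h2 := hfM.2 _ (hz_form i1 G) h1
      rw [val_hz G hf1] at h2
      exact (mul_eq_zero.1 h2).resolve_left (pow_ne_zero _ hf1)
    exact ⟨hf1, hspread E (fun i => f i / f i1) hsp hfH⟩

/-- The multiplicities of the roots at general points. -/
theorem roots_spread (hu : u ≠ 0) (hgen : coords k u = ⊤) {n δ r : ℕ}
    {φ : Fin (n + 1) → MvPolynomial (Fin (N + 1)) k} (hφ : ∀ l, (φ l).IsHomogeneous δ)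
    (hne : ∃ l, MvPolynomial.aeval u (φ l) ≠ 0)
    (hroots : RootsLE k r (poly fun l => MvPolynomial.aeval u (φ l))) :
    ∃ G : MvPolynomial (Fin (N + 1)) k, IsForm G ∧ MvPolynomial.aeval u G ≠ 0 ∧
      ∀ (E : Type) [Field E] [Algebra k E] (f : Fin (N + 1) → E), OnVar k u f →
        MvPolynomial.aeval f G ≠ 0 → (∃ l, MvPolynomial.aeval f (φ l) ≠ 0) ∧
          RootsLE k r (poly fun l => MvPolynomial.aeval f (φ l)) := by
  classical
  obtain ⟨i1, hi1'⟩ := Function.ne_iff.1 hu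
  have hi1 : u i1 ≠ 0 := hi1'
  have hscale : ∀ {E : Type} [Field E] [Algebra k E] {f : Fin (N + 1) → E}, f i1 ≠ 0 →
      (poly fun l => MvPolynomial.aeval f (φ l)) = Polynomial.C (f i1 ^ δ) *
        poly fun l => MvPolynomial.aeval (fun i => f i / f i1) (φ l) := by
    intro E _ _ f hf
    rw [← poly_smul]
    congr 1
    funext l
    exact aeval_div (hφ l) hf
  rw [hscale hi1, rootsLE_C (pow_ne_zero _ hi1)] at hroots
  have hH0 : poly (fun l => MvPolynomial.aeval (fun i => u i / u i1) (φ l)) ≠ 0 := by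
    have h1 := poly_ne hne
    rw [hscale hi1] at h1
    exact right_ne_zero_of_mul h1
  obtain ⟨H0, H1, hH00, hH01, U, hU⟩ := split_const hH0 hroots
  obtain ⟨G, hG, hGu, hspread⟩ := spread_form (k := k) hgen hi1
    (Θ := (H1.coeffs : Set L) ∪ ⋃ j, ((U j).coeffs : Set L))
    ((Finset.finite_toSet _).union (Set.finite_iUnion fun j => Finset.finite_toSet _))
  refine ⟨G, hG, hGu, fun E _ _ f hf hfG => ?_⟩
  obtain ⟨hf1, S, hS, hΘ⟩ := hspread E f hf hfG
  obtain ⟨H1', hH1'⟩ := exists_spP (S := S) (p := H1) fun x hx => hΘ x (Or.inl hx)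
  have hU' : ∀ j, ∃ U', SpP S (U j) U' := fun j => exists_spP fun x hx =>
    hΘ x (Or.inr (Set.mem_iUnion.2 ⟨j, hx⟩))
  choose U' hU' using hU'
  have h1 : ∑ j, U' j * Polynomial.derivative^[(j : ℕ)] H1' = 1 := by
    have h2 : SpP S (∑ j, U j * Polynomial.derivative^[(j : ℕ)] H1)
        (∑ j, U' j * Polynomial.derivative^[(j : ℕ)] H1') :=
      SpP.sum _ fun j _ => (hU' j).mul (hH1'.iter _)
    rw [hU] at h2
    exact h2.ext SpP.one
  have h3 : (poly fun l => MvPolynomial.aeval (fun i => f i / f i1) (φ l)) =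
      H0.map (algebraMap k E) * H1' := by
    have h4 : SpP S (poly fun l => MvPolynomial.aeval (fun i => u i / u i1) (φ l))
        (poly fun l => MvPolynomial.aeval (fun i => f i / f i1) (φ l)) :=
      SpP.sum _ fun l _ => (SpP.C (sp_val S hS _)).mul (SpP.X.pow _)
    rw [hH01] at h4
    exact h4.ext ((SpP.map H0).mul hH1')
  obtain ⟨h5, h6⟩ := mult_of_bezout (k := k) hH00 h1
  rw [← h3] at h5 h6
  refine ⟨?_, ?_⟩
  · rw [← poly_ne_iff, hscale hf1]
    exact mul_ne_zero (Polynomial.C_ne_zero.2 (pow_ne_zero _ hf1)) h5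
  · rw [hscale hf1, rootsLE_C (pow_ne_zero _ hf1)]
    exact h6

/-- The height inequality for an orbifold polynomial and general curves. -/
theorem curve_ineq (hu : u ≠ 0) (hgen : coords k u = ⊤) (H : OrbifoldPolynomial u B b) :
    ∃ G : MvPolynomial (Fin (N + 1)) k, IsForm G ∧ MvPolynomial.aeval u G ≠ 0 ∧
      ∀ (E : Type) [Field E] [Algebra k E] [IsFF k E] (S : Finset (Place k E))
        (f : Fin (N + 1) → E), CurveTo u B b S f → MvPolynomial.aeval f G ≠ 0 →
        (∃ l, MvPolynomial.aeval f (H.φ l) ≠ 0) ∧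
        (∑ i, weight H.r (H.m i) - 2 * H.n) *
          (pht k (fun l => MvPolynomial.aeval f (H.φ l)) : ℝ) ≤
            H.r * (H.n * ((max (canDeg k E + S.card) 0 : ℤ) : ℝ)) := by
  obtain ⟨G1, ⟨d1, hG1⟩, hGu1, h1⟩ := roots_spread hu hgen H.form H.nonzero H.roots
  obtain ⟨G2, ⟨d2, hG2⟩, hGu2, h2⟩ := H.ramified
  refine ⟨G1 * G2, ⟨_, hG1.mul hG2⟩, by rw [map_mul]; exact mul_ne_zero hGu1 hGu2, ?_⟩
  intro E _ _ _ S f hf hfG
  rw [map_mul] at hfG
  obtain ⟨h3, h4⟩ := h1 E f hf.1 (left_ne_zero_of_mul hfG)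
  refine ⟨h3, height_ineq H.r_pos H.distinct H.large h3 h4 S fun P hP => ?_⟩
  exact h2 E f hf.1 (right_ne_zero_of_mul hfG) hf.2.1 P fun h => hP (hf.2.2 h)

/-- an integral bound -/
theorem curve_nat (hu : u ≠ 0) (hgen : coords k u = ⊤) (H : OrbifoldPolynomial u B b) :
    ∃ G : MvPolynomial (Fin (N + 1)) k, IsForm G ∧ MvPolynomial.aeval u G ≠ 0 ∧ ∃ C : ℕ,
      ∀ (E : Type) [Field E] [Algebra k E] [IsFF k E] (S : Finset (Place k E))
        (f : Fin (N + 1) → E), CurveTo u B b S f → MvPolynomial.aeval f G ≠ 0 →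
        pht k (fun l => MvPolynomial.aeval f (H.φ l)) ≤ C * max (canDeg k E + S.card) 0 := by
  obtain ⟨G, hG, hGu, h⟩ := curve_ineq hu hgen H
  have hs : 0 < ∑ i, weight H.r (H.m i) - 2 * H.n := sub_pos.2 H.large
  obtain ⟨C, hC⟩ := exists_nat_ge (((H.r : ℝ) * H.n) / (∑ i, weight H.r (H.m i) - 2 * H.n))
  rw [div_le_iff₀ hs] at hC
  refine ⟨G, hG, hGu, C, fun E _ _ _ S f hf hfG => ?_⟩
  obtain ⟨-, h1⟩ := h E S f hf hfG
  have hχ : (0 : ℝ) ≤ ((max (canDeg k E + S.card) 0 : ℤ) : ℝ) := by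
    exact_mod_cast le_max_right (canDeg k E + (S.card : ℤ)) 0
  have h2 := mul_le_mul_of_nonneg_right hC hχ
  have h3 : (∑ i, weight H.r (H.m i) - 2 * H.n) *
      (pht k (fun l => MvPolynomial.aeval f (H.φ l)) : ℝ) ≤
      (∑ i, weight H.r (H.m i) - 2 * H.n) *
        (C * ((max (canDeg k E + S.card) 0 : ℤ) : ℝ)) := by
    refine h1.trans (le_trans (le_of_eq ?_) (h2.trans (le_of_eq ?_)))
    · ring
    · ring
  have h4 := le_of_mul_le_mul_left h3 hs
  exact_mod_cast h4

end gen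

end Pool.Agent.J4.H73.BF
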