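import Pool.Agent.J4.H73.BF.Layer

/-!
The pluricanonical forms from families of transcendence bases of minimal energy have no poles.
-/

set_option autoImplicit false
set_option linter.unusedSectionVars false

open FF Pool.Agent.W603.LV Pool.Agent.W602.GT Polynomial

namespace Pool.Agent.J4.H73.BF

open Pool.Agent.Y190.BV hiding den mat phi mat_mul phi_pluri ord_den ge_phi reg_phi

variable {k K L : Type} [Field k] [Field K] [Field L] [Algebra k K] [Algebra k L] [Algebra K L]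
  [IsScalarTower k K L]

section comp

theorem tau_comp (W : Place k L) (g : L ≃ₐ[K] L) (t : L) :
    tau (W.comp (rs (k := k) g)) t = tau W (g t) := rfl

theorem ord_comp (W : Place k L) (g : L ≃ₐ[K] L) (t : L) (y : k) :
    (W.comp (rs (k := k) g)).ord (t - algebraMap k L y) = W.ord (g t - algebraMap k L y) := by
  have h1 : (W.comp (rs (k := k) g)).ord (t - algebraMap k L y) =
      W.ord (g (t - algebraMap k L y)) := rfl
  rw [h1, map_sub]
  congr 2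
  rw [IsScalarTower.algebraMap_apply k K L, g.commutes]

theorem vv_comp (W : Place k L) (g : L ≃ₐ[K] L) (t : L) (y : k) :
    vv (W.comp (rs (k := k) g)) t y = vv W (g t) y := by
  unfold vv
  rw [ord_comp, tau_comp]

theorem vs_comp (W : Place k L) (g : L ≃ₐ[K] L) {q : ℕ} (a : Fin q → k) (t : L) :
    vs (W.comp (rs (k := k) g)) a t = vs W a (g t) := by
  unfold vs
  exact Finset.sum_congr rfl fun i _ => vv_comp W g t _

theorem rh_comp (W : Place k L) (g : L ≃ₐ[K] L) (e : ℕ) (P : Place k K) (F : K[X]) {q : ℕ}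
    (a : Fin q → k) (t : L) :
    rh (W.comp (rs (k := k) g)) e P F a t = rh W e P F a (g t) := by
  unfold rh
  exact Finset.sum_congr rfl fun i _ => by rw [vv_comp]

end comp

section avg

variable [FiniteDimensional K L] [IsGalois K L]

theorem avg_conj {F : K[X]} (hF : Irreducible F) {t t' : L} (ht : aeval t F = 0)
    (ht' : aeval t' F = 0) (ψ : L → ℤ) :
    ∑ g : L ≃ₐ[K] L, ψ (g t') = ∑ g : L ≃ₐ[K] L, ψ (g t) := by
  have h1 : minpoly K t' = minpoly K t := by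
    rw [← minpoly.eq_of_irreducible hF ht, ← minpoly.eq_of_irreducible hF ht']
  obtain ⟨h, hh⟩ := (Normal.minpoly_eq_iff_mem_orbit L).1 h1
  have hh' : h t = t' := hh
  rw [← Equiv.sum_comp (Equiv.mulRight h) fun g : L ≃ₐ[K] L => ψ (g t)]
  refine Finset.sum_congr rfl fun g _ => ?_
  rw [← hh']
  rfl

theorem avg {F : K[X]} (hF : Irreducible F) {t : L} (ht : aeval t F = 0) {d : ℕ}
    (r : Fin d → L) (hroot : ∀ i, aeval (r i) F = 0) (ψ : L → ℤ) :
    (d : ℤ) * ∑ g : L ≃ₐ[K] L, ψ (g t) = ∑ g : L ≃ₐ[K] L, ∑ i, ψ (g (r i)) := by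
  rw [Finset.sum_comm, Finset.sum_congr rfl fun i _ => avg_conj hF ht (hroot i) ψ,
    Finset.sum_const, Finset.card_univ, Fintype.card_fin, nsmul_eq_mul]

end avg

section main

variable {σ : Type} [Fintype σ] (Δ : Dt k K σ) (lay : Lb Δ.τ → ℕ)

theorem xx_comp (b : Bool) (lam : ℕ) (W : Place k L) (g : L ≃ₐ[K] L) (P : Place k K) (e : ℕ)
    (f : Lb Δ.τ) (t : L) :
    xx Δ lay b lam (W.comp (rs (k := k) g)) P e f t = xx Δ lay b lam W P e f (g t) := by
  unfold xx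
  rw [rh_comp, vs_comp]

theorem psi_comp (b : Bool) (lam : ℕ) (W : Place k L) (g : L ≃ₐ[K] L) (P : Place k K) (e : ℕ)
    (f : Lb Δ.τ) (t : L) :
    psi Δ lay b lam (W.comp (rs (k := k) g)) P e f t = psi Δ lay b lam W P e f (g t) := by
  unfold psi
  rw [xx_comp, tau_comp]
  congr 1
  exact Finset.sum_congr rfl fun m _ => by rw [ord_comp]

variable [FiniteDimensional K L] [IsGalois K L]

/-- the sum over all members of the families -/
theorem total [Infinite k] {T w : ℕ} (J : Fin T → Fin w → L) (lb : Fin T → Fin w → Lb Δ.τ)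
    (hJ : ∀ l j, aeval (J l j) (lb l j).2.1 = 0) (NN gg : Lb Δ.τ → ℕ) {κ Dd M : ℕ}
    (hD : 0 < Dd) (hgg : ∀ f, gg f * f.2.1.natDegree = Dd)
    (hNN : ∀ a : Lb Δ.τ → ℤ, ∑ l, ∑ j, gg (lb l j) * a (lb l j) = ∑ f, NN f * a f)
    {W : Place k L} {P : Place k K} {e : ℕ}
    (hWP : Over W P e) (b : Bool) (lam : ℕ)
    (hκ : ∀ f f', lay f ≤ lay f' → NN f ≤ NN f' + κ)
    (hM : ∀ s, (∏ p ∈ Δ.τ s, p).natDegree ≤ M) (hN1 : ∀ f, Δ.A * M * κ + Dd ≤ NN f)
    (hN2 : ∀ f, κ * (2 * Δ.A + 1) ≤ NN f)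
    (hlam : b = true → ∀ f, lay f < lam → ∀ y : k, ct P f.2.1 y = 0) (hram : b = true → Ram Δ P)
    (hsep : ∀ f : Lb Δ.τ, f.2.1.Separable)
    (hs : ∀ f : Lb Δ.τ, (f.2.1.map (algebraMap K L)).Splits)
    (f0 : Lb Δ.τ) (t0 : L) (ht0 : aeval t0 f0.2.1 = 0) :
    ∑ g : L ≃ₐ[K] L, tau (W.comp (rs g)) t0 ≤
      ∑ l, ∑ j, ∑ g : L ≃ₐ[K] L, psi Δ lay b lam (W.comp (rs g)) P e (lb l j) (J l j) := by
  classical
  choose r _ hrr hcoef using fun f : Lb Δ.τ => exists_roots (L := L) f.2.1 (hsep f) (hs f)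
  have hr : ∀ f : Lb Δ.τ, f.2.1.map (algebraMap K L) = ∏ i, (X - C (r f i)) := by
    intro f
    ext m
    rw [coeff_map, hcoef, (Δ.irr f.1 f.2.1 f.2.2).2.leadingCoeff, map_one, one_mul]
  have hrg : ∀ (g : L ≃ₐ[K] L) (f : Lb Δ.τ),
      f.2.1.map (algebraMap K L) = ∏ i, (X - C (g (r f i))) := by
    intro g f
    have h1 := congrArg (Polynomial.map (g : L →+* L)) (hr f)
    rw [Polynomial.map_map, Polynomial.map_prod] at h1
    have h2 : (g : L →+* L).comp (algebraMap K L) = algebraMap K L := by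
      ext x
      exact g.commutes x
    rw [h2] at h1
    rw [h1]
    refine Finset.prod_congr rfl fun i _ => ?_
    rw [Polynomial.map_sub, Polynomial.map_X, Polynomial.map_C]
    rfl
  have hirr : ∀ f : Lb Δ.τ, Irreducible f.2.1 := fun f => (Δ.irr f.1 f.2.1 f.2.2).1
  have hD' : (0 : ℤ) < Dd := by exact_mod_cast hD
  refine le_of_mul_le_mul_left ?_ hD'
  -- the right side
  obtain ⟨S, hS⟩ : ∃ S : Lb Δ.τ → ℤ, S = fun f =>
    ∑ g : L ≃ₐ[K] L, ∑ i, psi Δ lay b lam W P e f (g (r f i)) := ⟨_, rfl⟩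
  have h1 : ∀ l j, (Dd : ℤ) * ∑ g : L ≃ₐ[K] L,
      psi Δ lay b lam (W.comp (rs g)) P e (lb l j) (J l j) = gg (lb l j) * S (lb l j) := by
    intro l j
    have h2 : ∑ g : L ≃ₐ[K] L, psi Δ lay b lam (W.comp (rs g)) P e (lb l j) (J l j) =
        ∑ g : L ≃ₐ[K] L, psi Δ lay b lam W P e (lb l j) (g (J l j)) :=
      Finset.sum_congr rfl fun g _ => psi_comp Δ lay b lam W g P e _ _
    have h3 := avg (hirr (lb l j)) (hJ l j) (r (lb l j)) (hrr (lb l j))
      (psi Δ lay b lam W P e (lb l j))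
    have h4 : (Dd : ℤ) = gg (lb l j) * ((lb l j).2.1.natDegree : ℕ) := by
      exact_mod_cast (hgg (lb l j)).symm
    rw [h2, h4, mul_assoc, h3, hS]
  have h2 : (Dd : ℤ) * ∑ l, ∑ j, ∑ g : L ≃ₐ[K] L,
      psi Δ lay b lam (W.comp (rs g)) P e (lb l j) (J l j) = ∑ f, NN f * S f := by
    rw [← hNN S, Finset.mul_sum]
    refine Finset.sum_congr rfl fun l _ => ?_
    rw [Finset.mul_sum]
    exact Finset.sum_congr rfl fun j _ => h1 l j
  have h3 : ∑ f, (NN f : ℤ) * S f = ∑ g : L ≃ₐ[K] L, ∑ f, (NN f : ℤ) *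
      ∑ i, psi Δ lay b lam W P e f (g (r f i)) := by
    rw [Finset.sum_comm, hS]
    exact Finset.sum_congr rfl fun f _ => Finset.mul_sum _ _ _
  rw [h2, h3, Finset.mul_sum]
  -- the left side
  have h4 : ∀ g : L ≃ₐ[K] L, ∑ f, (Dd : ℤ) * TT W (fun i => g (r f i)) ≤
      ∑ f, (NN f : ℤ) * ∑ i, psi Δ lay b lam W P e f (g (r f i)) := fun g =>
    star Δ lay NN hWP b lam κ Dd M hκ hM hN1 hN2 hlam hram (fun f i => g (r f i)) (hrg g)
  refine le_trans ?_ (Finset.sum_le_sum fun g _ => h4 g)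
  have h5 : ∑ g : L ≃ₐ[K] L, (Dd : ℤ) * TT W (fun i => g (r f0 i)) ≤
      ∑ g : L ≃ₐ[K] L, ∑ f, (Dd : ℤ) * TT W (fun i => g (r f i)) :=
    Finset.sum_le_sum fun g _ => Finset.single_le_sum
      (f := fun f => (Dd : ℤ) * TT W (fun i => g (r f i)))
      (fun f _ => mul_nonneg hD'.le (TT_nonneg W _)) (Finset.mem_univ f0)
  refine le_trans ?_ h5
  rw [← Finset.mul_sum, ← Finset.mul_sum]
  refine mul_le_mul_of_nonneg_left ?_ hD'.le
  have h6 := avg (hirr f0) ht0 (r f0) (hrr f0) (tau W)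
  have h7 : ∑ g : L ≃ₐ[K] L, TT W (fun i => g (r f0 i)) =
      ∑ g : L ≃ₐ[K] L, ∑ i, tau W (g (r f0 i)) := rfl
  rw [h7, ← h6]
  have h8 : ∑ g : L ≃ₐ[K] L, tau (W.comp (rs g)) t0 = ∑ g : L ≃ₐ[K] L, tau W (g t0) := rfl
  rw [h8]
  have h9 : (1 : ℤ) ≤ f0.2.1.natDegree := by
    exact_mod_cast (hirr f0).natDegree_pos
  have h10 : 0 ≤ ∑ g : L ≃ₐ[K] L, tau W (g t0) := Finset.sum_nonneg fun g _ => tau_nonneg W _
  nlinarith

/-- the determinants -/
theorem detb [CharZero k] {w : ℕ} (b : Bool) {V : Place k L} {P : Place k K} {e : ℕ}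
    (hVP : Over V P e) (D : Fin w → Derivation k K K) (hD : ∀ i, DKind b P (D i))
    (x : Fin w → L) (lb : Fin w → Lb Δ.τ) (hx : ∀ j, aeval (x j) (lb j).2.1 = 0)
    (hs : ∀ f : Lb Δ.τ, (f.2.1.map (algebraMap K L)).Splits)
    (halg : ∀ (f : Lb Δ.τ) (t : L), aeval t f.2.1 = 0 →
      IsAlgebraic (Algebra.adjoin k (x '' {j | lay (lb j) ≤ lay f})) t)
    (lam : ℕ) (hlam : b = true → (∀ f, lay f ≤ lam) ∨ ∃ y ∈ KK Δ lay lam, P.ord y ≠ 0) :
    Ge V (∑ j, (e * cnt P (Fb lay (lb j)) - (Fb lay (lb j)).natDegree * tau V (x j) +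
      xx Δ lay b lam V P e (lb j) (x j))) (mat (Fb lay) lb x D).det := by
  classical
  have hx' : ∀ j, aeval (x j) (Fb lay (lb j)) = 0 := by
    intro j
    unfold Fb
    rw [map_prod]
    exact Finset.prod_eq_zero (i := (lb j).2) (Finset.mem_filter.2 ⟨Finset.mem_univ _, rfl⟩)
      (hx j)
  cases b with
  | false =>
    refine (det_log (fun j => Fb lay (lb j)) x (fun j => Δ.a (lb j).1) hVP
      (fun j => fb_ne Δ lay _) hx' (fun j => Δ.inj _) (fun j i => fb_eval Δ lay _ _) D hD).mono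
      (le_of_eq ?_)
    refine Finset.sum_congr rfl fun j _ => ?_
    unfold xx bs
    rw [if_neg (by simp)]
  | true =>
    refine (det_bound (fun j => Fb lay (lb j)) x (fun j => Δ.a (lb j).1) hVP
      (fun j => fb_ne Δ lay _) hx' (fun j => Δ.inj _) (fun j i => fb_eval Δ lay _ _)
      (fun j => lay (lb j) ≤ lam) D hD ?_).mono (le_of_eq ?_)
    · rcases hlam rfl with h | h
      · exact Or.inl fun j => h _
      · exact Or.inr ⟨KK Δ lay lam, h, trdeg_KK Δ lay hs x lb halg lam,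
          fun j hj m => coeff_KK Δ lay hj m⟩
    · refine Finset.sum_congr rfl fun j _ => ?_
      unfold xx bs
      simp only [true_and]

/-- **The forms have no poles.** -/
theorem ge_phi_all [CharZero k] [Infinite k] {T w : ℕ} (J : Fin T → Fin w → L)
    (lb : Fin T → Fin w → Lb Δ.τ)
    (hJ : ∀ l j, aeval (J l j) (lb l j).2.1 = 0) (NN gg : Lb Δ.τ → ℕ) {κ Dd M : ℕ}
    (hD : 0 < Dd) (hgg : ∀ f, gg f * f.2.1.natDegree = Dd)
    (hNN : ∀ a : Lb Δ.τ → ℤ, ∑ l, ∑ j, gg (lb l j) * a (lb l j) = ∑ f, NN f * a f)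
    {W : Place k L} {P : Place k K} {e : ℕ}
    (hWP : Over W P e) (b : Bool)
    (hκ : ∀ f f', lay f ≤ lay f' → NN f ≤ NN f' + κ)
    (hM : ∀ s, (∏ p ∈ Δ.τ s, p).natDegree ≤ M) (hN1 : ∀ f, Δ.A * M * κ + Dd ≤ NN f)
    (hN2 : ∀ f, κ * (2 * Δ.A + 1) ≤ NN f) (hram : b = true → Ram Δ P)
    (hsep : ∀ f : Lb Δ.τ, f.2.1.Separable)
    (hs : ∀ f : Lb Δ.τ, (f.2.1.map (algebraMap K L)).Splits)
    (halg : ∀ l (f : Lb Δ.τ) (t : L), aeval t f.2.1 = 0 →
      IsAlgebraic (Algebra.adjoin k (J l '' {j | lay (lb l j) ≤ lay f})) t)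
    (f0 : Lb Δ.τ) (t0 : L) (ht0 : aeval t0 f0.2.1 = 0)
    (D : Fin w → Derivation k K K) (hDk : ∀ i, DKind b P (D i))
    (ψ : K) (hψ : Ge W (- ∑ g : L ≃ₐ[K] L, tau (W.comp (rs g)) t0) (algebraMap K L ψ)) :
    Ge W 0 (algebraMap K L (phi (Fb lay) (fun f => Δ.a f.1) Δ.A (fun f => Δ.c f.1) lb J ψ D)) := by
  classical
  obtain ⟨lam, hlam1, hlam2⟩ := exists_lam Δ lay P
  have htot := total Δ lay J lb hJ NN gg hD hgg hNN hWP b lam hκ hM hN1 hN2
    (fun _ f hf y => ct_zero Δ lay hlam2 f hf y) hram hsep hs f0 t0 ht0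
  have hJ' : ∀ l j, aeval (J l j) (Fb lay (lb l j)) = 0 := by
    intro l j
    unfold Fb
    rw [map_prod]
    exact Finset.prod_eq_zero (i := (lb l j).2) (Finset.mem_filter.2 ⟨Finset.mem_univ _, rfl⟩)
      (hJ l j)
  have hJa : ∀ l j i, J l j ≠ algebraMap k L (Δ.a (lb l j).1 i) := fun l j i =>
    root_ne (fb_eval Δ lay _ _) (hJ' l j)
  obtain ⟨hden0, hden⟩ := ord_den (W := W) (Fb lay) (fun f => Δ.a f.1) Δ.A (fun f => Δ.c f.1)
    lb J (fun f => fb_ne Δ lay f) hJa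
  unfold phi
  rw [map_mul, map_div₀, map_pow, map_prod]
  have h1 := ge_div ((_root_.map_ne_zero (algebraMap K L)).2 hden0) hψ
  have h2 : Ge W (∑ l, ∑ g : L ≃ₐ[K] L, ∑ j, (e * cnt P (Fb lay (lb l j)) -
      (Fb lay (lb l j)).natDegree * tau (W.comp (rs g)) (J l j) +
        xx Δ lay b lam (W.comp (rs g)) P e (lb l j) (J l j)))
      (∏ l, algebraMap K L (Algebra.norm K (mat (Fb lay) (lb l) (J l) D).det)) := by
    refine Ge.prod _ _ _ fun l _ => ?_
    refine ge_norm _ fun g => ?_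
    exact detb Δ lay b (over_rs hWP g) D hDk (J l) (lb l) (hJ l) hs (halg l) lam
      fun _ => hlam1
  refine (h1.mul (h2.pow Δ.A)).mono ?_
  rw [hden]
  have hlead : ∀ f : Lb Δ.τ, W.ord (algebraMap K L (Fb lay f).leadingCoeff) = 0 := by
    intro f
    have h3 : (Fb lay f).Monic := by
      unfold Fb
      exact monic_prod_of_monic _ _ fun x _ => (Δ.irr f.1 x.1 x.2).2
    rw [h3.leadingCoeff, map_one, W.ord_one]
  have h3 : (Δ.A : ℤ) * ∑ l, ∑ g : L ≃ₐ[K] L, ∑ j, (e * cnt P (Fb lay (lb l j)) -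
      (Fb lay (lb l j)).natDegree * tau (W.comp (rs g)) (J l j) +
        xx Δ lay b lam (W.comp (rs g)) P e (lb l j) (J l j)) -
      ∑ l, ∑ j, ∑ g : L ≃ₐ[K] L,
        ((Δ.A : ℤ) * W.ord (algebraMap K L (Fb lay (lb l j)).leadingCoeff) +
        ∑ i, (Δ.c (lb l j).1 i : ℤ) *
          (W.comp (rs g)).ord (J l j - algebraMap k L (Δ.a (lb l j).1 i))) =
      ∑ l, ∑ j, ∑ g : L ≃ₐ[K] L, psi Δ lay b lam (W.comp (rs g)) P e (lb l j) (J l j) := by
    rw [Finset.mul_sum, ← Finset.sum_sub_distrib]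
    refine Finset.sum_congr rfl fun l _ => ?_
    rw [Finset.sum_comm, Finset.mul_sum, ← Finset.sum_sub_distrib]
    refine Finset.sum_congr rfl fun j _ => ?_
    rw [Finset.mul_sum, ← Finset.sum_sub_distrib]
    refine Finset.sum_congr rfl fun g _ => ?_
    rw [hlead, mul_zero, zero_add]
    rfl
  linarith

end main

end Pool.Agent.J4.H73.BF
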