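import Pool.Agent.J4.H73.BF.Bound

/-!
The square-free parts of orbifold polynomials, with integral weights.
-/

set_option autoImplicit false
set_option linter.unusedSectionVars false
set_option linter.overlappingInstances false

open FF IntermediateField

namespace Pool.Agent.J4.H73.BF

open Pool.Agent.TH466.QG Pool.Agent.N111.FT
open Pool.Agent.W603.LV
open Pool.Agent.W603.PV (pord pht pht_le pord_le exists_pord)
open Pool.Agent.W602.GT (IsForm val coords)
open Pool.Agent.Y216 (OnVar CurveBound)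
open Pool.Agent.Y190.BV (ct cnt)

/-- integral weights with slack -/
theorem exists_slack {r q : ℕ} (hr : 1 ≤ r) (m : Fin q → ℕ) (I0 : Finset (Fin q)) {d n : ℕ}
    (hd : d + I0.card ≤ n) (hsum : 2 * (n : ℝ) < ∑ i, weight r (m i)) :
    ∃ (q' : ℕ) (g : Fin q' → Fin q) (A : ℕ) (c : Fin q' → ℕ), Function.Injective g ∧
      (∀ i, g i ∉ I0) ∧ (∀ i, c i ≤ A) ∧ 2 * A * d < ∑ i, c i ∧
      ∀ i, ∀ x : ℤ, 0 < x → m (g i) ≠ 0 → (m (g i) : ℤ) ≤ r * x →
        (A : ℤ) + x ≤ ((A : ℤ) - c i) * x := by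
  classical
  let m' : Fin q → ℕ := fun i => (m i + r - 1) / r
  let M : Fin q → ℕ := fun i => if m' i = 0 then 1 else m' i
  have hM : ∀ i, 0 < M i := by
    intro i
    simp only [M]
    split_ifs <;> omega
  let A : ℕ := ∏ i, M i
  have hA : 0 < A := Finset.prod_pos fun i _ => hM i
  have hdvd : ∀ i, M i ∣ A := fun i => Finset.dvd_prod_of_mem M (Finset.mem_univ i)
  let c : Fin q → ℕ := fun i => if m' i = 0 then A else A - A / m' i
  have hm'0 : ∀ i, m i ≠ 0 → m' i ≠ 0 := by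
    intro i hi h0
    have h1 : (m i + r - 1) / r = 0 := h0
    rw [Nat.div_eq_zero_iff] at h1
    omega
  have hcA : ∀ i, c i ≤ A := by
    intro i
    simp only [c]
    split_ifs
    · exact le_rfl
    · exact Nat.sub_le _ _
  have hcw : ∀ i, (c i : ℝ) = A * weight r (m i) := by
    intro i
    unfold weight
    change ((c i : ℕ) : ℝ) = A * (1 - 1 / ((m' i : ℕ) : ℝ))
    by_cases h0 : m' i = 0
    · simp only [c, if_pos h0, h0, Nat.cast_zero, div_zero, sub_zero, mul_one]
    · have h2 : m' i ∣ A := by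
        have := hdvd i
        simp only [M, if_neg h0] at this
        exact this
      simp only [c, if_neg h0]
      rw [Nat.cast_sub (Nat.div_le_self _ _), Nat.cast_div h2 (by exact_mod_cast h0)]
      ring
  have hc1 : ∀ i, m' i ≠ 1 → 1 ≤ c i := by
    intro i hi
    simp only [c]
    split_ifs with h0
    · exact hA
    · have h2 : 2 ≤ m' i := by omega
      have h3 : A / m' i < A := Nat.div_lt_self hA (by omega)
      omega
  have hw0 : ∀ i, m' i = 1 → weight r (m i) = 0 := by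
    intro i hi
    unfold weight
    change (1 : ℝ) - 1 / ((m' i : ℕ) : ℝ) = 0
    rw [hi]
    norm_num
  have hgood : ∀ i, m i ≠ 0 → ∀ x : ℤ, 0 < x → (m i : ℤ) ≤ r * x →
      (A : ℤ) ≤ ((A : ℤ) - c i) * x := by
    intro i hmi x hx hle
    have h0 := hm'0 i hmi
    lift x to ℕ using hx.le
    have h1 : m' i ≤ x := by
      change (m i + r - 1) / r ≤ x
      rw [Nat.div_le_iff_le_mul_add_pred (by omega)]
      have : m i ≤ r * x := by exact_mod_cast hle
      omega
    have h2 : m' i ∣ A := by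
      have := hdvd i
      simp only [M, if_neg h0] at this
      exact this
    obtain ⟨B, hB⟩ := h2
    have h3 : A / m' i = B := by
      rw [hB]
      exact Nat.mul_div_cancel_left B (Nat.pos_of_ne_zero h0)
    have h4 : B ≤ A := by
      rw [hB]
      exact Nat.le_mul_of_pos_left B (Nat.pos_of_ne_zero h0)
    have h5 : ((A : ℤ) - c i) = B := by
      simp only [c, if_neg h0, h3]
      omega
    rw [h5]
    have h6 : (A : ℤ) = m' i * B := by exact_mod_cast hB
    rw [h6, mul_comm (B : ℤ)]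
    exact mul_le_mul_of_nonneg_right (by exact_mod_cast h1) (Int.natCast_nonneg _)
  -- the nodes
  set I1 : Finset (Fin q) := Finset.univ.filter fun i => i ∉ I0 ∧ m' i ≠ 1 with hI1
  let g : Fin I1.card → Fin q := fun i => (I1.equivFin.symm i : Fin q)
  have hgI : ∀ i, g i ∈ I1 := fun i => (I1.equivFin.symm i).2
  have hsum1 : ∑ i, weight r (m i) ≤ I0.card + ∑ i ∈ I1, weight r (m i) := by
    have h1 : ∀ i, weight r (m i) ≤ (if i ∈ I0 then 1 else 0) +
        (if i ∈ I1 then weight r (m i) else 0) := by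
      intro i
      by_cases h2 : i ∈ I0
      · have h3 : i ∉ I1 := fun h => ((Finset.mem_filter.1 h).2).1 h2
        rw [if_pos h2, if_neg h3, add_zero]
        exact weight_le _ _
      · rw [if_neg h2, zero_add]
        split_ifs with h3
        · exact le_rfl
        · have h4 : m' i = 1 := by
            by_contra hcon
            exact h3 (Finset.mem_filter.2 ⟨Finset.mem_univ _, h2, hcon⟩)
          rw [hw0 i h4]
    refine (Finset.sum_le_sum fun i _ => h1 i).trans (le_of_eq ?_)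
    rw [Finset.sum_add_distrib]
    congr 1
    · rw [Finset.sum_ite_mem, Finset.univ_inter]
      simp
    · rw [Finset.sum_ite_mem, Finset.univ_inter]
  have hsum2 : ∑ i ∈ I1, (c i : ℝ) = A * ∑ i ∈ I1, weight r (m i) := by
    rw [Finset.mul_sum]
    exact Finset.sum_congr rfl fun i _ => hcw i
  have hA' : (0 : ℝ) < A := by exact_mod_cast hA
  have hbd : 2 * A * d < ∑ i ∈ I1, c i := by
    have h1 : 2 * (d : ℝ) < ∑ i ∈ I1, weight r (m i) := by
      have h2 : ((d + I0.card : ℕ) : ℝ) ≤ n := by exact_mod_cast hd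
      push_cast at h2
      have h3 : (0 : ℝ) ≤ I0.card := Nat.cast_nonneg _
      linarith
    have h2 := mul_lt_mul_of_pos_left h1 hA'
    rw [← hsum2] at h2
    have h3 : ((2 * A * d : ℕ) : ℝ) < ((∑ i ∈ I1, c i : ℕ) : ℝ) := by
      push_cast
      linarith
    exact_mod_cast h3
  have hgsum : ∀ f : Fin q → ℕ, ∑ i, f (g i) = ∑ i ∈ I1, f i := by
    intro f
    rw [← Finset.sum_coe_sort I1 f, ← Equiv.sum_comp I1.equivFin.symm]
  refine ⟨I1.card, g, (I1.card + 1) * A, fun i => (I1.card + 1) * c (g i) - 1, ?_, ?_, ?_, ?_, ?_⟩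
  · intro i j hij
    exact I1.equivFin.symm.injective (Subtype.ext hij)
  · intro i hi
    exact ((Finset.mem_filter.1 (hgI i)).2).1 hi
  · intro i
    exact (Nat.sub_le _ _).trans (Nat.mul_le_mul_left _ (hcA _))
  · have h1 : ∑ i : Fin I1.card, ((I1.card + 1) * c (g i) - 1) + I1.card =
        (I1.card + 1) * ∑ i ∈ I1, c i := by
      rw [← hgsum, Finset.mul_sum]
      conv_lhs =>
        enter [2]
        rw [← Fintype.card_fin I1.card, ← Finset.card_univ, Finset.card_eq_sum_ones]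
      rw [← Finset.sum_add_distrib]
      refine Finset.sum_congr rfl fun i _ => ?_
      have h2 := hc1 (g i) ((Finset.mem_filter.1 (hgI i)).2).2
      have h3 : 1 ≤ (I1.card + 1) * c (g i) := Nat.mul_pos (Nat.succ_pos _) h2
      omega
    have h2 : (I1.card + 1) * (2 * A * d + 1) ≤ (I1.card + 1) * ∑ i ∈ I1, c i :=
      Nat.mul_le_mul_left _ hbd
    have h3 : (I1.card + 1) * (2 * A * d + 1) = 2 * ((I1.card + 1) * A) * d + I1.card + 1 := by
      ring
    rw [h3, ← h1] at h2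
    have h4 : 2 * ((I1.card + 1) * A) * d < ∑ i : Fin I1.card, ((I1.card + 1) * c (g i) - 1) := by
      omega
    exact h4
  · intro i x hx hmi hle
    have h1 := hgood (g i) hmi x hx hle
    have h2 := hc1 (g i) ((Finset.mem_filter.1 (hgI i)).2).2
    have h3 : 1 ≤ (I1.card + 1) * c (g i) := Nat.mul_pos (Nat.succ_pos _) h2
    rw [Nat.cast_sub h3]
    push_cast
    nlinarith [mul_le_mul_of_nonneg_left h1 (by positivity : (0 : ℤ) ≤ (I1.card : ℤ) + 1)]

variable {k L : Type} [Field k] [IsAlgClosed k] [CharZero k] [Field L] [Algebra k L] {N : ℕ}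
  {u : Fin (N + 1) → L} {B : MvPolynomial (Fin (N + 1)) k} {b : ℕ}

/-- The data of an orbifold polynomial. -/
structure Dat (k : Type) [Field k] {L : Type} [Field L] [Algebra k L] (Bd : Set (Place k L)) where
  /-- the factors -/
  τ : Finset (Polynomial L)
  irr : ∀ p ∈ τ, Irreducible p ∧ p.Monic
  nc : ∀ p ∈ τ, ∀ y : k, p.eval (algebraMap k L y) ≠ 0
  /-- the number of nodes -/
  q : ℕ
  /-- the nodes -/
  a : Fin q → k
  inj : Function.Injective a
  /-- the common denominator of the weights -/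
  A : ℕ
  /-- the weights -/
  c : Fin q → ℕ
  cA : ∀ i, c i ≤ A
  large : 2 * A * (∏ p ∈ τ, p).natDegree < ∑ i, c i
  ram : ∀ P : Place k L, P ∉ Bd → ∀ i, ct P (∏ p ∈ τ, p) (a i) = 0 ∨
    (A : ℤ) + ct P (∏ p ∈ τ, p) (a i) ≤ ((A : ℤ) - c i) * ct P (∏ p ∈ τ, p) (a i)

/-- the square-free part of an orbifold polynomial -/
theorem orb_data (hu : u ≠ 0) (hB : MvPolynomial.aeval u B ≠ 0) (H : OrbifoldPolynomial u B b) :
    ∃ d : Dat k (boundary B b u),
      (∀ p ∈ d.τ, p ∣ poly fun l => MvPolynomial.aeval u (H.φ l)) ∧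
      ∀ v ∈ H.values, v ∈ adjoin k {x : L | ∃ p ∈ d.τ, ∃ j, x = p.coeff j} := by
  classical
  have hinf : Infinite k := inferInstance
  obtain ⟨T, T1, e, c0, hc0, hT, hHT, he1, her, hT1T, hT1nc, hT2, ⟨I0, hI0, hdeg⟩, hct⟩ :=
    rad_nc (k := k) (n := H.n) (r := H.r) H.a H.distinct
      (poly fun l => MvPolynomial.aeval u (H.φ l)) (poly_ne H.nonzero) (poly_deg _) H.roots
  obtain ⟨q', g, A, c, hg, hgI, hcA, hbd, hsl⟩ := exists_slack H.r_pos H.m I0 hdeg H.large
  obtain ⟨i1, hi1'⟩ := Function.ne_iff.1 hu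
  obtain ⟨G, _, hGu, hram⟩ := H.ramified
  have hram' := hram L u ⟨⟨i1, hi1'⟩, fun _ _ h => h⟩ hGu hB
  refine ⟨⟨T1, fun p hp => hT p (hT1T hp), hT1nc, q', H.a ∘ g, H.distinct.comp hg, A, c, hcA, hbd,
    fun P hP i => ?_⟩, ?_, ?_⟩
  · have hi : (poly fun l => MvPolynomial.aeval u (H.φ l)).eval (algebraMap k L (H.a (g i))) ≠ 0 :=
      fun h => hgI i ((hI0 _).2 h)
    have h1 := hram' P hP (g i) (by rwa [poly_eval] at hi)
    rw [contact_eq H.nonzero] at h1
    obtain ⟨h2, h3⟩ := hct P (g i) hi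
    have h4 : 0 ≤ ct P (∏ p ∈ T1, p) (H.a (g i)) := by
      have h5 : (∏ p ∈ T1, p).eval (algebraMap k L (H.a (g i))) ≠ 0 := by
        rw [Polynomial.eval_prod]
        exact Finset.prod_ne_zero_iff.2 fun p hp => hT1nc p hp _
      exact Pool.Agent.Y190.BV.ct_nonneg P h5
    change ct P (∏ p ∈ T1, p) (H.a (g i)) = 0 ∨
      (A : ℤ) + ct P (∏ p ∈ T1, p) (H.a (g i)) ≤ ((A : ℤ) - c i) * ct P (∏ p ∈ T1, p) (H.a (g i))
    rcases h4.eq_or_lt with h5 | h5
    · exact Or.inl h5.symm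
    · right
      rcases h1 with h1 | ⟨h1, h6⟩
      · omega
      · exact hsl i _ h5 h1 (h6.trans h3)
  · intro p hp
    have h1 : p ∣ ∏ p ∈ T, p ^ e p := (dvd_pow_self p (by have := he1 p (hT1T hp); omega)).trans
      (Finset.dvd_prod_of_mem _ (hT1T hp))
    rw [hHT]
    exact h1.mul_left _
  · rintro v ⟨i, j, rfl⟩
    change _ ∈ adjoin k {x : L | ∃ p ∈ T1, ∃ j, x = p.coeff j}
    obtain ⟨E0, hE0⟩ : ∃ E0, E0 = adjoin k {x : L | ∃ p ∈ T1, ∃ j, x = p.coeff j} := ⟨_, rfl⟩
    rw [← hE0]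
    have hl : ∀ p ∈ T, p ∈ Polynomial.lifts (algebraMap E0 L) := by
      intro p hp
      rw [Polynomial.lifts_iff_coeff_lifts]
      by_cases hp1 : p ∈ T1
      · intro j
        exact ⟨⟨p.coeff j, by rw [hE0]; exact subset_adjoin k _ ⟨p, hp1, j, rfl⟩⟩, rfl⟩
      · obtain ⟨y, hy⟩ := hT2 p hp hp1
        have h1 : Polynomial.X - Polynomial.C (algebraMap k L y) ∣ p :=
          Polynomial.dvd_iff_isRoot.2 hy
        have h2 : Polynomial.X - Polynomial.C (algebraMap k L y) = p := by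
          refine Polynomial.eq_of_monic_of_associated (Polynomial.monic_X_sub_C _) (hT p hp).2 ?_
          exact (Polynomial.irreducible_X_sub_C _).associated_of_dvd (hT p hp).1 h1
        intro j
        rw [← h2]
        refine ⟨(Polynomial.X - Polynomial.C (algebraMap k E0 y)).coeff j, ?_⟩
        rw [← Polynomial.coeff_map, Polynomial.map_sub, Polynomial.map_X, Polynomial.map_C,
          ← IsScalarTower.algebraMap_apply]
    have hl2 : (∏ p ∈ T, p ^ e p) ∈ Polynomial.lifts (algebraMap E0 L) :=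
      Subsemiring.prod_mem _ fun p hp => Subsemiring.pow_mem _ (hl p hp) _
    rw [Polynomial.lifts_iff_coeff_lifts] at hl2
    have h3 : ∀ l : Fin (H.n + 1), ∃ x : E0, MvPolynomial.aeval u (H.φ l) = c0 * (x : L) := by
      intro l
      obtain ⟨x, hx⟩ := hl2 l
      refine ⟨x, ?_⟩
      have h4 := poly_coeff_fin (fun l => MvPolynomial.aeval u (H.φ l)) l
      rw [hHT, Polynomial.coeff_C_mul, ← hx] at h4
      exact h4.symm
    obtain ⟨x, hx⟩ := h3 i
    obtain ⟨y, hy⟩ := h3 j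
    rw [hx, hy, mul_div_mul_left _ _ hc0]
    exact E0.div_mem x.2 y.2

/-- scaling of the weights -/
theorem Dat.scale {Bd : Set (Place k L)} (d : Dat k Bd) (M : ℕ) (hM : 1 ≤ M) :
    ∃ d' : Dat k Bd, d'.τ = d.τ ∧ d'.A = M * d.A := by
  refine ⟨⟨d.τ, d.irr, d.nc, d.q, d.a, d.inj, M * d.A, fun i => M * d.c i,
    fun i => Nat.mul_le_mul_left _ (d.cA i), ?_, fun P hP i => ?_⟩, rfl, rfl⟩
  · rw [← Finset.mul_sum]
    calc 2 * (M * d.A) * (∏ p ∈ d.τ, p).natDegree = M * (2 * d.A * (∏ p ∈ d.τ, p).natDegree) := by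
          ring
      _ < M * ∑ i, d.c i := Nat.mul_lt_mul_of_pos_left d.large hM
  · rcases d.ram P hP i with h | h
    · exact Or.inl h
    · right
      have h5 : (∏ p ∈ d.τ, p).eval (algebraMap k L (d.a i)) ≠ 0 := by
        rw [Polynomial.eval_prod]
        exact Finset.prod_ne_zero_iff.2 fun p hp => d.nc p hp _
      have h0 := Pool.Agent.Y190.BV.ct_nonneg P h5
      push_cast
      have h1 : (1 : ℤ) ≤ M := by exact_mod_cast hM
      nlinarith [mul_le_mul_of_nonneg_left h (by positivity : (0 : ℤ) ≤ (M : ℤ)),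
        mul_le_mul_of_nonneg_right h1 h0]

/-- **The assembly.** -/
theorem asm (hu : u ≠ 0) (hgen : coords k u = ⊤) (hB : MvPolynomial.aeval u B ≠ 0)
    (p0 : OrbifoldPolynomial u B b → Prop)
    (hh : ∀ t : L, t ∈ aclo k {t | ∃ H : OrbifoldPolynomial u B b, p0 H ∧ t ∈ H.values}) :
    ∃ (σ : Type) (_ : Fintype σ) (H : σ → OrbifoldPolynomial u B b)
      (d : σ → Dat k (boundary B b u)) (A : ℕ), (∀ s, p0 (H s)) ∧
      (∀ s, ∀ p ∈ (d s).τ, p ∣ poly fun l => MvPolynomial.aeval u ((H s).φ l)) ∧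
      (∀ s, (d s).A = A) ∧
      Algebra.IsAlgebraic (adjoin k {x : L | ∃ s, ∃ p ∈ (d s).τ, ∃ j, x = p.coeff j}) L := by
  classical
  obtain ⟨i1, hi1'⟩ := Function.ne_iff.1 hu
  have hi1 : u i1 ≠ 0 := hi1'
  choose T hTV hT using fun m : Fin (N + 1) =>
    Pool.Agent.N111.GG.aclo_finite (hh (u m / u i1))
  let W : Set L := {v | ∃ m, v ∈ (T m : Set L)}
  have hWf : W.Finite := by
    refine (Set.finite_iUnion fun m => (T m).finite_toSet).subset ?_
    rintro v ⟨m, hm⟩
    exact Set.mem_iUnion.2 ⟨m, hm⟩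
  have hWF : Fintype W := hWf.fintype
  have hW : ∀ v : W, ∃ (H : OrbifoldPolynomial u B b), p0 H ∧ (v : L) ∈ H.values := by
    rintro ⟨v, m, hm⟩
    obtain ⟨H, h1, h2⟩ := hTV m hm
    exact ⟨H, h1, h2⟩
  choose H hp0 hv using hW
  choose d hd1 hd2 using fun v : W => orb_data hu hB (H v)
  have hApos : ∀ v, 1 ≤ (d v).A := by
    intro v
    rcases Nat.eq_zero_or_pos (d v).A with h | h
    · exfalso
      have h1 := (d v).large
      rw [h] at h1
      have : ∑ i, (d v).c i = 0 := Finset.sum_eq_zero fun i _ => by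
        have := (d v).cA i
        omega
      omega
    · exact h
  choose d' hd'τ hd'A using fun v : W => (d v).scale (∏ v' ∈ Finset.univ.erase v, (d v').A)
    (Finset.one_le_prod' fun v' _ => hApos v')
  refine ⟨W, hWF, H, d', ∏ v, (d v).A, hp0, fun s p hp => hd1 s p (hd'τ s ▸ hp), fun s => ?_, ?_⟩
  · rw [hd'A, Finset.prod_erase_mul _ _ (Finset.mem_univ s)]
  · constructor
    intro t
    rw [← mem_aclo]
    have h3 : (⊤ : IntermediateField k L) ≤
        aclo k {x : L | ∃ s, ∃ p ∈ (d' s).τ, ∃ j, x = p.coeff j} := by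
      rw [← adjoin_norm hgen hi1, adjoin_le_iff]
      rintro _ ⟨m, rfl⟩
      refine aclo_le ?_ (hT m)
      intro v hvT
      have h4 := hd2 ⟨v, m, hvT⟩ v (hv ⟨v, m, hvT⟩)
      have h5 : adjoin k {x : L | ∃ p ∈ (d ⟨v, m, hvT⟩).τ, ∃ j, x = p.coeff j} ≤
          aclo k {x : L | ∃ s, ∃ p ∈ (d' s).τ, ∃ j, x = p.coeff j} := by
        rw [adjoin_le_iff]
        rintro x ⟨p, hp, j, hx⟩
        exact subset_aclo _ ⟨⟨v, m, hvT⟩, p, by rw [hd'τ]; exact hp, j, hx⟩
      exact h5 h4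
    exact h3 (mem_top (x := t))

end Pool.Agent.J4.H73.BF
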