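import Mathlib

/-!
Two inequalities for sums over the labels.
-/

set_option autoImplicit false

namespace Pool.Agent.J4.H73.BF

theorem min_sum {ι : Type} (s : Finset ι) (v : ι → ℤ) (hv : ∀ i ∈ s, 0 ≤ v i) {Z : ℤ}
    (hZ : 0 ≤ Z) : min (∑ i ∈ s, v i) Z ≤ ∑ i ∈ s, min (v i) Z := by
  classical
  induction s using Finset.induction_on with
  | empty =>
    rw [Finset.sum_empty, Finset.sum_empty]
    exact min_le_left _ _
  | insert a s ha ih =>
    rw [Finset.sum_insert ha, Finset.sum_insert ha]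
    have h1 := ih fun i hi => hv i (Finset.mem_insert_of_mem hi)
    have h2 := hv a (Finset.mem_insert_self a s)
    have h3 : 0 ≤ ∑ i ∈ s, v i := Finset.sum_nonneg fun i hi => hv i (Finset.mem_insert_of_mem hi)
    have h4 : min (v a + ∑ i ∈ s, v i) Z ≤ min (v a) Z + min (∑ i ∈ s, v i) Z := by
      rcases min_cases (v a) Z with ⟨h5, h6⟩ | ⟨h5, h6⟩ <;>
      rcases min_cases (∑ i ∈ s, v i) Z with ⟨h7, h8⟩ | ⟨h7, h8⟩ <;>
      rcases min_cases (v a + ∑ i ∈ s, v i) Z with ⟨h9, h10⟩ | ⟨h9, h10⟩ <;> omega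
    linarith

/-- the contact part -/
theorem contact_sum {X : Type} [Fintype X] (lay N n : X → ℕ) (v : ∀ x, Fin (n x) → ℤ)
    (hv : ∀ x i, 0 ≤ v x i) (γ : X → ℤ) (e : ℕ) (he : 0 < e)
    (hγ : ∀ x, ∑ i, v x i = e * γ x) (A c : ℕ) (hc : c ≤ A) (lam κ : ℕ)
    (hlow : ∀ x, lay x < lam → γ x = 0) (hκ : ∀ x y, lay x ≤ lay y → N x ≤ N y + κ)
    (hN : ∀ x, κ * (2 * A + 1) ≤ N x)
    (hram : ∑ x, γ x = 0 ∨ (A : ℤ) + ∑ x, γ x ≤ ((A : ℤ) - c) * ∑ x, γ x) :
    0 ≤ ∑ x, (N x : ℤ) * ∑ i, (((A : ℤ) - c) * v x i - A * (if lay x ≤ lam then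
      (if 0 < v x i then v x i - min (v x i)
        (e * (∑ y ∈ Finset.univ.filter (fun y => lay y = lay x), γ y - 1)) else 0) else 0)) := by
  classical
  have he' : (0 : ℤ) < e := by exact_mod_cast he
  have hγ0 : ∀ x, 0 ≤ γ x := by
    intro x
    have h1 : 0 ≤ ∑ i, v x i := Finset.sum_nonneg fun i _ => hv x i
    rw [hγ] at h1
    exact nonneg_of_mul_nonneg_right h1 he'
  have hv0 : ∀ x, γ x = 0 → ∀ i, v x i = 0 := by
    intro x hx i
    have h1 := hγ x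
    rw [hx, mul_zero, Finset.sum_eq_zero_iff_of_nonneg fun i _ => hv x i] at h1
    exact h1 i (Finset.mem_univ i)
  have hc' : (0 : ℤ) ≤ (A : ℤ) - c := by
    have : (c : ℤ) ≤ A := by exact_mod_cast hc
    linarith
  by_cases hcase : ∀ x, lay x = lam → γ x = 0
  · refine Finset.sum_nonneg fun x _ => mul_nonneg (Nat.cast_nonneg _)
      (Finset.sum_nonneg fun i _ => ?_)
    by_cases hx : lay x ≤ lam
    · have h1 : γ x = 0 := by
        rcases hx.lt_or_eq with h | h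
        · exact hlow x h
        · exact hcase x h
      rw [if_pos hx, hv0 x h1 i, if_neg (lt_irrefl _)]
      simp
    · rw [if_neg hx, mul_zero, sub_zero]
      exact mul_nonneg hc' (hv x i)
  push Not at hcase
  obtain ⟨x1, hx1, hγ1⟩ := hcase
  have hγ1' : 1 ≤ γ x1 := by
    have := hγ0 x1
    omega
  set G := ∑ x, γ x with hG
  have hG1 : 1 ≤ G := hγ1'.trans (Finset.single_le_sum (fun x _ => hγ0 x) (Finset.mem_univ x1))
  have hram' : (A : ℤ) + G ≤ ((A : ℤ) - c) * G := by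
    rcases hram with h | h
    · omega
    · exact h
  obtain ⟨B, hB⟩ : ∃ B : Finset X, B = Finset.univ.filter fun y => lay y = lam := ⟨_, rfl⟩
  have hBm : ∀ y, y ∈ B ↔ lay y = lam := fun y => by rw [hB]; simp
  obtain ⟨C, hC⟩ : ∃ C, C = ∑ y ∈ B, γ y := ⟨_, rfl⟩
  have hC1 : 1 ≤ C := by
    rw [hC]
    exact hγ1'.trans (Finset.single_le_sum (fun x _ => hγ0 x) ((hBm x1).2 hx1))
  obtain ⟨Z, hZ⟩ : ∃ Z, Z = (e : ℤ) * (C - 1) := ⟨_, rfl⟩
  have hZ0 : 0 ≤ Z := by rw [hZ]; exact mul_nonneg he'.le (by omega)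
  obtain ⟨θ, hθ⟩ : ∃ θ : ∀ x, Fin (n x) → ℤ, θ = fun x i => if lay x ≤ lam then
      (if 0 < v x i then v x i - min (v x i)
        (e * (∑ y ∈ Finset.univ.filter (fun y => lay y = lay x), γ y - 1)) else 0) else 0 :=
    ⟨_, rfl⟩
  have hθB : ∀ x ∈ B, ∀ i, θ x i = v x i - min (v x i) Z := by
    intro x hx i
    have hx' := (hBm x).1 hx
    rw [hθ]
    beta_reduce
    rw [if_pos hx'.le, hx', ← hB, ← hC, ← hZ]
    split_ifs with h
    · rfl
    · have h1 : v x i = 0 := le_antisymm (not_lt.1 h) (hv x i)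
      rw [h1, min_eq_left hZ0]
      simp
  have hθn : ∀ x, x ∉ B → ∀ i, θ x i = 0 := by
    intro x hx i
    rw [hθ]
    beta_reduce
    by_cases h : lay x ≤ lam
    · have h1 : lay x < lam := lt_of_le_of_ne h fun h2 => hx ((hBm x).2 h2)
      rw [if_pos h, hv0 x (hlow x h1) i, if_neg (lt_irrefl _)]
    · rw [if_neg h]
  have hθ0 : ∀ x i, 0 ≤ θ x i := by
    intro x i
    by_cases hx : x ∈ B
    · rw [hθB x hx]
      have := min_le_left (v x i) Z
      linarith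
    · rw [hθn x hx]
  have hθsum : ∑ x ∈ B, ∑ i, θ x i ≤ e := by
    rw [Finset.sum_congr rfl fun x hx => Finset.sum_congr rfl fun i _ => hθB x hx i]
    rw [Finset.sum_sigma' B (fun x => (Finset.univ : Finset (Fin (n x))))
      (fun x i => v x i - min (v x i) Z), Finset.sum_sub_distrib]
    have h1 := min_sum (B.sigma fun x => (Finset.univ : Finset (Fin (n x))))
      (fun z => v z.1 z.2) (fun z _ => hv z.1 z.2) hZ0
    have h2 : ∑ z ∈ B.sigma (fun x => (Finset.univ : Finset (Fin (n x)))), v z.1 z.2 = e * C := by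
      rw [Finset.sum_sigma, hC, Finset.mul_sum]
      exact Finset.sum_congr rfl fun x _ => hγ x
    rw [h2] at h1
    rw [h2]
    have h3 : min ((e : ℤ) * C) Z = Z := by
      apply min_eq_right
      rw [hZ]
      nlinarith
    rw [h3] at h1
    have h4 : (e : ℤ) * C - Z = e := by rw [hZ]; ring
    linarith
  have hsplit : ∑ x, (N x : ℤ) * ∑ i, (((A : ℤ) - c) * v x i - A * θ x i) =
      ((A : ℤ) - c) * (∑ x, (N x : ℤ) * (e * γ x)) - A * ∑ x ∈ B, (N x : ℤ) * ∑ i, θ x i := by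
    have h1 : ∑ x ∈ B, (N x : ℤ) * ∑ i, θ x i = ∑ x, (N x : ℤ) * ∑ i, θ x i := by
      refine Finset.sum_subset (Finset.subset_univ B) fun x _ hx => ?_
      rw [Finset.sum_eq_zero fun i _ => hθn x hx i, mul_zero]
    rw [h1, Finset.mul_sum, Finset.mul_sum, ← Finset.sum_sub_distrib]
    refine Finset.sum_congr rfl fun x _ => ?_
    rw [Finset.sum_sub_distrib, ← Finset.mul_sum, ← Finset.mul_sum, hγ]
    ring
  have hgoal : 0 ≤ ∑ x, (N x : ℤ) * ∑ i, (((A : ℤ) - c) * v x i - A * θ x i) := by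
    rw [hsplit]
    have h1 : ((N x1 : ℤ) - κ) * (e * G) ≤ ∑ x, (N x : ℤ) * (e * γ x) := by
      rw [hG, Finset.mul_sum, Finset.mul_sum]
      refine Finset.sum_le_sum fun x _ => ?_
      by_cases hx : lay x < lam
      · rw [hlow x hx]
        simp
      · push Not at hx
        have h2 := hκ x1 x (by rw [hx1]; exact hx)
        have h3 : (N x1 : ℤ) ≤ N x + κ := by exact_mod_cast h2
        exact mul_le_mul_of_nonneg_right (by linarith) (mul_nonneg he'.le (hγ0 x))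
    have h2 : ∑ x ∈ B, (N x : ℤ) * ∑ i, θ x i ≤ ((N x1 : ℤ) + κ) * e := by
      refine le_trans (Finset.sum_le_sum (g := fun x => ((N x1 : ℤ) + κ) * ∑ i, θ x i)
        fun x hx => ?_) ?_
      · have h3 := hκ x x1 (by rw [(hBm x).1 hx, hx1])
        have h4 : (N x : ℤ) ≤ N x1 + κ := by exact_mod_cast h3
        exact mul_le_mul_of_nonneg_right h4 (Finset.sum_nonneg fun i _ => hθ0 x i)
      · rw [← Finset.mul_sum]
        exact mul_le_mul_of_nonneg_left hθsum (by positivity)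
    have h3 : (κ : ℤ) * (2 * A + 1) ≤ N x1 := by exact_mod_cast hN x1
    have hA0 : (0 : ℤ) ≤ A := Nat.cast_nonneg _
    have hκ0 : (0 : ℤ) ≤ κ := Nat.cast_nonneg _
    have h4 : (0 : ℤ) ≤ (N x1 : ℤ) - κ := by nlinarith
    have h5 : ((N x1 : ℤ) - κ) * e * ((A : ℤ) + 1) ≤ ((A : ℤ) - c) * ∑ x, (N x : ℤ) * (e * γ x) := by
      calc ((N x1 : ℤ) - κ) * e * ((A : ℤ) + 1) ≤ ((N x1 : ℤ) - κ) * e * (((A : ℤ) - c) * G) :=
            mul_le_mul_of_nonneg_left (by linarith) (mul_nonneg h4 he'.le)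
        _ = ((A : ℤ) - c) * (((N x1 : ℤ) - κ) * (e * G)) := by ring
        _ ≤ _ := mul_le_mul_of_nonneg_left h1 hc'
    have h6 : (A : ℤ) * ∑ x ∈ B, (N x : ℤ) * ∑ i, θ x i ≤ A * (((N x1 : ℤ) + κ) * e) :=
      mul_le_mul_of_nonneg_left h2 hA0
    have h7 : (A : ℤ) * (((N x1 : ℤ) + κ) * e) ≤ ((N x1 : ℤ) - κ) * e * ((A : ℤ) + 1) := by
      have h8 : ((N x1 : ℤ) - κ) * e * ((A : ℤ) + 1) - A * (((N x1 : ℤ) + κ) * e) =
          e * (N x1 - κ * (2 * A + 1)) := by ring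
      have h9 : (0 : ℤ) ≤ e * (N x1 - κ * (2 * A + 1)) := mul_nonneg he'.le (by linarith)
      linarith
    linarith
  rw [hθ] at hgoal
  exact hgoal

/-- the pole part -/
theorem pole_sum {φ : Type} [Fintype φ] (blk : φ → Finset φ)
    (hblk : ∀ f f', f' ∈ blk f ↔ f ∈ blk f') (N n : φ → ℕ) (τ : φ → ℤ) (hτ : ∀ f, 0 ≤ τ f)
    (A : ℕ) (C : φ → ℤ) (κ Dd M : ℕ) (hκ : ∀ f, ∀ f' ∈ blk f, N f' ≤ N f + κ)
    (hC : ∀ f, 2 * A * (∑ f' ∈ blk f, (n f' : ℤ)) + 1 ≤ C f)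
    (hM : ∀ f, ∑ f' ∈ blk f, n f' ≤ M) (hN : ∀ f, A * M * κ + Dd ≤ N f) :
    ∑ f, Dd * τ f ≤ ∑ f, (N f : ℤ) * (-(A * n f * ∑ f' ∈ blk f, τ f') +
      (C f - A * ∑ f' ∈ blk f, (n f' : ℤ)) * τ f) := by
  have h1 : ∑ f, (N f : ℤ) * (A * n f * ∑ f' ∈ blk f, τ f') =
      ∑ f', ∑ f ∈ blk f', (N f : ℤ) * (A * n f * τ f') := by
    rw [Finset.sum_comm' (t' := Finset.univ) (s' := blk)]
    · refine Finset.sum_congr rfl fun f _ => ?_
      rw [Finset.mul_sum, Finset.mul_sum]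
    · intro f f'
      simp only [Finset.mem_univ, true_and, and_true]
      exact hblk f f'
  have h2 : ∀ f', ∑ f ∈ blk f', (N f : ℤ) * (A * n f * τ f') ≤
      A * (N f' + κ) * (∑ f ∈ blk f', (n f : ℤ)) * τ f' := by
    intro f'
    have h3 : ∑ f ∈ blk f', (N f : ℤ) * (A * n f * τ f') ≤
        ∑ f ∈ blk f', A * ((N f' : ℤ) + κ) * n f * τ f' := by
      refine Finset.sum_le_sum fun f hf => ?_
      have h4 : (N f : ℤ) ≤ N f' + κ := by exact_mod_cast hκ f' f hf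
      have h5 : (0 : ℤ) ≤ A * n f * τ f' := mul_nonneg (by positivity) (hτ f')
      have h6 := mul_le_mul_of_nonneg_right h4 h5
      linarith
    refine h3.trans (le_of_eq ?_)
    rw [Finset.mul_sum, Finset.sum_mul]
  have h3 : ∑ f, (N f : ℤ) * (-(A * n f * ∑ f' ∈ blk f, τ f') +
      (C f - A * ∑ f' ∈ blk f, (n f' : ℤ)) * τ f) =
      ∑ f, (N f : ℤ) * ((C f - A * ∑ f' ∈ blk f, (n f' : ℤ)) * τ f) -
        ∑ f, (N f : ℤ) * (A * n f * ∑ f' ∈ blk f, τ f') := by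
    rw [← Finset.sum_sub_distrib]
    refine Finset.sum_congr rfl fun f _ => ?_
    ring
  rw [h3, h1, ← Finset.sum_sub_distrib]
  refine Finset.sum_le_sum fun f _ => ?_
  have h4 := h2 f
  obtain ⟨d, hd⟩ : ∃ d, d = ∑ f' ∈ blk f, n f' := ⟨_, rfl⟩
  have hd' : ∑ f' ∈ blk f, (n f' : ℤ) = d := by rw [hd]; push_cast; rfl
  have hC' := hC f
  rw [hd'] at h4 hC' ⊢
  have hM' : (d : ℤ) ≤ M := by rw [hd]; exact_mod_cast hM f
  have hN' : (A : ℤ) * M * κ + Dd ≤ N f := by exact_mod_cast hN f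
  have h5 : (N f : ℤ) * ((C f - A * d) * τ f) - A * (N f + κ) * d * τ f =
      ((C f - 2 * A * d - 1) * N f + (N f - A * d * κ)) * τ f := by ring
  have h6 : (0 : ℤ) ≤ (C f - 2 * A * d - 1) * N f :=
    mul_nonneg (by linarith) (Nat.cast_nonneg _)
  have h7 : (A : ℤ) * d * κ ≤ A * M * κ :=
    mul_le_mul_of_nonneg_right (mul_le_mul_of_nonneg_left hM' (Nat.cast_nonneg _))
      (Nat.cast_nonneg _)
  have h8 : (Dd : ℤ) * τ f ≤ ((C f - 2 * A * d - 1) * N f + (N f - A * d * κ)) * τ f :=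
    mul_le_mul_of_nonneg_right (by linarith) (hτ f)
  linarith

end Pool.Agent.J4.H73.BF
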