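import Pool.Agent.J4.H73.BF.Forms

/-!
A function field which is algebraic over the coefficients of ramified irreducible polynomials is of
log general type.
-/

set_option autoImplicit false

open FF Pool.Agent.W603.LV Pool.Agent.W602.GT Polynomial

namespace Pool.Agent.J4.H73.BF

open Pool.Agent.Y190.BV hiding den mat phi mat_mul phi_pluri ord_den ge_phi reg_phi

section alg

variable {k K L : Type} [Field k] [Field K] [Field L] [Algebra k K] [Algebra k L] [Algebra K L]
  [IsScalarTower k K L]

/-- algebraicity over the roots -/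
theorem alg_roots_joint [Algebra.IsAlgebraic K L] {σ : Type} (F : σ → K[X])
    (hF : ∀ s, (F s).Separable) (hs : ∀ s, ((F s).map (algebraMap K L)).Splits)
    (halg : Algebra.IsAlgebraic
      (IntermediateField.adjoin k {x : K | ∃ s i j, x = (F s).coeff i / (F s).coeff j}) K)
    (R : Set L) (hR : ∀ s t, aeval t (F s) = 0 → t ∈ R) :
    Algebra.IsAlgebraic (Algebra.adjoin k R) L := by
  rw [← IntermediateField.isAlgebraic_adjoin_iff_top]
  obtain ⟨E, hE⟩ : ∃ E, E = IntermediateField.adjoin k R := ⟨_, rfl⟩
  rw [← hE]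
  obtain ⟨E0, hE0⟩ : ∃ E0, E0 =
      IntermediateField.adjoin k {x : K | ∃ s i j, x = (F s).coeff i / (F s).coeff j} := ⟨_, rfl⟩
  rw [← hE0] at halg
  have hSE : ∀ x ∈ {x : K | ∃ s i j, x = (F s).coeff i / (F s).coeff j},
      algebraMap K L x ∈ E := by
    rintro _ ⟨s, i, j, rfl⟩
    obtain ⟨r, hr, hrr, hcoef⟩ := exists_roots (L := L) (F s) (hF s) (hs s)
    have hrE : ∀ i, r i ∈ E := fun i => by
      rw [hE]
      exact IntermediateField.subset_adjoin k _ (hR s _ (hrr i))
    have hc : ∀ j, (∏ i, (Polynomial.X - Polynomial.C (r i))).coeff j ∈ E := by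
      intro j
      have h1 : (∏ i, (Polynomial.X - Polynomial.C (r i))) =
          (∏ i, (Polynomial.X - Polynomial.C (⟨r i, hrE i⟩ : E))).map (algebraMap E L) := by
        rw [Polynomial.map_prod]
        refine Finset.prod_congr rfl fun i _ => ?_
        rw [Polynomial.map_sub, Polynomial.map_X, Polynomial.map_C]
        rfl
      rw [h1, Polynomial.coeff_map]
      exact SetLike.coe_mem _
    have hlead : (F s).leadingCoeff ≠ 0 := leadingCoeff_ne_zero.2 (hF s).ne_zero
    rw [map_div₀, hcoef i, hcoef j, mul_div_mul_left _ _ ((_root_.map_ne_zero _).2 hlead)]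
    exact E.div_mem (hc i) (hc j)
  have hle : E0 ≤ E.comap (IsScalarTower.toAlgHom k K L) := by
    rw [hE0, IntermediateField.adjoin_le_iff]
    intro x hx
    exact hSE x hx
  have h1 : Algebra.IsAlgebraic E0 L := Algebra.IsAlgebraic.trans E0 K L
  let φ : E0 →+* E :=
    ((algebraMap K L).comp E0.val.toRingHom).codRestrict E (fun x => hle x.2)
  let _ : Algebra E0 E := φ.toAlgebra
  have hst : IsScalarTower E0 E L := IsScalarTower.of_algebraMap_eq fun x => rfl
  exact Algebra.IsAlgebraic.extendScalars (R := E0) (RingHom.injective (algebraMap E0 E))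

end alg

variable {k K : Type} [Field k] [Field K] [Algebra k K]

theorem trans_root [IsAlgClosed k] {L : Type} [Field L] [Algebra k L] [Algebra K L]
    [IsScalarTower k K L] {F : K[X]} (hnc : ∀ y : k, F.eval (algebraMap k K y) ≠ 0) {t : L}
    (ht : aeval t F = 0) : Transcendental k t := by
  intro h
  obtain ⟨y, hy⟩ := const_of_algebraic h
  apply hnc y
  rw [hy, IsScalarTower.algebraMap_apply k K L, aeval_algebraMap_apply] at ht
  exact (map_eq_zero _).1 ht

/-- **Log general type.** -/
theorem core_joint [IsAlgClosed k] [CharZero k] {w : ℕ} (htr : Algebra.trdeg k K = w)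
    {σ : Type} [Fintype σ] [Nonempty σ] (F : σ → K[X]) (hirr : ∀ s, Irreducible (F s))
    (hnc : ∀ s (y : k), (F s).eval (algebraMap k K y) ≠ 0) {q : σ → ℕ} (a : ∀ s, Fin (q s) → k)
    (ha : ∀ s, Function.Injective (a s)) (A : ℕ) (c : ∀ s, Fin (q s) → ℕ)
    (hcA : ∀ s i, c s i ≤ A) (hbound : ∀ s, 2 * A * (F s).natDegree < ∑ i, c s i)
    (halg : Algebra.IsAlgebraic
      (IntermediateField.adjoin k {x : K | ∃ s i j, x = (F s).coeff i / (F s).coeff j}) K)
    (Bd : Place k K → Prop)
    (hram : ∀ P : Place k K, Divisorial w P → ¬ Bd P → ∀ s i, ct P (F s) (a s i) = 0 ∨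
      (A : ℤ) ≤ ((A : ℤ) - c s i) * ct P (F s) (a s i)) :
    LogGeneralType k K w Bd := by
  classical
  have hchK : CharZero K := charZero_of_injective_algebraMap (algebraMap k K).injective
  have hinf : Infinite k := inferInstance
  have hsep : ∀ s, (F s).Separable := fun s => (hirr s).separable
  let Q : K[X] := ∏ s, F s
  have hQ0 : Q ≠ 0 := Finset.prod_ne_zero_iff.2 fun s _ => (hirr s).ne_zero
  let L := Q.SplittingField
  have hnorm : Normal K L := Normal.of_isSplittingField Q
  have hgal : IsGalois K L := ⟨⟩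
  have hqs : (Q.map (algebraMap K L)).Splits := Polynomial.SplittingField.splits Q
  have hs : ∀ s, ((F s).map (algebraMap K L)).Splits := fun s =>
    hqs.of_dvd (Polynomial.map_ne_zero hQ0)
      (Polynomial.map_dvd _ (Finset.dvd_prod_of_mem _ (Finset.mem_univ s)))
  -- the roots
  obtain ⟨S, hS⟩ : ∃ S : Set L, S = {t | ∃ s, aeval t (F s) = 0} := ⟨_, rfl⟩
  have hSfin : S.Finite := by
    have h1 : S = ⋃ s, (F s).rootSet L := by
      rw [hS]
      ext t
      simp only [Set.mem_iUnion, Polynomial.mem_rootSet]
      exact ⟨fun ⟨s, h⟩ => ⟨s, (hirr s).ne_zero, h⟩, fun ⟨s, _, h⟩ => ⟨s, h⟩⟩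
    rw [h1]
    exact Set.finite_iUnion fun s => Polynomial.rootSet_finite _ _
  have hSalg : Algebra.IsAlgebraic (Algebra.adjoin k S) L :=
    alg_roots_joint F hsep hs halg S fun s t h => by rw [hS]; exact ⟨s, h⟩
  have htrL : Algebra.trdeg k L = w := by rw [trdeg_ext (K := K), htr]
  -- the families
  have hex : ∀ s, ∃ t : L, aeval t (F s) = 0 := by
    intro s
    have h1 : ((F s).map (algebraMap K L)).degree ≠ 0 := by
      rw [degree_map]
      exact (Polynomial.degree_pos_of_irreducible (hirr s)).ne'
    obtain ⟨t, ht⟩ := (hs s).exists_eval_eq_zero h1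
    exact ⟨t, by rwa [eval_map_algebraMap] at ht⟩
  choose t ht using hex
  have hbas : ∀ s, ∃ x : Fin w → L, IsTranscendenceBasis k x ∧ (∀ j, x j ∈ S) ∧
      ∃ j, x j = t s := fun s =>
    exists_basis_through htrL S hSalg (by rw [hS]; exact ⟨s, ht s⟩) (trans_root (hnc s) (ht s))
  choose J hJb hJS hJt using hbas
  have hlab : ∀ s j, ∃ s', aeval (J s j) (F s') = 0 := fun s j => by
    have h1 := hJS s j
    rw [hS] at h1
    exact h1
  choose lab0 hlab0 using hlab
  let lab : σ → Fin w → σ := fun s j => if aeval (J s j) (F s) = 0 then s else lab0 s j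
  have hroot : ∀ l j, aeval (J l j) (F (lab l j)) = 0 := by
    intro l j
    simp only [lab]
    split_ifs with h
    · exact h
    · exact hlab0 l j
  have hcov : ∀ s, ∃ l j, lab l j = s := by
    intro s
    obtain ⟨j, hj⟩ := hJt s
    refine ⟨s, j, ?_⟩
    simp only [lab]
    rw [if_pos]
    rw [hj]
    exact ht s
  obtain ⟨s0⟩ := ‹Nonempty σ›
  obtain ⟨l0, j0, -⟩ := hcov s0
  -- the norms
  obtain ⟨d, r, hr⟩ : ∃ (d : ℕ) (r : Fin d → L), Set.range r = S := by
    have := hSfin.fintype
    refine ⟨Fintype.card S, fun i => ((Fintype.equivFin S).symm i : L), ?_⟩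
    ext x
    constructor
    · rintro ⟨i, rfl⟩
      exact ((Fintype.equivFin S).symm i).2
    · intro hx
      exact ⟨Fintype.equivFin S ⟨x, hx⟩, by simp⟩
  obtain ⟨ii, yy, hxb⟩ := exists_norm_basis (K := K) htr r (by rw [hr]; exact hSalg)
  have hrS : ∀ i, ∃ s, aeval (r i) (F s) = 0 := by
    intro i
    have h1 : r i ∈ S := hr ▸ Set.mem_range_self i
    rw [hS] at h1
    exact h1
  set x : Fin w → K := fun j => Algebra.norm K (r (ii j) - algebraMap k L (yy j)) with hx
  have hA : 0 < A := by
    rcases Nat.eq_zero_or_pos A with h | h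
    · exfalso
      have h1 := hbound s0
      have : ∑ i, c s0 i = 0 := Finset.sum_eq_zero fun i _ => by
        have := hcA s0 i
        omega
      omega
    · exact h
  have h0 : ∀ s i, (F s).eval (algebraMap k K (a s i)) ≠ 0 := fun s i => hnc s _
  let ψ : Fin (w + 1) → K := Fin.cases 1 x
  have hψ : ∀ j, ψ j = 1 ∨ ∃ (s : σ) (t : L) (y : k), aeval t (F s) = 0 ∧
      ψ j = Algebra.norm K (t - algebraMap k L y) := by
    intro j
    refine Fin.cases ?_ (fun j => ?_) j
    · exact Or.inl rfl
    · obtain ⟨s, hs⟩ := hrS (ii j)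
      exact Or.inr ⟨s, r (ii j), yy j, hs, rfl⟩
  let ω : Fin (w + 1) → (Fin w → Derivation k K K) → K := fun j =>
    phi F a A c lab J (ψ j)
  refine ⟨htr, A * (Fintype.card σ * Module.finrank K L), ?_, ω, ?_, ?_, ?_, ?_⟩
  · exact Nat.mul_pos hA (Nat.mul_pos Fintype.card_pos Module.finrank_pos)
  · intro j
    exact phi_pluri _ _ _ _ _ _ _
  · intro P _ j D hD
    exact reg_phi F a A c lab J (b := false) D hD hirr hsep hs ha hcA h0
      (fun h => absurd h (by simp)) hroot hbound hcov l0 j0 (ψ j) (hψ j)
  · intro P hP hBd j D hD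
    exact reg_phi F a A c lab J (b := true) D hD hirr hsep hs ha hcA h0
      (fun _ => hram P hP hBd) hroot hbound hcov l0 j0 (ψ j) (hψ j)
  · -- vector fields on which the forms do not vanish
    have hD : ∀ i : Fin w, ∃ D : Derivation k K K, ∀ j, D (x j) = if i = j then 1 else 0 :=
      fun i => exists_der x hxb (fun j => if i = j then 1 else 0)
    choose D hD using hD
    have hE : ∀ i, ∃ E : Derivation k L L, ∀ x : K, E (algebraMap K L x) =
        algebraMap K L (D i x) := fun i => exists_ext (D i)
    choose E hE using hE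
    have hdet : ∀ l, (Matrix.of fun i j => E i (J l j)).det ≠ 0 := by
      intro l hl
      obtain ⟨v, hv0, hv⟩ := Matrix.exists_vecMul_eq_zero_iff.2 hl
      have h1 : (∑ i, v i • E i : Derivation k L L) = 0 := by
        apply der_ext (J l) (hJb l)
        intro j
        rw [sum_smul_der]
        have := congrFun hv j
        exact this
      apply hv0
      funext j
      have h2 : (∑ i, v i • E i : Derivation k L L) (algebraMap K L (x j)) = v j := by
        rw [sum_smul_der, Finset.sum_eq_single j]
        · rw [hE, hD, if_pos rfl, map_one, mul_one]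
        · intro i _ hij
          rw [hE, hD, if_neg hij, map_zero, mul_zero]
        · intro h
          exact absurd (Finset.mem_univ j) h
      rw [h1] at h2
      exact h2.symm
    have hder : ∀ i s (t : L), aeval t (F s) = 0 →
        ev L ((F s).natDegree + 1) (fun j => D i ((F s).coeff j)) t =
          (- aeval t (derivative (F s))) * E i t := by
      intro i s t ht
      have h1 := der_ev (hE i) ((F s).natDegree + 1) (F s).coeff t
      rw [ev_eq_aeval, ht, map_zero] at h1
      have h2 : (∑ j ∈ Finset.range ((F s).natDegree + 1), algebraMap K L ((F s).coeff j) *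
          ((j : L) * t ^ (j - 1))) = aeval t (derivative (F s)) := by
        exact sum_derivative (F s) t
      rw [h2] at h1
      linear_combination -h1
    have hphi : ω 0 D ≠ 0 := by
      change phi F a A c lab J 1 D ≠ 0
      unfold phi
      have hden : den F a A c lab J ≠ 0 := by
        unfold den
        refine Finset.prod_ne_zero_iff.2 fun l _ => Finset.prod_ne_zero_iff.2 fun j _ =>
          mul_ne_zero (pow_ne_zero _ (leadingCoeff_ne_zero.2 (hirr _).ne_zero))
            (Finset.prod_ne_zero_iff.2 fun i _ => pow_ne_zero _ (norm_ne (sub_ne_zero.2 ?_)))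
        intro h
        have h3 := hroot l j
        rw [h, IsScalarTower.algebraMap_apply k K L, aeval_algebraMap_apply] at h3
        exact h0 _ i ((map_eq_zero _).1 h3)
      refine mul_ne_zero (div_ne_zero one_ne_zero hden) (pow_ne_zero _
        (Finset.prod_ne_zero_iff.2 fun l _ => norm_ne ?_))
      have h1 : mat F (lab l) (J l) D = Matrix.of fun i j =>
          (fun j => - aeval (J l j) (derivative (F (lab l j)))) j *
            (Matrix.of fun i j => E i (J l j)) i j := by
        ext i j
        exact hder i (lab l j) (J l j) (hroot l j)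
      rw [h1, Matrix.det_mul_row (fun j => - aeval (J l j) (derivative (F (lab l j))))
        (Matrix.of fun i j => E i (J l j))]
      refine mul_ne_zero (Finset.prod_ne_zero_iff.2 fun j _ => neg_ne_zero.2 ?_) (hdet l)
      exact (hsep _).aeval_derivative_ne_zero (hroot l j)
    refine ⟨D, hphi, ?_⟩
    have h2 : (fun i : Fin w => ω i.succ D / ω 0 D) = x := by
      funext i
      rw [div_eq_iff hphi]
      change phi F a A c lab J (x i) D = x i * phi F a A c lab J 1 D
      unfold phi
      ring
    rw [h2]
    exact hxb.1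

end Pool.Agent.J4.H73.BF
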