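import Pool.Agent.J4.H73.BF.All
import Pool.Agent.J4.H73.BF.Core

/-!
A function field which is algebraic over the coefficients of the factors of ramified square-free
polynomials is of log general type.
-/

set_option autoImplicit false
set_option linter.unusedSectionVars false

open FF Pool.Agent.W603.LV Pool.Agent.W602.GT Polynomial

namespace Pool.Agent.J4.H73.BF

open Pool.Agent.Y190.BV hiding den mat phi mat_mul phi_pluri ord_den ge_phi reg_phi

variable {k K : Type} [Field k] [Field K] [Algebra k K]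

/-- **Log general type.** -/
theorem core_all [IsAlgClosed k] [CharZero k] {w : ℕ} (hw : 1 ≤ w) (htr : Algebra.trdeg k K = w)
    {σ : Type} [Fintype σ] (Δ : Dt k K σ)
    (halg : Algebra.IsAlgebraic
      (IntermediateField.adjoin k {x : K | ∃ s, ∃ p ∈ Δ.τ s, ∃ j, x = p.coeff j}) K)
    (Bd : Place k K → Prop)
    (hram : ∀ P : Place k K, Divisorial w P → ¬ Bd P → Ram Δ P) :
    LogGeneralType k K w Bd := by
  classical
  have hchK : CharZero K := charZero_of_injective_algebraMap (algebraMap k K).injective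
  have hinf : Infinite k := inferInstance
  have hirr : ∀ f : Lb Δ.τ, Irreducible f.2.1 := fun f => (Δ.irr f.1 f.2.1 f.2.2).1
  have hmon : ∀ f : Lb Δ.τ, f.2.1.Monic := fun f => (Δ.irr f.1 f.2.1 f.2.2).2
  have hnc : ∀ (f : Lb Δ.τ) (y : k), f.2.1.eval (algebraMap k K y) ≠ 0 := fun f =>
    Δ.nc f.1 f.2.1 f.2.2
  have hsep : ∀ f : Lb Δ.τ, f.2.1.Separable := fun f => (hirr f).separable
  let Q : K[X] := ∏ f : Lb Δ.τ, f.2.1
  have hQ0 : Q ≠ 0 := Finset.prod_ne_zero_iff.2 fun f _ => (hirr f).ne_zero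
  let L := Q.SplittingField
  have hnorm : Normal K L := Normal.of_isSplittingField Q
  have hgal : IsGalois K L := ⟨⟩
  have hqs : (Q.map (algebraMap K L)).Splits := Polynomial.SplittingField.splits Q
  have hs : ∀ f : Lb Δ.τ, (f.2.1.map (algebraMap K L)).Splits := fun f =>
    hqs.of_dvd (Polynomial.map_ne_zero hQ0)
      (Polynomial.map_dvd _ (Finset.dvd_prod_of_mem _ (Finset.mem_univ f)))
  -- there are labels
  have hne : Nonempty (Lb Δ.τ) := by
    by_contra hcon
    have h1 : {x : K | ∃ s, ∃ p ∈ Δ.τ s, ∃ j, x = p.coeff j} = ∅ := by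
      ext x
      simp only [Set.mem_ofPred_eq, Set.mem_empty_iff_false, iff_false]
      rintro ⟨s, p, hp, -⟩
      exact hcon ⟨⟨s, p, hp⟩⟩
    have h2 : Algebra.IsAlgebraic k (IntermediateField.adjoin k
        {x : K | ∃ s, ∃ p ∈ Δ.τ s, ∃ j, x = p.coeff j}) := by
      rw [IntermediateField.isAlgebraic_adjoin_iff_isAlgebraic, h1]
      exact fun x hx => absurd hx (Set.notMem_empty x)
    have h4 : Algebra.IsAlgebraic k K := Algebra.IsAlgebraic.trans k (IntermediateField.adjoin k
      {x : K | ∃ s, ∃ p ∈ Δ.τ s, ∃ j, x = p.coeff j}) K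
    have h3 : Algebra.trdeg k K = 0 := trdeg_eq_zero
    rw [h3] at htr
    have : w = 0 := by exact_mod_cast htr.symm
    omega
  -- the roots
  let R : Lb Δ.τ → Set L := fun f => {t | aeval t f.2.1 = 0}
  have hSalg : Algebra.IsAlgebraic (Algebra.adjoin k (⋃ f, R f)) L := by
    refine alg_roots_joint (fun f : Lb Δ.τ => f.2.1) hsep hs ?_ _ fun f t h =>
      Set.mem_iUnion.2 ⟨f, h⟩
    have h1 : IntermediateField.adjoin k {x : K | ∃ s, ∃ p ∈ Δ.τ s, ∃ j, x = p.coeff j} ≤
        IntermediateField.adjoin k {x : K | ∃ (s : Lb Δ.τ), ∃ i j, x = s.2.1.coeff i /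
          s.2.1.coeff j} := by
      rw [IntermediateField.adjoin_le_iff]
      rintro _ ⟨s, p, hp, j, rfl⟩
      refine IntermediateField.subset_adjoin k _ ⟨⟨s, p, hp⟩, j, p.natDegree, ?_⟩
      have h2 : p.coeff p.natDegree = 1 := (Δ.irr s p hp).2
      rw [h2, div_one]
    let _ : Algebra (IntermediateField.adjoin k {x : K | ∃ s, ∃ p ∈ Δ.τ s, ∃ j, x = p.coeff j})
        (IntermediateField.adjoin k {x : K | ∃ (s : Lb Δ.τ), ∃ i j, x = s.2.1.coeff i /
          s.2.1.coeff j}) := (IntermediateField.inclusion h1).toRingHom.toAlgebra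
    have hst : IsScalarTower
        (IntermediateField.adjoin k {x : K | ∃ s, ∃ p ∈ Δ.τ s, ∃ j, x = p.coeff j})
        (IntermediateField.adjoin k {x : K | ∃ (s : Lb Δ.τ), ∃ i j, x = s.2.1.coeff i /
          s.2.1.coeff j}) K := IsScalarTower.of_algebraMap_eq fun x => rfl
    exact Algebra.IsAlgebraic.extendScalars
      (R := IntermediateField.adjoin k {x : K | ∃ s, ∃ p ∈ Δ.τ s, ∃ j, x = p.coeff j})
      (RingHom.injective _)
  have htrL : Algebra.trdeg k L = w := by rw [trdeg_ext (K := K), htr]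
  have hRne : ∀ f, (R f).Nonempty := by
    intro f
    have h1 : (f.2.1.map (algebraMap K L)).degree ≠ 0 := by
      rw [degree_map]
      exact (Polynomial.degree_pos_of_irreducible (hirr f)).ne'
    obtain ⟨t, ht⟩ := (hs f).exists_eval_eq_zero h1
    exact ⟨t, by
      change aeval t f.2.1 = 0
      rwa [eval_map_algebraMap] at ht⟩
  have hRtr : ∀ f, ∀ t ∈ R f, Transcendental k t := fun f t ht => trans_root (hnc f) ht
  -- the numbers
  let Dd : ℕ := ∏ f : Lb Δ.τ, f.2.1.natDegree
  have hn1 : ∀ f : Lb Δ.τ, 1 ≤ f.2.1.natDegree := fun f => (hirr f).natDegree_pos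
  have hDd : 0 < Dd := Finset.prod_pos fun f _ => hn1 f
  let gg : Lb Δ.τ → ℕ := fun f => Dd / f.2.1.natDegree
  have hgg : ∀ f, gg f * f.2.1.natDegree = Dd := fun f =>
    Nat.div_mul_cancel (Finset.dvd_prod_of_mem _ (Finset.mem_univ f))
  have hgg1 : ∀ f, 1 ≤ gg f := fun f => by
    rcases Nat.eq_zero_or_pos (gg f) with h | h
    · have h1 := hgg f
      rw [h, zero_mul] at h1
      omega
    · exact h
  have hggD : ∀ f, gg f ≤ Dd := fun f => Nat.div_le_self _ _
  obtain ⟨κ, hκdef⟩ : ∃ κ, κ = Fintype.card (Lb Δ.τ) * Dd := ⟨_, rfl⟩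
  obtain ⟨M, hMdef⟩ : ∃ M, M = ∑ s, (∏ p ∈ Δ.τ s, p).natDegree := ⟨_, rfl⟩
  have hM : ∀ s, (∏ p ∈ Δ.τ s, p).natDegree ≤ M := fun s => by
    rw [hMdef]
    exact Finset.single_le_sum (f := fun s => (∏ p ∈ Δ.τ s, p).natDegree)
      (fun _ _ => Nat.zero_le _) (Finset.mem_univ s)
  obtain ⟨T, J, lb, lay, NN, hT, hJb, hJR, hNN, hN0, hκ, hlay⟩ := exists_layers htrL R hRne hRtr
    hSalg gg hgg1 Dd hggD (Δ.A * M * κ + Dd + κ * (2 * Δ.A + 1))
  rw [← hκdef] at hκ
  have hN1 : ∀ f, Δ.A * M * κ + Dd ≤ NN f := fun f => by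
    have := hN0 f
    omega
  have hN2 : ∀ f, κ * (2 * Δ.A + 1) ≤ NN f := fun f => by
    have := hN0 f
    omega
  -- the regularity
  have hreg : ∀ (P : Place k K) (b : Bool) (D : Fin w → Derivation k K K), (∀ i, DKind b P (D i)) →
      (b = true → Ram Δ P) → ∀ (f0 : Lb Δ.τ) (t0 : L), aeval t0 f0.2.1 = 0 → ∀ ψ : K,
      (ψ = 1 ∨ ∃ y : k, ψ = Algebra.norm K (t0 - algebraMap k L y)) →
      P.Reg (phi (Fb lay) (fun f => Δ.a f.1) Δ.A (fun f => Δ.c f.1) lb J ψ D) := by
    intro P b D hD hR f0 t0 ht0 ψ hψ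
    obtain ⟨S, T, _, hT, hsum⟩ := exists_places_over (K' := L) P
    have hSne : S.Nonempty := by
      by_contra hcon
      rw [Finset.not_nonempty_iff_eq_empty] at hcon
      rw [hcon, Finset.sum_empty] at hsum
      have : 0 < Module.finrank K L := Module.finrank_pos
      omega
    obtain ⟨W, hW⟩ := hSne
    obtain ⟨e, hWP, _⟩ := hT W hW
    rw [← hWP.reg]
    refine ge_phi_all Δ lay J lb hJR NN gg hDd hgg hNN hWP b hκ hM hN1 hN2 hR hsep hs
      (fun l f t ht => hlay l f t ht) f0 t0 ht0 D hD ψ ?_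
    rcases hψ with rfl | ⟨y, rfl⟩
    · rw [map_one]
      have : 0 ≤ ∑ g : L ≃ₐ[K] L, tau (W.comp (rs g)) t0 :=
        Finset.sum_nonneg fun g _ => tau_nonneg _ _
      exact Ge.one.mono (by omega)
    · rw [← Finset.sum_neg_distrib]
      exact ge_norm _ fun g => ge_sub_const _ t0 y
  -- the norms
  obtain ⟨S, hS⟩ : ∃ S : Set L, S = ⋃ f, R f := ⟨_, rfl⟩
  have hSfin : S.Finite := by
    rw [hS]
    refine Set.finite_iUnion fun f => ?_
    have h1 : R f = f.2.1.rootSet L := by
      ext t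
      simp only [R, Set.mem_ofPred_eq, Polynomial.mem_rootSet]
      exact ⟨fun h => ⟨(hirr f).ne_zero, h⟩, fun h => h.2⟩
    rw [h1]
    exact Polynomial.rootSet_finite _ _
  obtain ⟨d, r, hr⟩ : ∃ (d : ℕ) (r : Fin d → L), Set.range r = S := by
    have := hSfin.fintype
    refine ⟨Fintype.card S, fun i => ((Fintype.equivFin S).symm i : L), ?_⟩
    ext x
    constructor
    · rintro ⟨i, rfl⟩
      exact ((Fintype.equivFin S).symm i).2
    · intro hx
      exact ⟨Fintype.equivFin S ⟨x, hx⟩, by simp⟩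
  obtain ⟨ii, yy, hxb⟩ := exists_norm_basis (K := K) htr r (by rw [hr, hS]; exact hSalg)
  have hrS : ∀ i, ∃ f : Lb Δ.τ, aeval (r i) f.2.1 = 0 := by
    intro i
    have h1 : r i ∈ S := hr ▸ Set.mem_range_self i
    rw [hS] at h1
    obtain ⟨f, hf⟩ := Set.mem_iUnion.1 h1
    exact ⟨f, hf⟩
  set x : Fin w → K := fun j => Algebra.norm K (r (ii j) - algebraMap k L (yy j)) with hx
  obtain ⟨f0⟩ := hne
  obtain ⟨t0, ht0⟩ := hRne f0
  have hA : 0 < Δ.A := by
    rcases Nat.eq_zero_or_pos Δ.A with h | h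
    · exfalso
      have h1 := Δ.large f0.1
      have : ∑ i, Δ.c f0.1 i = 0 := Finset.sum_eq_zero fun i _ => by
        have := Δ.cA f0.1 i
        omega
      omega
    · exact h
  let ψ : Fin (w + 1) → K := Fin.cases 1 x
  have hψ : ∀ j, ∃ (f : Lb Δ.τ) (t : L), aeval t f.2.1 = 0 ∧
      (ψ j = 1 ∨ ∃ y : k, ψ j = Algebra.norm K (t - algebraMap k L y)) := by
    intro j
    refine Fin.cases ?_ (fun j => ?_) j
    · exact ⟨f0, t0, ht0, Or.inl rfl⟩
    · obtain ⟨f, hf⟩ := hrS (ii j)
      exact ⟨f, r (ii j), hf, Or.inr ⟨yy j, rfl⟩⟩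
  let ω : Fin (w + 1) → (Fin w → Derivation k K K) → K := fun j =>
    phi (Fb lay) (fun f => Δ.a f.1) Δ.A (fun f => Δ.c f.1) lb J (ψ j)
  refine ⟨htr, Δ.A * (Fintype.card (Fin T) * Module.finrank K L), ?_, ω, ?_, ?_, ?_, ?_⟩
  · rw [Fintype.card_fin]
    exact Nat.mul_pos hA (Nat.mul_pos hT Module.finrank_pos)
  · intro j
    exact phi_pluri _ _ _ _ _ _ _
  · intro P _ j D hD
    obtain ⟨f, t, ht, hψj⟩ := hψ j
    exact hreg P false D hD (fun h => absurd h (by simp)) f t ht (ψ j) hψj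
  · intro P hP hBd j D hD
    obtain ⟨f, t, ht, hψj⟩ := hψ j
    exact hreg P true D hD (fun _ => hram P hP hBd) f t ht (ψ j) hψj
  · -- vector fields on which the forms do not vanish
    have hD : ∀ i : Fin w, ∃ D : Derivation k K K, ∀ j, D (x j) = if i = j then 1 else 0 :=
      fun i => exists_der x hxb (fun j => if i = j then 1 else 0)
    choose D hD using hD
    have hE : ∀ i, ∃ E : Derivation k L L, ∀ x : K, E (algebraMap K L x) =
        algebraMap K L (D i x) := fun i => exists_ext (D i)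
    choose E hE using hE
    have hdet : ∀ l, (Matrix.of fun i j => E i (J l j)).det ≠ 0 := by
      intro l hl
      obtain ⟨v, hv0, hv⟩ := Matrix.exists_vecMul_eq_zero_iff.2 hl
      have h1 : (∑ i, v i • E i : Derivation k L L) = 0 := by
        apply der_ext (J l) (hJb l)
        intro j
        rw [sum_smul_der]
        have := congrFun hv j
        exact this
      apply hv0
      funext j
      have h2 : (∑ i, v i • E i : Derivation k L L) (algebraMap K L (x j)) = v j := by
        rw [sum_smul_der, Finset.sum_eq_single j]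
        · rw [hE, hD, if_pos rfl, map_one, mul_one]
        · intro i _ hij
          rw [hE, hD, if_neg hij, map_zero, mul_zero]
        · intro h
          exact absurd (Finset.mem_univ j) h
      rw [h1] at h2
      exact h2.symm
    have hFsep : ∀ f : Lb Δ.τ, (Fb lay f).Separable := by
      intro f
      unfold Fb
      refine separable_prod' (fun x _ y _ hxy => ?_) fun x _ => hsep ⟨f.1, x⟩
      exact coprime_of_ne (Δ.irr f.1 x.1 x.2).1 (Δ.irr f.1 y.1 y.2).1 (Δ.irr f.1 x.1 x.2).2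
        (Δ.irr f.1 y.1 y.2).2 fun h => hxy (Subtype.ext h)
    have hFroot : ∀ l j, aeval (J l j) (Fb lay (lb l j)) = 0 := by
      intro l j
      unfold Fb
      rw [map_prod]
      exact Finset.prod_eq_zero (i := (lb l j).2)
        (Finset.mem_filter.2 ⟨Finset.mem_univ _, rfl⟩) (hJR l j)
    have hder : ∀ i (f : Lb Δ.τ) (t : L), aeval t (Fb lay f) = 0 →
        ev L ((Fb lay f).natDegree + 1) (fun j => D i ((Fb lay f).coeff j)) t =
          (- aeval t (derivative (Fb lay f))) * E i t := by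
      intro i f t ht
      have h1 := der_ev (hE i) ((Fb lay f).natDegree + 1) (Fb lay f).coeff t
      rw [ev_eq_aeval, ht, map_zero] at h1
      have h2 : (∑ j ∈ Finset.range ((Fb lay f).natDegree + 1),
          algebraMap K L ((Fb lay f).coeff j) *
          ((j : L) * t ^ (j - 1))) = aeval t (derivative (Fb lay f)) := by
        exact sum_derivative (Fb lay f) t
      rw [h2] at h1
      linear_combination -h1
    have hphi : ω 0 D ≠ 0 := by
      change phi (Fb lay) (fun f => Δ.a f.1) Δ.A (fun f => Δ.c f.1) lb J 1 D ≠ 0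
      unfold phi
      have hden : den (Fb lay) (fun f => Δ.a f.1) Δ.A (fun f => Δ.c f.1) lb J ≠ 0 := by
        unfold den
        refine Finset.prod_ne_zero_iff.2 fun l _ => Finset.prod_ne_zero_iff.2 fun j _ =>
          mul_ne_zero (pow_ne_zero _ (leadingCoeff_ne_zero.2 (fb_ne Δ lay _)))
            (Finset.prod_ne_zero_iff.2 fun i _ => pow_ne_zero _ (norm_ne (sub_ne_zero.2 ?_)))
        exact root_ne (fb_eval Δ lay _ _) (hFroot l j)
      refine mul_ne_zero (div_ne_zero one_ne_zero hden) (pow_ne_zero _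
        (Finset.prod_ne_zero_iff.2 fun l _ => norm_ne ?_))
      have h1 : mat (Fb lay) (lb l) (J l) D = Matrix.of fun i j =>
          (fun j => - aeval (J l j) (derivative (Fb lay (lb l j)))) j *
            (Matrix.of fun i j => E i (J l j)) i j := by
        ext i j
        exact hder i (lb l j) (J l j) (hFroot l j)
      rw [h1, Matrix.det_mul_row (fun j => - aeval (J l j) (derivative (Fb lay (lb l j))))
        (Matrix.of fun i j => E i (J l j))]
      refine mul_ne_zero (Finset.prod_ne_zero_iff.2 fun j _ => neg_ne_zero.2 ?_) (hdet l)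
      exact (hFsep _).aeval_derivative_ne_zero (hFroot l j)
    refine ⟨D, hphi, ?_⟩
    have h2 : (fun i : Fin w => ω i.succ D / ω 0 D) = x := by
      funext i
      rw [div_eq_iff hphi]
      change phi (Fb lay) (fun f => Δ.a f.1) Δ.A (fun f => Δ.c f.1) lb J (x i) D =
        x i * phi (Fb lay) (fun f => Δ.a f.1) Δ.A (fun f => Δ.c f.1) lb J 1 D
      unfold phi
      ring
    rw [h2]
    exact hxb.1

end Pool.Agent.J4.H73.BF
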