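import Pool.Agent.J4.H73.BF.Poly
import Pool.Agent.Y216.Point

/-!
Polynomials over the function field of an open variety with ramified values: the definitions.
-/

set_option autoImplicit false

open FF MvPolynomial

namespace Pool.Agent.J4.H73.BF

open Pool.Agent.W603.LV (canDeg)
open Pool.Agent.W603.PV (pord pht)
open Pool.Agent.W602.GT (IsForm LogGeneralType)
open Pool.Agent.Y216 (OnVar)

section polynomials

variable {k : Type} [Field k] {E : Type} [Field E] [Algebra k E] {n N : ℕ}

/-- the polynomial `∑ l, h l * T ^ l` -/
noncomputable def poly (h : Fin (n + 1) → E) : Polynomial E :=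
  ∑ l, Polynomial.C (h l) * Polynomial.X ^ (l : ℕ)

/-- the value of the polynomial `∑ l, h l * T ^ l` at the constant `c` -/
def value (h : Fin (n + 1) → E) (c : k) : E := ∑ l, h l * algebraMap k E c ^ (l : ℕ)

/-- The contact order at the place `P` of the polynomial with the coefficients `h` with the
hyperplane of the polynomials which vanish at `c`: the order of the value at `c` minus the minimal
order of the coefficients. -/
noncomputable def contact (P : Place k E) (h : Fin (n + 1) → E) (c : k) : ℤ :=
  P.ord (value h c) - pord P h

/-- The polynomial with the coefficients `h` has, outside the set `S` of places, contact of order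
zero or at least `m i` with the hyperplane of `a i`, for all `i` such that it does not vanish at
`a i`; here `m i = 0` stands for infinity (no contact at all). -/
def RamifiedOff {q : ℕ} (a : Fin q → k) (m : Fin q → ℕ) (S : Set (Place k E))
    (h : Fin (n + 1) → E) : Prop :=
  ∀ P ∉ S, ∀ i, value h (a i) ≠ 0 →
    contact P h (a i) = 0 ∨ (m i ≠ 0 ∧ (m i : ℤ) ≤ contact P h (a i))

end polynomials

section varieties

variable {k : Type} [Field k] {L : Type} [Field L] [Algebra k L] {N : ℕ}

/-- The places of `E` at which the point `f` of the projective variety is not in the complement of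
the hypersurface `B = 0` of degree `b`. -/
def boundary (B : MvPolynomial (Fin (N + 1)) k) (b : ℕ) {E : Type} [Field E] [Algebra k E]
    (f : Fin (N + 1) → E) : Set (Place k E) :=
  {P | b * pord P f < P.ord (aeval f B)}

/-- The smooth projective curve with the function field `E`, without the points in the finite set
`S`, is mapped by `f` to the complement `M°` of `B = 0` in the projective variety with generic
point `u`. -/
def CurveTo (u : Fin (N + 1) → L) (B : MvPolynomial (Fin (N + 1)) k) (b : ℕ) {E : Type} [Field E]
    [Algebra k E] (S : Finset (Place k E)) (f : Fin (N + 1) → E) : Prop :=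
  OnVar k u f ∧ aeval f B ≠ 0 ∧ boundary B b f ⊆ S

/-- The degrees of the morphisms from affine curves to `M°` are bounded linearly, outside of a
proper closed subset `G = 0`: `deg f ≤ A max (2 g - 2 + s, 0)` for smooth projective curves of genus
`g` without `s` points. -/
def LinearBound (u : Fin (N + 1) → L) (B : MvPolynomial (Fin (N + 1)) k) (b : ℕ) : Prop :=
  ∃ G : MvPolynomial (Fin (N + 1)) k, IsForm G ∧ aeval u G ≠ 0 ∧ ∃ A : ℕ,
    ∀ (E : Type) [Field E] [Algebra k E] [IsFF k E] (S : Finset (Place k E))
      (f : Fin (N + 1) → E), CurveTo u B b S f → aeval f G ≠ 0 →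
      pht k f ≤ A * max (canDeg k E + S.card) 0

/-- `M°` is of log general type; `w` is its dimension. The boundary consists of the prime divisors
(on all models) with centre in `B = 0`. -/
def LogGT (u : Fin (N + 1) → L) (B : MvPolynomial (Fin (N + 1)) k) (b w : ℕ) : Prop :=
  LogGeneralType k L w fun P : Place k L => P ∈ boundary B b u

/-- An *orbifold polynomial* on the complement `M°` of `B = 0`, `deg B = b`, in the projective
variety `M` with function field `L` and generic point `u`: a nonzero polynomial
`H = ∑ l, φ l * T ^ l` of degree at most `n`, whose coefficients are forms `φ l` of the same degree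
`δ` on `M` (so `H` is a rational map from `M` to the space `P^n` of the polynomials of degree at
most `n`), such that

* the roots of `H` which are not constants have multiplicity at most `r`;
* for the distinct constants `a i`, `i < q`, the rational map is ramified on `M°` to the order `m i`
  over the hyperplane of the polynomials which vanish at `a i` (`m i = 0` stands for infinity): for
  all points `f` of `M`, outside some proper closed subset `G = 0` of `M`, over any field `E`, and
  all discrete valuations of `E` with centre in `M°`, the contact order of `f` with this hyperplane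
  is zero or at least `m i`;
* `2 n < ∑ i, (1 - 1 / ⌈m i / r⌉)`. -/
structure OrbifoldPolynomial (u : Fin (N + 1) → L) (B : MvPolynomial (Fin (N + 1)) k) (b : ℕ) where
  /-- the bound for the degree -/
  n : ℕ
  /-- the degree of the forms -/
  δ : ℕ
  /-- the coefficients -/
  φ : Fin (n + 1) → MvPolynomial (Fin (N + 1)) k
  form : ∀ l, (φ l).IsHomogeneous δ
  nonzero : ∃ l, aeval u (φ l) ≠ 0
  /-- the bound for the multiplicities of the roots -/
  r : ℕ
  r_pos : 1 ≤ r
  roots : RootsLE k r (poly fun l => aeval u (φ l))
  /-- the number of the nodes -/
  q : ℕ
  /-- the nodes -/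
  a : Fin q → k
  distinct : Function.Injective a
  /-- the orders of ramification; `0` for infinity -/
  m : Fin q → ℕ
  large : 2 * (n : ℝ) < ∑ i, weight r (m i)
  ramified : ∃ G : MvPolynomial (Fin (N + 1)) k, IsForm G ∧ aeval u G ≠ 0 ∧
    ∀ (E : Type) [Field E] [Algebra k E] (f : Fin (N + 1) → E), OnVar k u f → aeval f G ≠ 0 →
      aeval f B ≠ 0 → RamifiedOff a m (boundary B b f) fun l => aeval f (φ l)

/-- The values of an orbifold polynomial: the ratios of its coefficients. -/
def OrbifoldPolynomial.values {u : Fin (N + 1) → L} {B : MvPolynomial (Fin (N + 1)) k} {b : ℕ}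
    (H : OrbifoldPolynomial u B b) : Set L :=
  {t | ∃ i j, t = aeval u (H.φ i) / aeval u (H.φ j)}

end varieties

end Pool.Agent.J4.H73.BF
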