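import Pool.Agent.Y190.BV.Cont

/-!
Functions from a subfield on which a place is not trivial: if there are at least as many functions
as the transcendence degree of the subfield, their logarithmic derivatives are dependent in the
residue field.
-/

set_option autoImplicit false
set_option linter.unusedSectionVars false

open FF Pool.Agent.W603.LV Pool.Agent.W602.GT MvPolynomial

namespace Pool.Agent.J4.H73.BF

open Pool.Agent.Y190.BV

section chain

variable {k K I : Type} [Field k] [Field K] [Algebra k K] [Fintype I]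

/-- the chain rule -/
theorem chain_rule (D : Derivation k K K) (h : I → K) (Q : MvPolynomial I k) :
    D (aeval h Q) = ∑ j, aeval h (pderiv j Q) * D (h j) := by
  classical
  induction Q using MvPolynomial.induction_on with
  | C a =>
    rw [aeval_C, D.map_algebraMap]
    exact (Finset.sum_eq_zero fun j _ => by rw [pderiv_C, map_zero, zero_mul]).symm
  | add p q hp hq =>
    rw [map_add, map_add, hp, hq, ← Finset.sum_add_distrib]
    refine Finset.sum_congr rfl fun j _ => ?_
    rw [map_add, map_add]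
    ring
  | mul_X p i hp =>
    rw [map_mul, aeval_X, D.leibniz, hp]
    have h1 : ∀ j, aeval h (pderiv j (p * X i)) * D (h j) =
        h i * (aeval h (pderiv j p) * D (h j)) + (if j = i then aeval h p * D (h i) else 0) := by
      intro j
      rw [pderiv_mul, pderiv_X, map_add, map_mul, map_mul, aeval_X]
      by_cases hji : j = i
      · subst hji
        rw [if_pos rfl, Pi.single_eq_same, map_one]
        ring
      · rw [if_neg hji, Pi.single_eq_of_ne' hji, map_zero]
        ring
    rw [Finset.sum_congr rfl fun j _ => h1 j, Finset.sum_add_distrib, ← Finset.mul_sum,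
      Finset.sum_ite_eq' Finset.univ i, if_pos (Finset.mem_univ i)]
    simp only [smul_eq_mul]
    ring

theorem totalDegree_pderiv {j : I} {Q : MvPolynomial I k} (h : pderiv j Q ≠ 0) :
    (pderiv j Q).totalDegree < Q.totalDegree := by
  classical
  obtain ⟨m, hm⟩ := MvPolynomial.ne_zero_iff.1 h
  have key : ∀ m ∈ (pderiv j Q).support, (m.sum fun _ e => e) + 1 ≤ Q.totalDegree := by
    intro m hm
    rw [MvPolynomial.mem_support_iff, coeff_pderiv] at hm
    have h1 : Q.coeff (m + Finsupp.single j 1) ≠ 0 := by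
      intro h0
      apply hm
      rw [h0]
      simp
    have h2 := le_totalDegree (MvPolynomial.mem_support_iff.2 h1)
    rw [Finsupp.sum_add_index' (fun _ => rfl) (fun _ _ _ => rfl), Finsupp.sum_single_index rfl] at h2
    exact h2
  have h2 : 0 < Q.totalDegree := by
    have := key m (MvPolynomial.mem_support_iff.2 hm)
    omega
  rw [MvPolynomial.totalDegree, Finset.sup_lt_iff h2]
  intro m hm
  have := key m hm
  omega

end chain

variable {k K : Type} [Field k] [Field K] [Algebra k K]

/-- **The dependency of the logarithmic derivatives.** -/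
theorem dependency [CharZero k] (P : Place k K) (K' : IntermediateField k K)
    (hnt : ∃ x ∈ K', P.ord x ≠ 0) {I : Type} [Fintype I]
    (hI : Algebra.trdeg k K' ≤ (Fintype.card I : ℕ)) (h : I → K) (hK : ∀ j, h j ∈ K')
    (hO : ∀ j, Ge P 0 (h j)) :
    ∃ (c : I → K) (j1 : I), (∀ j, Ge P 0 (c j)) ∧ c j1 ≠ 0 ∧ P.ord (c j1) = 0 ∧
      (∀ D : Derivation k K K, DKind true P D → Ge P 0 (∑ j, c j * D (h j))) ∧
      ∀ D : Derivation k K K, DKind false P D → Ge P 1 (∑ j, c j * D (h j)) := by
  classical
  have hint : ∀ Q : MvPolynomial I k, Ge P 0 (aeval h Q) := by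
    intro Q
    rw [aeval_def, eval₂_eq]
    refine Ge.sum _ _ fun m _ => ?_
    have h1 : Ge P (∑ i ∈ m.support, (0 : ℤ)) (∏ i ∈ m.support, h i ^ m i) :=
      Ge.prod _ _ _ fun i _ => by
        have := (hO i).pow (m i)
        rwa [mul_zero] at this
    have h2 := (Ge.const (P := P) (coeff m Q)).mul h1
    simpa using h2
  -- the residues are dependent
  have hex : ∃ Q : MvPolynomial I k, Q ≠ 0 ∧ Ge P 1 (aeval h Q) := by
    by_contra hcon
    push Not at hcon
    let h' : I → K' := fun j => ⟨h j, hK j⟩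
    have hh' : ∀ Q : MvPolynomial I k, ((aeval h' Q : K') : K) = aeval h Q := by
      intro Q
      have h1 : ((aeval h' Q : K') : K) = K'.val (aeval h' Q) := rfl
      rw [h1, ← AlgHom.comp_apply, comp_aeval]
      rfl
    have hai : AlgebraicIndependent k h' := by
      rw [algebraicIndependent_iff]
      intro Q hQ
      by_contra hQ0
      apply hcon Q hQ0
      rw [← hh', hQ]
      exact Or.inl rfl
    have hbas : IsTranscendenceBasis k h' := by
      apply hai.isTranscendenceBasis_of_trdeg_le_of_finite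
      rw [Cardinal.mk_fintype]
      exact hI
    obtain ⟨x, hxK, hx⟩ := hnt
    have hx0 : x ≠ 0 := by
      rintro rfl
      exact hx P.ord_zero
    obtain ⟨y, hyK, hy⟩ : ∃ y ∈ K', 0 < P.ord y := by
      rcases lt_or_gt_of_ne hx with h1 | h1
      · exact ⟨x⁻¹, K'.inv_mem hxK, by rw [P.ord_inv]; omega⟩
      · exact ⟨x, hxK, h1⟩
    have hy0 : y ≠ 0 := by
      rintro rfl
      rw [P.ord_zero] at hy
      exact lt_irrefl 0 hy
    have halg := hbas.isAlgebraic.isAlgebraic (⟨y, hyK⟩ : K')
    obtain ⟨q, hq0, hq⟩ := halg.exists_nonzero_coeff_and_aeval_eq_zero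
      (mem_nonZeroDivisors_of_ne_zero (fun h => hy0 (congrArg Subtype.val h)))
    have hco : ∀ r : Algebra.adjoin k (Set.range h'), r ≠ 0 → Ge P 0 (((r : K') : K)) ∧
        ¬ Ge P 1 (((r : K') : K)) := by
      rintro ⟨r, hr⟩ hr0
      have hr' := hr
      rw [Algebra.adjoin_range_eq_range_aeval] at hr'
      obtain ⟨Q, hQ⟩ := hr'
      have hQ' : (aeval h' Q : K') = r := hQ
      change Ge P 0 ((r : K') : K) ∧ ¬ Ge P 1 ((r : K') : K)
      rw [← hQ', hh']
      refine ⟨hint Q, hcon Q ?_⟩
      rintro rfl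
      apply hr0
      apply Subtype.ext
      change r = 0
      rw [← hQ', map_zero]
    have hco0 : ∀ r : Algebra.adjoin k (Set.range h'), Ge P 0 (((r : K') : K)) := by
      intro r
      by_cases hr : r = 0
      · rw [hr]
        exact Or.inl rfl
      · exact (hco r hr).1
    rw [Polynomial.aeval_eq_sum_range, Finset.sum_range_succ'] at hq
    have h2 := congrArg (fun z : K' => (z : K)) hq
    simp only [Algebra.smul_def] at h2
    push_cast at h2
    rw [pow_zero, mul_one] at h2
    apply (hco _ hq0).2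
    have h3 : (((q.coeff 0 : Algebra.adjoin k (Set.range h')) : K') : K) =
        - ∑ i ∈ Finset.range q.natDegree,
          (((q.coeff (i + 1) : Algebra.adjoin k (Set.range h')) : K') : K) * y ^ (i + 1) := by
      have h4 : ∑ i ∈ Finset.range q.natDegree,
          (((q.coeff (i + 1) : Algebra.adjoin k (Set.range h')) : K') : K) * y ^ (i + 1) +
          (((q.coeff 0 : Algebra.adjoin k (Set.range h')) : K') : K) = 0 := h2
      linear_combination h4
    rw [h3]
    refine Ge.neg (Ge.sum _ _ fun i _ => ?_)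
    have h5 : Ge P 1 y := Or.inr (by omega)
    refine ((hco0 _).mul (h5.pow (i + 1))).mono ?_
    push_cast
    omega
  -- a minimal relation
  obtain ⟨d, hd⟩ : ∃ d, d = sInf {n | ∃ Q : MvPolynomial I k, Q ≠ 0 ∧ Ge P 1 (aeval h Q) ∧
    Q.totalDegree = n} := ⟨_, rfl⟩
  have hne : {n | ∃ Q : MvPolynomial I k, Q ≠ 0 ∧ Ge P 1 (aeval h Q) ∧
      Q.totalDegree = n}.Nonempty := by
    obtain ⟨Q, h1, h2⟩ := hex
    exact ⟨_, Q, h1, h2, rfl⟩
  obtain ⟨Q, hQ0, hQ1, hQd⟩ := Nat.sInf_mem hne
  rw [← hd] at hQd
  have hmin : ∀ R : MvPolynomial I k, R ≠ 0 → R.totalDegree < d → ¬ Ge P 1 (aeval h R) := by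
    intro R hR hlt h1
    have := Nat.sInf_le (s := {n | ∃ Q : MvPolynomial I k, Q ≠ 0 ∧ Ge P 1 (aeval h Q) ∧
      Q.totalDegree = n}) ⟨R, hR, h1, rfl⟩
    omega
  have hpd : ∃ j, pderiv j Q ≠ 0 := by
    by_contra hcon
    push Not at hcon
    have h1 : ∀ m, m ≠ 0 → Q.coeff m = 0 := by
      intro m hm
      obtain ⟨j, hj⟩ := Finsupp.ne_iff.1 hm
      have h2 : m = (m - Finsupp.single j 1) + Finsupp.single j 1 := by
        rw [tsub_add_cancel_of_le]
        rw [Finsupp.single_le_iff]
        have : m j ≠ 0 := hj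
        omega
      have h3 := coeff_pderiv (i := j) Q (m - Finsupp.single j 1)
      rw [hcon j, ← h2, coeff_zero] at h3
      have h4 : ∀ n : ℕ, ((n : k) + 1) ≠ 0 := fun n => by
        exact_mod_cast Nat.succ_ne_zero n
      exact (mul_eq_zero.1 h3.symm).resolve_right (h4 _)
    have h2 : Q = C (Q.coeff 0) := by
      ext m
      rw [coeff_C]
      by_cases hm : 0 = m
      · rw [if_pos hm, ← hm]
      · rw [if_neg hm, h1 m (Ne.symm hm)]
    rw [h2, aeval_C] at hQ1
    have h3 : Q.coeff 0 ≠ 0 := by
      intro h0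
      apply hQ0
      rw [h2, h0, C_0]
    have h4 := hQ1.resolve_left ((_root_.map_ne_zero _).2 h3)
    rw [P.ord_const h3] at h4
    omega
  obtain ⟨j1, hj1⟩ := hpd
  have hj1' := hmin _ hj1 (hQd ▸ totalDegree_pderiv hj1)
  have hj10 : aeval h (pderiv j1 Q) ≠ 0 := fun h0 => hj1' (Or.inl h0)
  refine ⟨fun j => aeval h (pderiv j Q), j1, fun j => hint _, hj10, ?_, fun D hD => ?_,
    fun D hD => ?_⟩
  · have h1 := (hint (pderiv j1 Q)).resolve_left hj10
    change P.ord (aeval h (pderiv j1 Q)) = 0
    by_contra hcon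
    exact hj1' (Or.inr (by omega))
  · rw [← chain_rule D h Q]
    exact hD.int (hint Q)
  · rw [← chain_rule D h Q]
    have h1 := hD.drop hQ1
    simpa using h1

end Pool.Agent.J4.H73.BF
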