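import Pool.Agent.J4.H73.BF.Entry
import Pool.Agent.J4.H73.BF.Dep

/-!
The order of the determinant of the values of the derived polynomials at a tuple of roots.
-/

set_option autoImplicit false
set_option linter.unusedSectionVars false

open FF Pool.Agent.W603.LV Pool.Agent.W602.GT Polynomial

namespace Pool.Agent.J4.H73.BF

open Pool.Agent.Y190.BV hiding den mat phi mat_mul phi_pluri ord_den ge_phi reg_phi

variable {k K L : Type} [Field k] [Field K] [Field L] [Algebra k K] [Algebra k L] [Algebra K L]
  [IsScalarTower k K L]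

/-- a criterion for logarithmic derivations -/
theorem log_of {P : Place k K} {D : Derivation k K K} (hD : DKind true P D) {p : K} (hp0 : p ≠ 0)
    (hp : P.ord p = 1) (h : Ge P 1 (D p)) : DKind false P D := by
  intro f
  change Ge P 0 (D f / f)
  by_cases hf : f = 0
  · rw [hf, div_zero]
    exact Ge.zero
  obtain ⟨n, hn⟩ : ∃ n, n = P.ord f := ⟨_, rfl⟩
  have hpn0 : p ^ n ≠ 0 := zpow_ne_zero _ hp0
  have hpn : P.ord (p ^ n) = n := by rw [P.ord_zpow, hp, mul_one]
  obtain ⟨y, hy⟩ : ∃ y, y = f / p ^ n := ⟨_, rfl⟩
  have hfy : f = p ^ n * y := by rw [hy]; field_simp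
  have hy0 : y ≠ 0 := by
    intro h0
    apply hf
    rw [hfy, h0, mul_zero]
  have hyo : P.ord y = 0 := by
    have h1 := P.ord_mul hpn0 hy0
    rw [← hfy, hpn, ← hn] at h1
    omega
  have h1 : D f / f = D y / y + n * (D p / p) := by
    rw [hfy, D.leibniz, Derivation.leibniz_zpow]
    simp only [smul_eq_mul, zsmul_eq_mul]
    have h2 : p ^ (n - 1) = p ^ n / p := by rw [zpow_sub₀ hp0, zpow_one]
    rw [h2]
    field_simp
  rw [h1]
  have h2 : Ge P 0 (D y) := hD y (Or.inr hyo.ge)
  have h3 := ge_div hy0 h2
  rw [hyo, sub_zero] at h3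
  have h4 := ge_div hp0 h
  rw [hp, sub_self] at h4
  have h5 := (Ge.intCast (P := P) n).mul h4
  rw [zero_add] at h5
  exact h3.add h5

theorem en_smul (c : K) (D : Derivation k K K) (F : K[X]) (x : L) :
    En (c • D) F x = algebraMap K L c * En D F x := by
  unfold En
  rw [← ev_smul]
  rfl

theorem en_sub (D D' : Derivation k K K) (F : K[X]) (x : L) :
    En (D - D') F x = En D F x - En D' F x := by
  unfold En ev
  rw [← Finset.sum_sub_distrib]
  refine Finset.sum_congr rfl fun m _ => ?_
  beta_reduce
  rw [Derivation.sub_apply, map_sub, sub_mul]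

section det

variable {V : Place k L} {P : Place k K} {e : ℕ} {w : ℕ} (Fc : Fin w → K[X]) (x : Fin w → L)
  {qc : Fin w → ℕ} (ac : ∀ j, Fin (qc j) → k)

/-- the basic bound for the entries -/
noncomputable def bs (V : Place k L) (P : Place k K) (e : ℕ) (j : Fin w) : ℤ :=
  e * cnt P (Fc j) - (Fc j).natDegree * tau V (x j)

theorem sum_trick {w : ℕ} (j1 j2 : Fin w) (e : ℤ) :
    ∑ j : Fin w, ((if j = j1 then e else 0) - (if j = j2 then e else 0)) = 0 := by
  rw [Finset.sum_sub_distrib, Finset.sum_ite_eq' Finset.univ j1, Finset.sum_ite_eq' Finset.univ j2,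
    if_pos (Finset.mem_univ _), if_pos (Finset.mem_univ _), sub_self]

variable (hVP : Over V P e) (hF : ∀ j, Fc j ≠ 0) (hx : ∀ j, aeval (x j) (Fc j) = 0)
  (hinj : ∀ j, Function.Injective (ac j))
  (h0 : ∀ j i, (Fc j).eval (algebraMap k K (ac j i)) ≠ 0)

include hVP hF hx hinj h0

/-- all derivations logarithmic -/
theorem det_log (D : Fin w → Derivation k K K) (hD : ∀ i, DKind false P (D i)) :
    Ge V (∑ j, (bs Fc x V P e j + vs V (ac j) (x j)))
      (Matrix.of fun i j => En (D i) (Fc j) (x j)).det := by
  refine ge_det _ _ _ (fun _ j => bs Fc x V P e j + vs V (ac j) (x j)) (fun i j => ?_)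
    (fun σ => le_rfl)
  exact (entry3 hVP (hF j) (hx j) (hinj j) (h0 j)).2.1 (D i) (hD i)

/-- all derivations regular, without correction -/
theorem det_reg (D : Fin w → Derivation k K K) (hD : ∀ i, DKind true P (D i)) :
    Ge V (∑ j, (bs Fc x V P e j + rh V e P (Fc j) (ac j) (x j)))
      (Matrix.of fun i j => En (D i) (Fc j) (x j)).det := by
  refine ge_det _ _ _ (fun _ j => bs Fc x V P e j + rh V e P (Fc j) (ac j) (x j)) (fun i j => ?_)
    (fun σ => le_rfl)
  exact (entry3 hVP (hF j) (hx j) (hinj j) (h0 j)).1 (D i) (hD i)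

variable (low : Fin w → Prop) [DecidablePred low]

/-- one regular derivation, the others logarithmic; a low column with positive contact -/
theorem det_a {i0 : Fin w} (D : Fin w → Derivation k K K) (hD0 : DKind true P (D i0))
    (hD : ∀ i, i ≠ i0 → DKind false P (D i)) {j1 : Fin w} (hj1 : low j1)
    (hv : 0 < vs V (ac j1) (x j1)) :
    Ge V (∑ j, (bs Fc x V P e j +
      if low j then rh V e P (Fc j) (ac j) (x j) else vs V (ac j) (x j)))
      (Matrix.of fun i j => En (D i) (Fc j) (x j)).det := by
  have he : (0 : ℤ) < e := by exact_mod_cast hVP.1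
  refine ge_det _ _ _ (fun i j => bs Fc x V P e j + if i = i0 then rh V e P (Fc j) (ac j) (x j) else
    if j = j1 then e + rh V e P (Fc j) (ac j) (x j) else vs V (ac j) (x j))
    (fun i j => ?_) (fun σ => ?_)
  · obtain ⟨h1, h2, h3, -⟩ := entry3 hVP (hF j) (hx j) (hinj j) (h0 j)
    by_cases hi : i = i0
    · rw [if_pos hi]
      exact h1 _ (hi ▸ hD0)
    · rw [if_neg hi]
      by_cases hj : j = j1
      · rw [if_pos hj]
        refine h3 ?_ _ (hD i hi)
        rw [hj]
        exact hv
      · rw [if_neg hj]
        exact h2 _ (hD i hi)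
  · have h1 : ∀ j, (bs Fc x V P e j +
        if low j then rh V e P (Fc j) (ac j) (x j) else vs V (ac j) (x j)) +
        ((if j = j1 then (e : ℤ) else 0) - (if j = σ.symm i0 then (e : ℤ) else 0)) ≤
        bs Fc x V P e j + if σ j = i0 then rh V e P (Fc j) (ac j) (x j) else
          if j = j1 then e + rh V e P (Fc j) (ac j) (x j) else vs V (ac j) (x j) := by
      intro j
      obtain ⟨-, -, -, h4, h5, h6⟩ := entry3 hVP (hF j) (hx j) (hinj j) (h0 j)
      have hiff : (σ j = i0) ↔ (j = σ.symm i0) := by
        rw [Equiv.eq_symm_apply]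
      by_cases hj : j = j1
      · subst hj
        rw [if_pos hj1, if_pos rfl, if_pos rfl]
        by_cases h7 : σ j = i0
        · rw [if_pos h7, if_pos (hiff.1 h7)]
          linarith
        · rw [if_neg h7, if_neg fun h => h7 (hiff.2 h)]
          linarith
      · rw [if_neg hj, if_neg hj]
        by_cases h7 : σ j = i0
        · rw [if_pos h7, if_pos (hiff.1 h7)]
          split_ifs
          · linarith
          · linarith
        · rw [if_neg h7, if_neg fun h => h7 (hiff.2 h)]
          split_ifs
          · linarith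
          · linarith
    have h2 := Finset.sum_le_sum fun j (_ : j ∈ Finset.univ) => h1 j
    rw [Finset.sum_add_distrib, sum_trick, add_zero] at h2
    exact h2

/-- one regular derivation, the others logarithmic; no contact in the low columns -/
theorem det_b [CharZero k] {i0 : Fin w} (D : Fin w → Derivation k K K) (hD0 : DKind true P (D i0))
    (hD : ∀ i, i ≠ i0 → DKind false P (D i)) (K' : IntermediateField k K)
    (hnt : ∃ y ∈ K', P.ord y ≠ 0)
    (htr : Algebra.trdeg k K' ≤ (Fintype.card {j // low j} : ℕ))
    (hK' : ∀ j, low j → ∀ m, (Fc j).coeff m ∈ K')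
    (hv : ∀ j, low j → vs V (ac j) (x j) ≤ 0) :
    Ge V (∑ j, (bs Fc x V P e j +
      if low j then rh V e P (Fc j) (ac j) (x j) else vs V (ac j) (x j)))
      (Matrix.of fun i j => En (D i) (Fc j) (x j)).det := by
  classical
  have he : (0 : ℤ) < e := by exact_mod_cast hVP.1
  -- the normalized coefficients
  choose m0 hm0 hm1 using fun j => cnt_att P (hF j)
  obtain ⟨h, hh⟩ : ∃ h : Fin w → ℕ → K, h = fun j m => (Fc j).coeff m / (Fc j).coeff (m0 j) :=
    ⟨_, rfl⟩
  have hch : ∀ j m, (Fc j).coeff m = (Fc j).coeff (m0 j) * h j m := by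
    intro j m
    rw [hh]
    exact (mul_div_cancel₀ _ (hm0 j)).symm
  have hhK : ∀ j, low j → ∀ m, h j m ∈ K' := by
    intro j hj m
    rw [hh]
    exact K'.div_mem (hK' j hj _) (hK' j hj _)
  have hhO : ∀ j m, Ge P 0 (h j m) := by
    intro j m
    refine Ge.of_mul' (hm0 j) (hm1 j) ?_
    rw [← hch, zero_add]
    exact cnt_ge P _ _
  have hen : ∀ (D : Derivation k K K) j, En D (Fc j) (x j) =
      ∑ m ∈ Finset.range ((Fc j).natDegree + 1),
        (algebraMap K L ((Fc j).coeff (m0 j)) * x j ^ m) * algebraMap K L (D (h j m)) := by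
    intro D j
    have h1 : ∑ m ∈ Finset.range ((Fc j).natDegree + 1), algebraMap K L (h j m) * x j ^ m = 0 := by
      have h2 := hx j
      rw [aeval_eq_sum_range] at h2
      have h3 : algebraMap K L ((Fc j).coeff (m0 j)) *
          ∑ m ∈ Finset.range ((Fc j).natDegree + 1), algebraMap K L (h j m) * x j ^ m = 0 := by
        rw [← h2, Finset.mul_sum]
        refine Finset.sum_congr rfl fun m _ => ?_
        rw [Algebra.smul_def, hch j m, map_mul]
        ring
      exact (mul_eq_zero.1 h3).resolve_left ((_root_.map_ne_zero _).2 (hm0 j))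
    have h4 : En D (Fc j) (x j) = ∑ m ∈ Finset.range ((Fc j).natDegree + 1),
        ((algebraMap K L ((Fc j).coeff (m0 j)) * x j ^ m) * algebraMap K L (D (h j m)) +
          algebraMap K L (D ((Fc j).coeff (m0 j))) * (algebraMap K L (h j m) * x j ^ m)) := by
      unfold En ev
      refine Finset.sum_congr rfl fun m _ => ?_
      beta_reduce
      rw [hch j m, D.leibniz]
      simp only [smul_eq_mul, map_add, map_mul]
      ring
    rw [h4, Finset.sum_add_distrib, ← Finset.mul_sum, h1, mul_zero, add_zero]
  -- the expansion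
  let As : Fin w → Finset ℕ := fun j => if low j then Finset.range ((Fc j).natDegree + 1) else {0}
  let sc : Fin w → ℕ → L := fun j m =>
    if low j then algebraMap K L ((Fc j).coeff (m0 j)) * x j ^ m else 1
  let cl : Fin w → ℕ → Fin w → L := fun j m i =>
    if low j then algebraMap K L (D i (h j m)) else En (D i) (Fc j) (x j)
  have hexp : (Matrix.of fun i j => En (D i) (Fc j) (x j)).det =
      ∑ r ∈ Fintype.piFinset As, (∏ j, sc j (r j)) * (Matrix.of fun i j => cl j (r j) i).det := by
    rw [← Matrix.det_transpose]
    have h1 : (Matrix.of fun i j => En (D i) (Fc j) (x j)).transpose =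
        fun j => ∑ m ∈ As j, fun i => sc j m * cl j m i := by
      funext j i
      rw [Finset.sum_apply]
      change En (D i) (Fc j) (x j) = _
      by_cases hj : low j
      · simp only [As, sc, cl, if_pos hj]
        exact hen (D i) j
      · simp only [As, sc, cl, if_neg hj, Finset.sum_singleton, one_mul]
    have h2 := (Matrix.detRowAlternating (n := Fin w) (R := L)).toMultilinearMap.map_sum_finset
      (fun j m i => sc j m * cl j m i) As
    have h3 : Matrix.det (fun j => ∑ m ∈ As j, fun i => sc j m * cl j m i) =
        ∑ r ∈ Fintype.piFinset As, Matrix.det (fun j i => sc j (r j) * cl j (r j) i) := h2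
    rw [h1, h3]
    refine Finset.sum_congr rfl fun r _ => ?_
    have h4 := Matrix.det_mul_column (fun j => sc j (r j)) (fun j i => cl j (r j) i)
    rw [← Matrix.det_transpose (Matrix.of fun i j => cl j (r j) i)]
    exact h4
  rw [hexp]
  refine Ge.sum _ _ fun r hr => ?_
  rw [Fintype.mem_piFinset] at hr
  have hsc : Ge V (∑ j, if low j then bs Fc x V P e j else 0) (∏ j, sc j (r j)) := by
    refine Ge.prod _ _ _ fun j _ => ?_
    by_cases hj : low j
    · simp only [sc, if_pos hj]
      have h1 := hr j
      simp only [As, if_pos hj, Finset.mem_range] at h1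
      have h2 := over_ge hVP (Or.inr (hm1 j).ge : Ge P (cnt P (Fc j)) ((Fc j).coeff (m0 j)))
      refine (h2.mul ((ge_tau V (x j)).pow (r j))).mono ?_
      unfold bs
      have h3 := tau_nonneg V (x j)
      have h4 : ((r j : ℕ) : ℤ) ≤ (Fc j).natDegree := by omega
      nlinarith
    · simp only [sc, if_neg hj]
      exact Ge.one
  obtain ⟨c, j1, hc, hc0, hc1, hcr, hcl⟩ := dependency P K' hnt htr
    (fun j : {j // low j} => h j (r j)) (fun j => hhK j j.2 _) (fun j => hhO _ _)
  have hdet : Ge V (∑ j, if low j then 0 else bs Fc x V P e j + vs V (ac j) (x j))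
      (Matrix.of fun i j => cl j (r j) i).det := by
    let c' : Fin w → L := fun j => if hj : low j then algebraMap K L (c ⟨j, hj⟩) else 0
    have hc'1 : c' j1 = algebraMap K L (c j1) := by
      simp only [c', dif_pos j1.2]
    have h1 := Matrix.det_updateCol_sum (Matrix.of fun i j => cl j (r j) i) (j1 : Fin w) c'
    have hcomb : ∀ i, ∑ j, c' j • (Matrix.of fun i j => cl j (r j) i) i j =
        algebraMap K L (∑ j : {j // low j}, c j * D i (h j (r j))) := by
      intro i
      rw [map_sum]
      have h2 : ∀ j, c' j • (Matrix.of fun i j => cl j (r j) i) i j =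
          if hj : low j then algebraMap K L (c ⟨j, hj⟩ * D i (h j (r j))) else 0 := by
        intro j
        change c' j * cl j (r j) i = _
        by_cases hj : low j
        · simp only [c', cl, dif_pos hj, if_pos hj]
          rw [map_mul]
        · simp only [c', dif_neg hj, zero_mul]
      obtain ⟨G, hG⟩ : ∃ G : Fin w → L, G = fun j => if hj : low j then
          algebraMap K L (c ⟨j, hj⟩ * D i (h j (r j))) else 0 := ⟨_, rfl⟩
      have h3 : ∑ j : {j // low j}, algebraMap K L (c j * D i (h j (r j))) =
          ∑ j : {j // low j}, G j := by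
        refine Finset.sum_congr rfl fun j _ => ?_
        rw [hG]
        simp only [dif_pos j.2]
      have h4 : ∀ j, c' j • (Matrix.of fun i j => cl j (r j) i) i j = G j := fun j => by
        rw [h2 j, hG]
      rw [Finset.sum_congr rfl fun j _ => h4 j, h3,
        ← Finset.sum_subtype (Finset.univ.filter low) (fun j => by simp) G,
        Finset.sum_filter_of_ne]
      intro j _ hj
      by_contra hcon
      apply hj
      rw [hG]
      simp only [dif_neg hcon]
    have h2 : Ge V (∑ j, if low j then 0 else bs Fc x V P e j + vs V (ac j) (x j))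
        ((Matrix.of fun i j => cl j (r j) i).updateCol (j1 : Fin w) fun k => ∑ i, c' i •
          (Matrix.of fun i j => cl j (r j) i) k i).det := by
      refine ge_det _ _ _ (fun i j => if low j then (if j = j1 then (if i = i0 then 0 else (e : ℤ))
        else 0) else bs Fc x V P e j + if i = i0 then rh V e P (Fc j) (ac j) (x j) else
          vs V (ac j) (x j)) (fun i j => ?_) (fun σ => ?_)
      · rw [Matrix.updateCol_apply]
        by_cases hj : j = j1
        · rw [if_pos hj]
          rw [hcomb i]
          rw [if_pos (hj ▸ j1.2), if_pos hj]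
          by_cases hi : i = i0
          · rw [if_pos hi]
            have h5 := over_ge hVP (hcr (D i) (hi ▸ hD0))
            rwa [mul_zero] at h5
          · rw [if_neg hi]
            have h5 := over_ge hVP (hcl (D i) (hD i hi))
            rwa [mul_one] at h5
        · simp only [if_neg hj]
          change Ge V _ (cl j (r j) i)
          by_cases hl : low j
          · rw [if_pos hl]
            simp only [cl, if_pos hl]
            have h5 : Ge P 0 (D i (h j (r j))) := by
              by_cases hi : i = i0
              · rw [hi]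
                exact hD0.int (hhO _ _)
              · exact (hD i hi).int (hhO _ _)
            have h6 := over_ge hVP h5
            rwa [mul_zero] at h6
          · rw [if_neg hl]
            simp only [cl, if_neg hl]
            obtain ⟨h5, h6, -⟩ := entry3 hVP (hF j) (hx j) (hinj j) (h0 j)
            by_cases hi : i = i0
            · rw [if_pos hi]
              exact h5 _ (hi ▸ hD0)
            · rw [if_neg hi]
              exact h6 _ (hD i hi)
      · have h5 : ∀ j, (if low j then 0 else bs Fc x V P e j + vs V (ac j) (x j)) +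
            ((if j = (j1 : Fin w) then (e : ℤ) else 0) - (if j = σ.symm i0 then (e : ℤ) else 0)) ≤
            if low j then (if j = (j1 : Fin w) then (if σ j = i0 then 0 else (e : ℤ)) else 0) else
              bs Fc x V P e j + if σ j = i0 then rh V e P (Fc j) (ac j) (x j) else
                vs V (ac j) (x j) := by
          intro j
          obtain ⟨-, -, -, h6, h7, h8⟩ := entry3 hVP (hF j) (hx j) (hinj j) (h0 j)
          have hiff : (σ j = i0) ↔ (j = σ.symm i0) := by
            rw [Equiv.eq_symm_apply]
          by_cases hj : j = (j1 : Fin w)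
          · have hl : low j := hj ▸ j1.2
            rw [if_pos hl, if_pos hl, if_pos hj, if_pos hj]
            by_cases h9 : σ j = i0
            · rw [if_pos h9, if_pos (hiff.1 h9)]
              linarith
            · rw [if_neg h9, if_neg fun h => h9 (hiff.2 h)]
              linarith
          · rw [if_neg hj, if_neg hj]
            by_cases hl : low j
            · rw [if_pos hl, if_pos hl]
              split_ifs
              · linarith
              · linarith
            · rw [if_neg hl, if_neg hl]
              by_cases h9 : σ j = i0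
              · rw [if_pos h9, if_pos (hiff.1 h9)]
                linarith
              · rw [if_neg h9, if_neg fun h => h9 (hiff.2 h)]
                linarith
        have h6 := Finset.sum_le_sum fun j (_ : j ∈ Finset.univ) => h5 j
        rw [Finset.sum_add_distrib, sum_trick, add_zero] at h6
        exact h6
    rw [h1, hc'1, smul_eq_mul] at h2
    refine Ge.of_mul' (h := algebraMap K L (c j1)) (m := 0)
      ((_root_.map_ne_zero _).2 hc0) (by rw [hVP.2, hc1, mul_zero]) ?_
    rw [add_zero]
    exact h2
  refine (hsc.mul hdet).mono ?_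
  rw [← Finset.sum_add_distrib]
  refine Finset.sum_le_sum fun j _ => ?_
  obtain ⟨-, -, -, h6, h7, h8⟩ := entry3 hVP (hF j) (hx j) (hinj j) (h0 j)
  by_cases hl : low j
  · rw [if_pos hl, if_pos hl, if_pos hl]
    have := hv j hl
    linarith
  · rw [if_neg hl, if_neg hl, if_neg hl]
    linarith

/-- **The determinant for regular derivations.** -/
theorem det_bound [CharZero k] (D : Fin w → Derivation k K K) (hD : ∀ i, DKind true P (D i))
    (hlow : (∀ j, low j) ∨ ∃ K' : IntermediateField k K, (∃ y ∈ K', P.ord y ≠ 0) ∧
      Algebra.trdeg k K' ≤ (Fintype.card {j // low j} : ℕ) ∧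
      ∀ j, low j → ∀ m, (Fc j).coeff m ∈ K') :
    Ge V (∑ j, (bs Fc x V P e j +
      if low j then rh V e P (Fc j) (ac j) (x j) else vs V (ac j) (x j)))
      (Matrix.of fun i j => En (D i) (Fc j) (x j)).det := by
  classical
  rcases hlow with hlow | ⟨K', hnt, htr, hK'⟩
  · refine (det_reg Fc x ac hVP hF hx hinj h0 D hD).mono (le_of_eq ?_)
    refine Finset.sum_congr rfl fun j _ => ?_
    rw [if_pos (hlow j)]
  obtain ⟨p, hp0, hp⟩ := P.surj
  by_cases hall : ∀ i, DKind false P (D i)
  · refine (det_log Fc x ac hVP hF hx hinj h0 D hall).mono ?_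
    refine Finset.sum_le_sum fun j _ => ?_
    obtain ⟨-, -, -, h6, h7, h8⟩ := entry3 hVP (hF j) (hx j) (hinj j) (h0 j)
    split_ifs
    · linarith
    · linarith
  push Not at hall
  obtain ⟨i0, hi0⟩ := hall
  have hDp : ¬ Ge P 1 (D i0 p) := fun h => hi0 (log_of (hD i0) hp0 hp h)
  have hDp0 : D i0 p ≠ 0 := fun h => hDp (Or.inl h)
  have hDp1 : P.ord (D i0 p) = 0 := by
    have h1 : Ge P 0 (D i0 p) := (hD i0).int (Or.inr (by omega))
    have h2 := h1.resolve_left hDp0
    by_contra hcon
    exact hDp (Or.inr (by omega))
  let D' : Fin w → Derivation k K K := fun i =>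
    if i = i0 then D i0 else D i - (D i p / D i0 p) • D i0
  have hD'0 : DKind true P (D' i0) := by
    simp only [D', if_pos rfl]
    exact hD i0
  have hD' : ∀ i, i ≠ i0 → DKind false P (D' i) := by
    intro i hi
    have h1 : D' i = D i - (D i p / D i0 p) • D i0 := by
      simp only [D', if_neg hi]
    have h2 : Ge P 0 (D i p / D i0 p) := by
      have h3 : Ge P 0 (D i p) := (hD i).int (Or.inr (by omega))
      have h4 := ge_div hDp0 h3
      rwa [hDp1, sub_zero] at h4
    refine log_of (p := p) ?_ hp0 hp ?_
    · rw [h1]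
      intro f hf
      change Ge P 0 ((D i - (D i p / D i0 p) • D i0) f)
      rw [Derivation.sub_apply, Derivation.smul_apply, smul_eq_mul]
      have h5 : Ge P 0 (D i f) := (hD i).int hf
      have h6 : Ge P 0 (D i0 f) := (hD i0).int hf
      have h7 := h2.mul h6
      rw [add_zero] at h7
      exact h5.sub h7
    · rw [h1, Derivation.sub_apply, Derivation.smul_apply, smul_eq_mul, div_mul_cancel₀ _ hDp0,
        sub_self]
      exact Ge.zero
  have hdet : (Matrix.of fun i j => En (D' i) (Fc j) (x j)).det =
      (Matrix.of fun i j => En (D i) (Fc j) (x j)).det := by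
    refine Matrix.det_eq_of_forall_row_eq_smul_add_const
      (fun i => if i = i0 then 0 else - algebraMap K L (D i p / D i0 p)) i0 (if_pos rfl) ?_
    intro i j
    change En (D' i) (Fc j) (x j) = En (D i) (Fc j) (x j) + _ * En (D i0) (Fc j) (x j)
    by_cases hi : i = i0
    · rw [if_pos hi, zero_mul, add_zero]
      simp only [D', if_pos hi]
      rw [hi]
    · rw [if_neg hi]
      simp only [D', if_neg hi]
      rw [en_sub, en_smul]
      ring
  rw [← hdet]
  by_cases hv : ∃ j1, low j1 ∧ 0 < vs V (ac j1) (x j1)
  · obtain ⟨j1, hj1, hj2⟩ := hv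
    exact det_a Fc x ac hVP hF hx hinj h0 low D' hD'0 hD' hj1 hj2
  · push Not at hv
    exact det_b Fc x ac hVP hF hx hinj h0 low D' hD'0 hD' K' hnt htr hK' hv

end det

end Pool.Agent.J4.H73.BF
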