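import Pool.Agent.Y190.BV.Trn

/-!
Families of transcendence bases of minimal energy, and the layers of the labels.
-/

set_option autoImplicit false
set_option linter.unusedSectionVars false

namespace Pool.Agent.J4.H73.BF

open Pool.Agent.Y190.BV (exists_basis_through)

section exch

variable {k L : Type} [Field k] [Field L] [Algebra k L] {w : ℕ}

theorem mem_cl {S : Set L} {y : L} :
    y ∈ (AlgebraicIndependent.matroid k L).closure S ↔ IsAlgebraic (Algebra.adjoin k S) y := by
  rw [AlgebraicIndependent.matroid_closure_eq]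
  rfl

/-- the exchange -/
theorem exchange (htr : Algebra.trdeg k L = w) (x : Fin w → L) (hx : IsTranscendenceBasis k x)
    (t : L) (A : Finset (Fin w)) (ht : ¬ IsAlgebraic (Algebra.adjoin k (x '' A)) t) :
    ∃ j0, j0 ∉ A ∧ IsTranscendenceBasis k (Function.update x j0 t) := by
  classical
  obtain ⟨M, hM⟩ : ∃ M, M = AlgebraicIndependent.matroid k L := ⟨_, rfl⟩
  have hcl : ∀ (S : Set L) (y : L), y ∈ M.closure S ↔ IsAlgebraic (Algebra.adjoin k S) y :=
    fun S y => by rw [hM]; exact mem_cl
  have hspan : ∀ y, y ∈ M.closure (Set.range x) := fun y =>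
    (hcl _ _).2 (hx.isAlgebraic.isAlgebraic y)
  obtain ⟨I, hI, hmin⟩ := Finset.exists_min_image
    (Finset.univ.filter fun I : Finset (Fin w) => A ⊆ I ∧ t ∈ M.closure (x '' I)) Finset.card
    ⟨Finset.univ, by
      simp only [Finset.mem_filter, Finset.mem_univ, Finset.subset_univ, true_and,
        Finset.coe_univ, Set.image_univ]
      exact hspan t⟩
  simp only [Finset.mem_filter, Finset.mem_univ, true_and] at hI hmin
  obtain ⟨hAI, htI⟩ := hI
  have hex : ∃ j0 ∈ I, j0 ∉ A := by
    by_contra hcon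
    push Not at hcon
    have h1 : I = A := Finset.Subset.antisymm hcon hAI
    rw [h1] at htI
    exact ht ((hcl _ _).1 htI)
  obtain ⟨j0, hj0, hj0A⟩ := hex
  have h1 : t ∉ M.closure (x '' (I.erase j0 : Finset (Fin w))) := by
    intro h1
    have h2 := hmin (I.erase j0) ⟨fun j hj => Finset.mem_erase.2
      ⟨fun h => hj0A (h ▸ hj), hAI hj⟩, h1⟩
    have h3 := Finset.card_erase_lt_of_mem hj0
    omega
  have h2 : x '' (I : Set (Fin w)) = insert (x j0) (x '' (I.erase j0 : Finset (Fin w))) := by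
    rw [← Set.image_insert_eq, ← Finset.coe_insert, Finset.insert_erase hj0]
  rw [h2] at htI
  have h3 := M.mem_closure_insert h1 htI
  refine ⟨j0, hj0A, ?_⟩
  have h4 : insert t (x '' (I.erase j0 : Finset (Fin w))) ⊆
      Set.range (Function.update x j0 t) := by
    rintro y (rfl | ⟨j, hj, rfl⟩)
    · exact ⟨j0, Function.update_self _ _ _⟩
    · exact ⟨j, Function.update_of_ne (Finset.ne_of_mem_erase (Finset.mem_coe.1 hj)) _ _⟩
  have h5 : Set.range x ⊆ M.closure (Set.range (Function.update x j0 t)) := by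
    rintro _ ⟨j, rfl⟩
    by_cases hj : j = j0
    · rw [hj]
      exact M.closure_subset_closure h4 h3
    · refine M.subset_closure _ (by rw [hM]; exact Set.subset_univ _)
        ⟨j, Function.update_of_ne hj _ _⟩
  have h6 := M.closure_subset_closure_of_subset_closure h5
  have h7 : Algebra.IsAlgebraic (Algebra.adjoin k (Set.range (Function.update x j0 t))) L :=
    ⟨fun y => (hcl _ _).1 (h6 (hspan y))⟩
  refine Algebra.IsAlgebraic.isTranscendenceBasis_of_le_trdeg_of_finite k _ ?_
  rw [htr, Cardinal.mk_fin]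

end exch

section count

variable {Z φ : Type} [Fintype Z] [DecidableEq Z] [DecidableEq φ]

/-- the number of the occurrences of the label `f` -/
def cnum (c : Z → φ) (f : φ) : ℕ := (Finset.univ.filter fun z => c z = f).card

theorem cnum_eq (c : Z → φ) (f : φ) : (cnum c f : ℤ) = ∑ z, if c z = f then 1 else 0 := by
  unfold cnum
  rw [Finset.card_filter]
  push_cast
  rfl

theorem cnum_update (c : Z → φ) (z0 : Z) (f' f : φ) :
    (cnum (Function.update c z0 f') f : ℤ) = cnum c f + (if f' = f then 1 else 0) -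
      (if c z0 = f then 1 else 0) := by
  rw [cnum_eq, cnum_eq, ← Finset.add_sum_erase _ _ (Finset.mem_univ z0),
    ← Finset.add_sum_erase Finset.univ (fun z => if c z = f then (1 : ℤ) else 0)
      (Finset.mem_univ z0), Function.update_self]
  have h1 : ∑ z ∈ Finset.univ.erase z0, (if Function.update c z0 f' z = f then (1 : ℤ) else 0) =
      ∑ z ∈ Finset.univ.erase z0, if c z = f then (1 : ℤ) else 0 := by
    refine Finset.sum_congr rfl fun z hz => ?_
    rw [Function.update_of_ne (Finset.ne_of_mem_erase hz)]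
  rw [h1]
  ring

variable [Fintype φ]

/-- the energy -/
def energy (g : φ → ℕ) (c : Z → φ) : ℕ := ∑ f, g f * cnum c f ^ 2

theorem energy_ineq (g : φ → ℕ) (c : Z → φ) (z0 : Z) {f' : φ} (hne : c z0 ≠ f') {Dd : ℕ}
    (hg : ∀ f, g f ≤ Dd) (h : energy g c ≤ energy g (Function.update c z0 f')) :
    cnum c (c z0) * g (c z0) ≤ cnum c f' * g f' + Dd := by
  have h1 : (energy g (Function.update c z0 f') : ℤ) - energy g c =
      g f' * (2 * cnum c f' + 1) - g (c z0) * (2 * cnum c (c z0) - 1) := by
    unfold energy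
    push_cast
    rw [← Finset.sum_sub_distrib]
    have h2 : ∀ f, (g f : ℤ) * (cnum (Function.update c z0 f') f : ℤ) ^ 2 - g f * (cnum c f) ^ 2 =
        (if f' = f then (g f : ℤ) * (2 * cnum c f + 1) else 0) -
          (if c z0 = f then (g f : ℤ) * (2 * cnum c f - 1) else 0) := by
      intro f
      rw [cnum_update]
      by_cases h3 : f' = f
      · rw [if_pos h3, if_pos h3, if_neg (fun h => hne (h.trans h3.symm)),
          if_neg (fun h => hne (h.trans h3.symm))]
        ring
      · rw [if_neg h3, if_neg h3]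
        by_cases h4 : c z0 = f
        · rw [if_pos h4, if_pos h4]
          ring
        · rw [if_neg h4, if_neg h4]
          ring
    rw [Finset.sum_congr rfl fun f _ => h2 f, Finset.sum_sub_distrib,
      Finset.sum_ite_eq Finset.univ f', Finset.sum_ite_eq Finset.univ (c z0),
      if_pos (Finset.mem_univ _), if_pos (Finset.mem_univ _)]
  have h2 : (0 : ℤ) ≤ (energy g (Function.update c z0 f') : ℤ) - energy g c := by
    have : (energy g c : ℤ) ≤ energy g (Function.update c z0 f') := by exact_mod_cast h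
    linarith
  rw [h1] at h2
  have h3 := hg f'
  have h4 := hg (c z0)
  have h5 : (cnum c (c z0) * g (c z0) : ℤ) ≤ cnum c f' * g f' + Dd := by
    have h6 : (g f' : ℤ) ≤ Dd := by exact_mod_cast h3
    have h7 : (g (c z0) : ℤ) ≤ Dd := by exact_mod_cast h4
    nlinarith
  exact_mod_cast h5

end count

section layers

variable {k L : Type} [Field k] [Field L] [Algebra k L] {w : ℕ}

/-- cuts -/
theorem exists_cut {φ : Type} [Fintype φ] (NN : φ → ℕ) (Dd : ℕ) (f : φ) :
    ∃ τ, NN f ≤ τ ∧ τ ≤ NN f + Fintype.card φ * Dd ∧ ∀ f', ¬ (τ < NN f' ∧ NN f' ≤ τ + Dd) := by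
  classical
  by_contra hcon
  push Not at hcon
  have h1 : ∀ i : Fin (Fintype.card φ), ∃ f', NN f + i * Dd < NN f' ∧
      NN f' ≤ NN f + i * Dd + Dd := by
    intro i
    refine hcon _ (Nat.le_add_right _ _) ?_
    exact Nat.add_le_add_left (Nat.mul_le_mul_right _ i.2.le) _
  choose F hF1 hF2 using h1
  have hinj : Function.Injective F := by
    intro i j hij
    have h2 := hF1 i
    have h3 := hF2 i
    have h4 := hF1 j
    have h5 := hF2 j
    rw [hij] at h2 h3
    apply Fin.ext
    rcases lt_trichotomy (i : ℕ) (j : ℕ) with h | h | h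
    · have h6 : ((i : ℕ) + 1) * Dd ≤ j * Dd := Nat.mul_le_mul_right _ h
      rw [add_mul, one_mul] at h6
      omega
    · exact h
    · have h6 : ((j : ℕ) + 1) * Dd ≤ i * Dd := Nat.mul_le_mul_right _ h
      rw [add_mul, one_mul] at h6
      omega
  have hsurj : Function.Surjective F :=
    ((Fintype.bijective_iff_injective_and_card F).2 ⟨hinj, by simp⟩).2
  obtain ⟨i, hi⟩ := hsurj f
  have h2 := hF1 i
  rw [hi] at h2
  omega

/-- **The layers.** -/
theorem exists_layers (htr : Algebra.trdeg k L = w) {φ : Type} [Fintype φ] [Nonempty φ]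
    (R : φ → Set L) (hne : ∀ f, (R f).Nonempty) (htrans : ∀ f, ∀ t ∈ R f, Transcendental k t)
    (halg : Algebra.IsAlgebraic (Algebra.adjoin k (⋃ f, R f)) L)
    (g : φ → ℕ) (hg1 : ∀ f, 1 ≤ g f) (Dd : ℕ) (hgD : ∀ f, g f ≤ Dd) (N0 : ℕ) :
    ∃ (T : ℕ) (J : Fin T → Fin w → L) (lb : Fin T → Fin w → φ) (lay NN : φ → ℕ),
      0 < T ∧ (∀ l, IsTranscendenceBasis k (J l)) ∧ (∀ l j, J l j ∈ R (lb l j)) ∧
      (∀ a : φ → ℤ, ∑ l, ∑ j, g (lb l j) * a (lb l j) = ∑ f, NN f * a f) ∧
      (∀ f, N0 ≤ NN f) ∧ (∀ f f', lay f ≤ lay f' → NN f ≤ NN f' + Fintype.card φ * Dd) ∧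
      ∀ l f, ∀ t ∈ R f, IsAlgebraic (Algebra.adjoin k (J l '' {j | lay (lb l j) ≤ lay f})) t := by
  classical
  obtain ⟨κ, hκ⟩ : ∃ κ, κ = Fintype.card φ * Dd := ⟨_, rfl⟩
  obtain ⟨T, hT⟩ : ∃ T, T = Fintype.card φ * (N0 + κ) + 1 := ⟨_, rfl⟩
  obtain ⟨f0⟩ := ‹Nonempty φ›
  obtain ⟨t0, ht0⟩ := hne f0
  obtain ⟨x0, hx0, hx0S, -⟩ := exists_basis_through htr (⋃ f, R f) halg
    (Set.mem_iUnion.2 ⟨f0, ht0⟩) (htrans f0 t0 ht0)
  have hx0l : ∀ j, ∃ f, x0 j ∈ R f := fun j => Set.mem_iUnion.1 (hx0S j)
  choose lb0 hlb0 using hx0l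
  let Cf : Set ((Fin T → Fin w → L) × (Fin T × Fin w → φ)) :=
    {c | (∀ l, IsTranscendenceBasis k (c.1 l)) ∧ ∀ z, c.1 z.1 z.2 ∈ R (c.2 z)}
  have hCne : {n | ∃ c ∈ Cf, energy g c.2 = n}.Nonempty :=
    ⟨_, (fun _ => x0, fun z => lb0 z.2), ⟨fun _ => hx0, fun z => hlb0 z.2⟩, rfl⟩
  obtain ⟨⟨J, c⟩, ⟨hJ, hc⟩, hE⟩ := Nat.sInf_mem hCne
  simp only at hJ hc hE
  have hmin : ∀ c' ∈ Cf, energy g c ≤ energy g c'.2 := by
    intro c' hc'
    rw [hE]
    exact Nat.sInf_le ⟨c', hc', rfl⟩
  obtain ⟨NN, hNN⟩ : ∃ NN : φ → ℕ, NN = fun f => cnum c f * g f := ⟨_, rfl⟩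
  have hcut : ∀ f, ∃ τ, NN f ≤ τ ∧ ∀ f', ¬ (τ < NN f' ∧ NN f' ≤ τ + Dd) := fun f => by
    obtain ⟨τ, h1, -, h2⟩ := exists_cut NN Dd f
    exact ⟨τ, h1, h2⟩
  obtain ⟨lay, hlay⟩ : ∃ lay : φ → ℕ, lay = fun f => Nat.find (hcut f) := ⟨_, rfl⟩
  have hlay1 : ∀ f, NN f ≤ lay f := fun f => by rw [hlay]; exact (Nat.find_spec (hcut f)).1
  have hlay2 : ∀ f f', ¬ (lay f < NN f' ∧ NN f' ≤ lay f + Dd) := fun f => by
    rw [hlay]; exact (Nat.find_spec (hcut f)).2
  have hlay3 : ∀ f τ, NN f ≤ τ → (∀ f', ¬ (τ < NN f' ∧ NN f' ≤ τ + Dd)) → lay f ≤ τ :=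
    fun f τ h1 h2 => by
      rw [hlay]
      exact Nat.find_min' (hcut f) ⟨h1, h2⟩
  have hlay4 : ∀ f, lay f ≤ NN f + κ := fun f => by
    obtain ⟨τ, h1, h2, h3⟩ := exists_cut NN Dd f
    rw [hκ]
    exact (hlay3 f τ h1 h3).trans h2
  have halg' : ∀ l f, ∀ t ∈ R f,
      IsAlgebraic (Algebra.adjoin k (J l '' {j | lay (c (l, j)) ≤ lay f})) t := by
    intro l f t ht
    by_contra hcon
    have h1 : ((Finset.univ.filter fun j => lay (c (l, j)) ≤ lay f : Finset (Fin w)) :
        Set (Fin w)) = {j | lay (c (l, j)) ≤ lay f} := by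
      ext j
      simp
    rw [← h1] at hcon
    obtain ⟨j0, hj0, hbas⟩ := exchange htr (J l) (hJ l) t _ hcon
    simp only [Finset.mem_filter, Finset.mem_univ, true_and, not_le] at hj0
    have hne' : c (l, j0) ≠ f := by
      intro h
      rw [h] at hj0
      exact lt_irrefl _ hj0
    have h2 := hmin (Function.update J l (Function.update (J l) j0 t),
      Function.update c (l, j0) f) ⟨?_, ?_⟩
    · have h3 := energy_ineq g c (l, j0) hne' hgD h2
      have h4 : NN (c (l, j0)) ≤ NN f + Dd := by rw [hNN]; exact h3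
      have h5 : lay f < NN (c (l, j0)) := by
        by_contra h6
        push Not at h6
        have := hlay3 _ _ h6 (hlay2 f)
        omega
      have h6 := hlay1 f
      exact hlay2 f _ ⟨h5, by omega⟩
    · intro l'
      by_cases hl : l' = l
      · rw [hl]
        simp only [Function.update_self]
        exact hbas
      · simp only [Function.update_of_ne hl]
        exact hJ l'
    · rintro ⟨l', j'⟩
      by_cases hz : (l', j') = (l, j0)
      · obtain ⟨h7, h8⟩ := Prod.mk.inj hz
        subst h7 h8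
        simp only [Function.update_self]
        exact ht
      · simp only [Function.update_of_ne hz]
        by_cases hl : l' = l
        · subst hl
          have hj : j' ≠ j0 := fun h => hz (by rw [h])
          simp only [Function.update_self, Function.update_of_ne hj]
          exact hc _
        · simp only [Function.update_of_ne hl]
          exact hc _
  refine ⟨T, J, fun l j => c (l, j), lay, NN, by omega, hJ, fun l j => hc (l, j), ?_, ?_, ?_,
    halg'⟩
  · intro a
    rw [← Fintype.sum_prod_type' (fun l j => (g (c (l, j)) : ℤ) * a (c (l, j)))]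
    have h1 : ∀ z : Fin T × Fin w, (g (c (z.1, z.2)) : ℤ) * a (c (z.1, z.2)) =
        ∑ f, if c z = f then (g f : ℤ) * a f else 0 := by
      intro z
      rw [Finset.sum_ite_eq Finset.univ (c z), if_pos (Finset.mem_univ _)]
    rw [Finset.sum_congr rfl fun z _ => h1 z, Finset.sum_comm]
    refine Finset.sum_congr rfl fun f _ => ?_
    rw [hNN]
    push_cast
    rw [cnum_eq, Finset.sum_mul, Finset.sum_mul]
    refine Finset.sum_congr rfl fun z _ => ?_
    split_ifs
    · ring
    · ring
  · intro f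
    by_contra hcon
    push Not at hcon
    obtain ⟨t, ht⟩ := hne f
    have h1 : ∀ l, ∃ j, lay (c (l, j)) ≤ lay f := by
      intro l
      by_contra hcon2
      push Not at hcon2
      have h2 := halg' l f t ht
      have h3 : {j | lay (c (l, j)) ≤ lay f} = ∅ := by
        ext j
        simp only [Set.mem_ofPred_eq, Set.mem_empty_iff_false, iff_false, not_le]
        exact hcon2 j
      rw [h3, Set.image_empty, Algebra.adjoin_empty] at h2
      exact htrans f t ht (Subalgebra.isAlgebraic_of_isAlgebraic_bot h2)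
    choose jj hjj using h1
    have h2 : T ≤ (Finset.univ.filter fun z : Fin T × Fin w => lay (c z) ≤ lay f).card := by
      have h3 : (Finset.univ : Finset (Fin T)).card ≤
          (Finset.univ.filter fun z : Fin T × Fin w => lay (c z) ≤ lay f).card := by
        refine Finset.card_le_card_of_injOn (fun l => (l, jj l)) ?_ ?_
        · intro l _
          simpa using hjj l
        · intro l _ l' _ h
          exact (Prod.mk.inj h).1
      rwa [Finset.card_univ, Fintype.card_fin] at h3
    have h4 : (Finset.univ.filter fun z : Fin T × Fin w => lay (c z) ≤ lay f).card ≤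
        Fintype.card φ * lay f := by
      rw [Finset.card_eq_sum_card_fiberwise (f := c)
        (t := Finset.univ.filter fun f' => lay f' ≤ lay f)
        (fun z hz => by
          have := (Finset.mem_filter.1 (Finset.mem_coe.1 hz)).2
          simpa using this)]
      refine (Finset.sum_le_card_nsmul _ _ (lay f) fun f' hf' => ?_).trans ?_
      · have h5 := (Finset.mem_filter.1 hf').2
        refine le_trans ?_ h5
        refine le_trans ?_ (hlay1 f')
        rw [hNN]
        refine le_trans ?_ (Nat.le_mul_of_pos_right _ (hg1 f'))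
        unfold cnum
        refine Finset.card_le_card ?_
        intro z hz
        exact Finset.mem_filter.2 ⟨Finset.mem_univ _, (Finset.mem_filter.1 hz).2⟩
      · rw [smul_eq_mul]
        exact Nat.mul_le_mul_right _ (Finset.card_le_univ _)
    have h5 := hlay4 f
    have h6 : Fintype.card φ * lay f ≤ Fintype.card φ * (N0 + κ) :=
      Nat.mul_le_mul_left _ (by omega)
    omega
  · intro f f' h
    have h1 := hlay1 f
    have h2 := hlay4 f'
    rw [hκ] at h2
    omega

end layers

end Pool.Agent.J4.H73.BF
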