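import Pool.Agent.J4.H73.BF.Forms

/-!
The local estimates for the values of a derived polynomial at the roots of the polynomial, for
regular and for logarithmic derivations.
-/

set_option autoImplicit false
set_option linter.unusedSectionVars false

open FF Pool.Agent.W603.LV Pool.Agent.W602.GT Polynomial

namespace Pool.Agent.J4.H73.BF

open Pool.Agent.Y190.BV hiding den mat phi mat_mul phi_pluri ord_den ge_phi reg_phi

variable {k K L : Type} [Field k] [Field K] [Field L] [Algebra k K] [Algebra k L] [Algebra K L]
  [IsScalarTower k K L]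

/-- the value of the derived polynomial -/
def En (D : Derivation k K K) (F : K[X]) (t : L) : L :=
  ev L (F.natDegree + 1) (fun m => D (F.coeff m)) t

/-- the value of the derived polynomial, as an additive function of the polynomial -/
noncomputable def Lam (D : Derivation k K K) (t : L) : K[X] →+ L where
  toFun G := G.sum fun m x => algebraMap K L (D x) * t ^ m
  map_zero' := Polynomial.sum_zero_index _
  map_add' G H := Polynomial.sum_add_index _ _ _ (fun i => by rw [map_zero, map_zero, zero_mul])
    (fun i x y => by rw [map_add, map_add, add_mul])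

theorem lam_eq (D : Derivation k K K) (t : L) (G : K[X]) :
    Lam D t G = G.sum fun m x => algebraMap K L (D x) * t ^ m := rfl

theorem en_eq (D : Derivation k K K) (F : K[X]) (t : L) : En D F t = Lam D t F := by
  rw [lam_eq, Polynomial.sum_over_range _ fun n => by rw [map_zero, map_zero, zero_mul]]
  rfl

theorem lam_map (D : Derivation k K K) (t : L) (c : K) (q : k[X]) :
    Lam D t (C c * q.map (algebraMap k K)) = algebraMap K L (D c) * aeval t q := by
  induction q using Polynomial.induction_on' with
  | add p q hp hq =>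
    rw [Polynomial.map_add, mul_add, map_add, hp, hq, map_add, mul_add]
  | monomial n a =>
    rw [Polynomial.map_monomial, Polynomial.C_mul_monomial, lam_eq, Polynomial.sum_monomial_index _ _
      (by rw [map_zero, map_zero, zero_mul]), aeval_monomial, D.leibniz, D.map_algebraMap, smul_zero,
      zero_add, smul_eq_mul, map_mul, ← IsScalarTower.algebraMap_apply k K L]
    ring

theorem taylor_sum (F : K[X]) (a : k) :
    F = ∑ m ∈ Finset.range (F.natDegree + 1), C ((taylor (algebraMap k K a) F).coeff m) *
      ((X - C a) ^ m : k[X]).map (algebraMap k K) := by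
  have h1 := sum_taylor_eq F (algebraMap k K a)
  rw [Polynomial.sum_over_range _ fun n => by rw [C_0, zero_mul], natDegree_taylor] at h1
  conv_lhs => rw [← h1]
  refine Finset.sum_congr rfl fun m _ => ?_
  rw [Polynomial.map_pow, Polynomial.map_sub, Polynomial.map_X, Polynomial.map_C]

theorem en_taylor (D : Derivation k K K) (F : K[X]) (t : L) (a : k) :
    En D F t = ∑ m ∈ Finset.range (F.natDegree + 1),
      algebraMap K L (D ((taylor (algebraMap k K a) F).coeff m)) * (t - algebraMap k L a) ^ m := by
  rw [en_eq]
  conv_lhs => rw [taylor_sum F a]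
  rw [map_sum]
  refine Finset.sum_congr rfl fun m _ => ?_
  rw [lam_map]
  congr 1
  rw [map_pow, map_sub, aeval_X, aeval_C]

theorem aeval_taylor (F : K[X]) (t : L) (a : k) :
    aeval t F = ∑ m ∈ Finset.range (F.natDegree + 1),
      algebraMap K L ((taylor (algebraMap k K a) F).coeff m) * (t - algebraMap k L a) ^ m := by
  conv_lhs => rw [taylor_sum F a]
  rw [map_sum]
  refine Finset.sum_congr rfl fun m _ => ?_
  rw [map_mul, aeval_C, Polynomial.aeval_map_algebraMap, map_pow, map_sub, aeval_X, aeval_C]

theorem ge_taylor (P : Place k K) (F : K[X]) (a : k) (m : ℕ) :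
    Ge P (cnt P F) ((taylor (algebraMap k K a) F).coeff m) := by
  rw [taylor_coeff, eval_eq_sum_range]
  refine Ge.sum _ _ fun j _ => ?_
  rw [hasseDeriv_coeff]
  have h1 : Ge P 0 (algebraMap k K a ^ j) := by
    rw [← map_pow]; exact Ge.const _
  have h2 : Ge P 0 (((j + m).choose m : ℕ) : K) := by
    have := Ge.intCast (P := P) (((j + m).choose m : ℕ) : ℤ)
    simpa using this
  have h3 := (h2.mul (cnt_ge P F (j + m))).mul h1
  simpa using h3

/-- the total contact with the constants -/
def vs (V : Place k L) {q : ℕ} (a : Fin q → k) (t : L) : ℤ := ∑ i, vv V t (a i)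

/-- the contact of the regular derivatives -/
noncomputable def rh (V : Place k L) (e : ℕ) (P : Place k K) (F : K[X]) {q : ℕ} (a : Fin q → k)
    (t : L) : ℤ :=
  ∑ i, if 0 < vv V t (a i) then min (vv V t (a i)) (e * (ct P F (a i) - 1)) else 0

theorem vs_eq (V : Place k L) {q : ℕ} {a : Fin q → k} (ha : Function.Injective a) {t : L}
    (hta : ∀ i, t ≠ algebraMap k L (a i)) {i : Fin q} (hi : 0 < vv V t (a i)) :
    vs V a t = vv V t (a i) := by
  unfold vs
  refine Finset.sum_eq_single i (fun j _ hj => ?_) fun h => absurd (Finset.mem_univ i) h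
  exact vv_zero (fun h => hj (ha h).symm) (hta i) (hta j) hi

theorem rh_eq (V : Place k L) (e : ℕ) (P : Place k K) (F : K[X]) {q : ℕ} {a : Fin q → k}
    (ha : Function.Injective a) {t : L} (hta : ∀ i, t ≠ algebraMap k L (a i)) {i : Fin q}
    (hi : 0 < vv V t (a i)) :
    rh V e P F a t = min (vv V t (a i)) (e * (ct P F (a i) - 1)) := by
  unfold rh
  rw [Finset.sum_eq_single i, if_pos hi]
  · intro j _ hj
    rw [if_neg]
    rw [vv_zero (fun h => hj (ha h).symm) (hta i) (hta j) hi]
    exact lt_irrefl 0
  · exact fun h => absurd (Finset.mem_univ i) h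

section entry

variable {V : Place k L} {P : Place k K} {e : ℕ} {F : K[X]} {t : L}

theorem root_ne {a : k} (h0 : F.eval (algebraMap k K a) ≠ 0) (ht : aeval t F = 0) :
    t ≠ algebraMap k L a := by
  intro h
  rw [h, IsScalarTower.algebraMap_apply k K L, aeval_algebraMap_apply] at ht
  exact h0 ((map_eq_zero _).1 ht)

/-- the normalized Taylor coefficients -/
theorem exists_norm (ht : aeval t F = 0) (a : k) :
    ∃ (s : K) (g : ℕ → K), s ≠ 0 ∧ P.ord s = cnt P F ∧ (∀ m, Ge P 0 (g m)) ∧
      F.eval (algebraMap k K a) = s * g 0 ∧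
      (∑ m ∈ Finset.range (F.natDegree + 1), algebraMap K L (g m) * (t - algebraMap k L a) ^ m
        = 0) ∧
      ∀ D : Derivation k K K, En D F t = algebraMap K L s *
        ∑ m ∈ Finset.range (F.natDegree + 1),
          algebraMap K L (D (g m)) * (t - algebraMap k L a) ^ m := by
  obtain ⟨p, hp0, hp⟩ := P.surj
  have hpc0 : p ^ cnt P F ≠ 0 := zpow_ne_zero _ hp0
  have hpc : P.ord (p ^ cnt P F) = cnt P F := by rw [P.ord_zpow, hp, mul_one]
  set s : K := p ^ cnt P F with hs
  let g : ℕ → K := fun m => (taylor (algebraMap k K a) F).coeff m / s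
  have hg : ∀ m, (taylor (algebraMap k K a) F).coeff m = s * g m := fun m => by
    simp only [g]
    field_simp
  have hsum : ∑ m ∈ Finset.range (F.natDegree + 1),
      algebraMap K L (g m) * (t - algebraMap k L a) ^ m = 0 := by
    have h1 := aeval_taylor F t a
    rw [ht] at h1
    have h2 : algebraMap K L s * ∑ m ∈ Finset.range (F.natDegree + 1),
        algebraMap K L (g m) * (t - algebraMap k L a) ^ m = 0 := by
      rw [Finset.mul_sum, h1]
      refine Finset.sum_congr rfl fun m _ => ?_
      rw [hg, map_mul]
      ring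
    exact (mul_eq_zero.1 h2).resolve_left ((_root_.map_ne_zero _).2 hpc0)
  refine ⟨s, g, hpc0, hpc, fun m => ?_, ?_, hsum, fun D => ?_⟩
  · have h1 := ge_taylor P F a m
    rw [hg] at h1
    refine Ge.of_mul' hpc0 hpc ?_
    rwa [zero_add]
  · rw [← hg, taylor_coeff_zero]
  · rw [en_taylor D F t a]
    have h1 : ∀ m, algebraMap K L (D ((taylor (algebraMap k K a) F).coeff m)) *
        (t - algebraMap k L a) ^ m = algebraMap K L s * (algebraMap K L (D (g m)) *
          (t - algebraMap k L a) ^ m) + algebraMap K L (D s) * (algebraMap K L (g m) *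
          (t - algebraMap k L a) ^ m) := by
      intro m
      rw [hg, D.leibniz]
      simp only [smul_eq_mul, map_add, map_mul]
      ring
    rw [Finset.sum_congr rfl fun m _ => h1 m, Finset.sum_add_distrib, ← Finset.mul_sum,
      ← Finset.mul_sum, hsum, mul_zero, add_zero]

/-- the contact of a root is at most the contact of the polynomial -/
theorem vv_le_ct (hVP : Over V P e) (hF : F ≠ 0) (ht : aeval t F = 0) {a : k}
    (h0 : F.eval (algebraMap k K a) ≠ 0) (hv : 0 < vv V t a) : vv V t a ≤ e * ct P F a := by
  have hta := root_ne h0 ht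
  obtain ⟨s, g, hs0, hs, hg, hg0, hsum, -⟩ := exists_norm (P := P) ht a
  have htau := tau_of_vv V hta hv
  have hvi : vv V t a = V.ord (t - algebraMap k L a) := by
    unfold vv
    rw [htau, add_zero]
  rw [Finset.sum_range_succ'] at hsum
  have h1 : algebraMap K L (g 0) = - ∑ m ∈ Finset.range F.natDegree,
      algebraMap K L (g (m + 1)) * (t - algebraMap k L a) ^ (m + 1) := by
    rw [pow_zero, mul_one] at hsum
    linear_combination hsum
  have h2 : Ge V (vv V t a) (algebraMap K L (g 0)) := by
    rw [h1]
    refine Ge.neg (Ge.sum _ _ fun m _ => ?_)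
    have h3 := over_ge hVP (hg (m + 1))
    rw [mul_zero] at h3
    have h4 : Ge V (vv V t a) (t - algebraMap k L a) := Or.inr hvi.le
    have h5 := h3.mul (h4.pow (m + 1))
    refine h5.mono ?_
    push_cast
    have h6 : (0 : ℤ) ≤ m := Int.natCast_nonneg m
    nlinarith
  have hg00 : g 0 ≠ 0 := by
    intro h
    rw [hg0, h, mul_zero] at h0
    exact h0 rfl
  have h3 := h2.resolve_left ((_root_.map_ne_zero _).2 hg00)
  rw [hVP.2] at h3
  have h4 : ct P F a = P.ord (g 0) := by
    unfold ct
    rw [hg0, P.ord_mul hs0 hg00, hs]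
    ring
  rw [h4]
  exact h3

/-- **Local estimates** -/
theorem entry3 (hVP : Over V P e) (hF : F ≠ 0) (ht : aeval t F = 0) {q : ℕ} {a : Fin q → k}
    (ha : Function.Injective a) (h0 : ∀ i, F.eval (algebraMap k K (a i)) ≠ 0) :
    (∀ D, DKind true P D →
      Ge V (e * cnt P F - F.natDegree * tau V t + rh V e P F a t) (En D F t)) ∧
    (∀ D, DKind false P D →
      Ge V (e * cnt P F - F.natDegree * tau V t + vs V a t) (En D F t)) ∧
    (0 < vs V a t → ∀ D, DKind false P D →
      Ge V (e * cnt P F - F.natDegree * tau V t + (e + rh V e P F a t)) (En D F t)) ∧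
    0 ≤ vs V a t ∧ rh V e P F a t ≤ vs V a t ∧ vs V a t ≤ e + rh V e P F a t := by
  have hta : ∀ i, t ≠ algebraMap k L (a i) := fun i => root_ne (h0 i) ht
  have he : (0 : ℤ) < e := by exact_mod_cast hVP.1
  by_cases hall : ∀ i, vv V t (a i) = 0
  · have h1 : vs V a t = 0 := Finset.sum_eq_zero fun i _ => hall i
    have h2 : rh V e P F a t = 0 := Finset.sum_eq_zero fun i _ => by
      rw [if_neg]
      rw [hall i]
      exact lt_irrefl 0
    obtain ⟨s, g, hs0, hs, hg, hg0, hsum, hD⟩ := exists_norm (P := P) ht (0 : k)
    have h3 : ∀ (b : Bool) (D : Derivation k K K), DKind b P D →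
        Ge V (e * cnt P F - F.natDegree * tau V t + 0) (En D F t) := by
      intro b D hDD
      rw [hD]
      have h4 := over_ge hVP (Or.inr hs.ge : Ge P (cnt P F) s)
      have h5 : Ge V (0 - F.natDegree * tau V t) (ev L (F.natDegree + 1) (fun m => D (g m)) t) :=
        ge_ev V le_rfl _ (fun m _ => by
          have := over_ge hVP (hDD.int (hg m))
          rwa [mul_zero] at this) t
      have h6 : ∑ m ∈ Finset.range (F.natDegree + 1), algebraMap K L (D (g m)) *
          (t - algebraMap k L 0) ^ m = ev L (F.natDegree + 1) (fun m => D (g m)) t := by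
        rw [map_zero, sub_zero]
        rfl
      rw [h6]
      exact (h4.mul h5).mono (by linarith)
    rw [h1, h2]
    exact ⟨h3 true, h3 false, fun h => absurd h (lt_irrefl 0), le_rfl, le_rfl, by linarith⟩
  · push Not at hall
    obtain ⟨i, hi⟩ := hall
    have hiv : 0 < vv V t (a i) := lt_of_le_of_ne (vv_nonneg V (hta i)) (Ne.symm hi)
    have htau := tau_of_vv V (hta i) hiv
    have hvi : vv V t (a i) = V.ord (t - algebraMap k L (a i)) := by
      unfold vv
      rw [htau, add_zero]
    have hvC := vv_le_ct hVP hF ht (h0 i) hiv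
    rw [vs_eq V ha hta hiv, rh_eq V e P F ha hta hiv, htau]
    obtain ⟨s, g, hs0, hs, hg, hg0, hsum, hD⟩ := exists_norm (P := P) ht (a i)
    obtain ⟨v, hvdef⟩ : ∃ v, v = vv V t (a i) := ⟨_, rfl⟩
    rw [← hvdef] at hiv hvi hvC
    rw [← hvdef]
    have hx : Ge V v (t - algebraMap k L (a i)) := Or.inr hvi.le
    have hg00 : g 0 ≠ 0 := by
      intro h
      have h1 := h0 i
      rw [hg0, h, mul_zero] at h1
      exact h1 rfl
    have hCg : P.ord (g 0) = ct P F (a i) := by
      unfold ct
      rw [hg0, P.ord_mul hs0 hg00, hs]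
      ring
    obtain ⟨C, hC⟩ : ∃ C, C = ct P F (a i) := ⟨_, rfl⟩
    rw [← hC] at hvC hCg
    rw [← hC]
    have hC1 : 1 ≤ C := by
      by_contra hcon
      push Not at hcon
      have : (e : ℤ) * C ≤ 0 := mul_nonpos_of_nonneg_of_nonpos he.le (by omega)
      omega
    have hsV : Ge V (e * cnt P F) (algebraMap K L s) := over_ge hVP (Or.inr hs.ge)
    have hreg : ∀ (b : Bool) (D : Derivation k K K), DKind b P D →
        Ge V (e * cnt P F - F.natDegree * 0 + min v (e * (C - if b then 1 else 0)))
          (En D F t) := by
      intro b D hDD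
      rw [hD]
      have h5 : Ge V (min v (e * (C - if b then 1 else 0)))
          (∑ m ∈ Finset.range (F.natDegree + 1),
            algebraMap K L (D (g m)) * (t - algebraMap k L (a i)) ^ m) := by
        refine Ge.sum _ _ fun m _ => ?_
        rcases Nat.eq_zero_or_pos m with hm | hm
        · rw [hm, pow_zero, mul_one]
          exact (over_ge hVP (hDD.drop (Or.inr hCg.ge))).mono (min_le_right _ _)
        · have h6 := over_ge hVP (hDD.int (hg m))
          rw [mul_zero] at h6
          refine (h6.mul (hx.pow m)).mono ((min_le_left _ _).trans ?_)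
          have : (1 : ℤ) ≤ m := by exact_mod_cast hm
          rw [zero_add]
          nlinarith [mul_le_mul_of_nonneg_right this hiv.le]
      exact (hsV.mul h5).mono (by linarith)
    have hcase : ∀ m, Ge P 1 (g m) ∨ (g m ≠ 0 ∧ P.ord (g m) = 0) := by
      intro m
      by_cases h1 : g m = 0
      · exact Or.inl (Or.inl h1)
      · have h2 := (hg m).resolve_left h1
        by_cases h3 : P.ord (g m) = 0
        · exact Or.inr ⟨h1, h3⟩
        · exact Or.inl (Or.inr (by omega))
    have hunit : ∀ m < F.natDegree + 1, ¬ Ge P 1 (g m) → min (v + e) (e * C) ≤ m * v := by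
      by_contra hcon
      push Not at hcon
      have hex : ∃ m, m < F.natDegree + 1 ∧ ¬ Ge P 1 (g m) ∧ m * v < min (v + e) (e * C) := hcon
      classical
      obtain ⟨h1, h2, h3⟩ := Nat.find_spec hex
      have h4 : ∀ m < Nat.find hex, Ge P 1 (g m) := by
        intro m hm
        by_contra hcon2
        refine Nat.find_min hex hm ⟨hm.trans h1, hcon2, lt_of_le_of_lt ?_ h3⟩
        have : (m : ℤ) ≤ (Nat.find hex : ℕ) := by exact_mod_cast hm.le
        exact mul_le_mul_of_nonneg_right this hiv.le
      obtain ⟨m0, hm0⟩ : ∃ m0, m0 = Nat.find hex := ⟨_, rfl⟩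
      rw [← hm0] at h1 h2 h3 h4
      obtain ⟨h5, h6⟩ := (hcase m0).resolve_left h2
      rw [← Finset.add_sum_erase _ _ (Finset.mem_range.2 h1)] at hsum
      have h7 : Ge V (m0 * v + 1) (∑ m ∈ (Finset.range (F.natDegree + 1)).erase m0,
          algebraMap K L (g m) * (t - algebraMap k L (a i)) ^ m) := by
        refine Ge.sum _ _ fun m hm => ?_
        obtain ⟨hm1, hm2⟩ := Finset.mem_erase.1 hm
        rcases Nat.eq_zero_or_pos m with hmz | hmp
        · rw [hmz, pow_zero, mul_one]
          refine (over_ge hVP (Or.inr hCg.ge)).mono ?_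
          have := lt_of_lt_of_le h3 (min_le_right _ _)
          omega
        · rcases lt_or_gt_of_ne hm1 with hlt | hgt
          · have h8 := (over_ge hVP (h4 m hlt)).mul (hx.pow m)
            refine h8.mono ?_
            have h9 := lt_of_lt_of_le h3 (min_le_left _ _)
            have h10 : (1 : ℤ) ≤ m := by exact_mod_cast hmp
            nlinarith [mul_le_mul_of_nonneg_right h10 hiv.le]
          · have h8 := (over_ge hVP (hg m)).mul (hx.pow m)
            refine h8.mono ?_
            have h10 : (m0 : ℤ) + 1 ≤ m := by exact_mod_cast hgt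
            nlinarith [mul_le_mul_of_nonneg_right h10 hiv.le]
      have hx0 : t - algebraMap k L (a i) ≠ 0 := sub_ne_zero.2 (hta i)
      have h8 : Ge V (m0 * v + 1) (algebraMap K L (g m0) * (t - algebraMap k L (a i)) ^ m0) := by
        have h9 : algebraMap K L (g m0) * (t - algebraMap k L (a i)) ^ m0 =
            - ∑ m ∈ (Finset.range (F.natDegree + 1)).erase m0,
              algebraMap K L (g m) * (t - algebraMap k L (a i)) ^ m := by
          linear_combination hsum
        rw [h9]
        exact Ge.neg h7
      have h9 := h8.resolve_left (mul_ne_zero ((_root_.map_ne_zero _).2 h5) (pow_ne_zero _ hx0))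
      rw [V.ord_mul ((_root_.map_ne_zero _).2 h5) (pow_ne_zero _ hx0), V.ord_pow, hVP.2, h6,
        ← hvi] at h9
      omega
    have hlog2 : ∀ D : Derivation k K K, DKind false P D →
        Ge V (e * cnt P F - F.natDegree * 0 + min (v + e) (e * C)) (En D F t) := by
      intro D hDD
      rw [hD]
      have h5 : Ge V (min (v + e) (e * C))
          (∑ m ∈ Finset.range (F.natDegree + 1),
            algebraMap K L (D (g m)) * (t - algebraMap k L (a i)) ^ m) := by
        refine Ge.sum _ _ fun m hm => ?_
        rcases Nat.eq_zero_or_pos m with hm0 | hm0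
        · rw [hm0, pow_zero, mul_one]
          have h6 := hDD.drop (Or.inr hCg.ge : Ge P C (g 0))
          simp only [Bool.false_eq_true, if_false, sub_zero] at h6
          exact (over_ge hVP h6).mono (min_le_right _ _)
        · by_cases h7 : Ge P 1 (g m)
          · have h6 := hDD.drop h7
            simp only [Bool.false_eq_true, if_false, sub_zero] at h6
            refine ((over_ge hVP h6).mul (hx.pow m)).mono ((min_le_left _ _).trans ?_)
            have h10 : (1 : ℤ) ≤ m := by exact_mod_cast hm0
            nlinarith [mul_le_mul_of_nonneg_right h10 hiv.le]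
          · have h6 := over_ge hVP (hDD.int (hg m))
            rw [mul_zero] at h6
            refine (h6.mul (hx.pow m)).mono ?_
            rw [zero_add]
            exact hunit m (Finset.mem_range.1 hm) h7
      exact (hsV.mul h5).mono (by linarith)
    refine ⟨fun D hDD => ?_, fun D hDD => ?_, fun _ D hDD => ?_, hiv.le, min_le_left _ _, ?_⟩
    · have h1 := hreg true D hDD
      simpa using h1
    · refine (hlog2 D hDD).mono ?_
      have : v ≤ min (v + e) (e * C) := le_min (by omega) hvC
      linarith
    · refine (hlog2 D hDD).mono ?_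
      have : e + min v (e * (C - 1)) ≤ min (v + e) (e * C) := by
        refine le_min ?_ ?_
        · have := min_le_left v (e * (C - 1))
          linarith
        · have := min_le_right v (e * (C - 1))
          linarith
      linarith
    · rcases min_cases v (e * (C - 1)) with ⟨h, _⟩ | ⟨h, _⟩
      · rw [h]; linarith
      · rw [h]; linarith

end entry

end Pool.Agent.J4.H73.BF
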