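import Pool.Agent.Y216.VfA
import Pool.Agent.Y190.BV.Rad

/-!
Polynomials over a function field of one variable: the height is bounded by the Euler
characteristic.
-/

set_option autoImplicit false

open Polynomial FF Pool.Agent.W603.LV Pool.Agent.W603.PV Pool.Agent.W601.VF

namespace Pool.Agent.J4.H73.BF

open Pool.Agent.Y216

variable {k : Type} [Field k] {L : Type} [Field L] [Algebra k L] {n q : ℕ}

open Classical in
/-- At most `n` of the values have positive contact. -/
theorem card_contact {u v : Fin q → k} (huv : ∀ i j, i ≠ j → u i * v j ≠ u j * v i)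
    {f : Fin (n + 1) → L} (hf : ∃ j, f j ≠ 0) (P : Place k L) :
    (Finset.univ.filter fun i => pord P f < P.ord (lv (rnc n u v i) f)).card ≤ n := by
  by_contra hcon
  obtain ⟨T, hTJ, hTc⟩ := Finset.exists_subset_card_eq
    (s := Finset.univ.filter fun i => pord P f < P.ord (lv (rnc n u v i) f)) (n := n + 1) (by omega)
  have h1 := ge_of_indep (P := P) (N := pord P f + 1)
    (A := fun r => rnc n u v (T.orderEmbOfFin hTc r)) (x := f)
    (rnc_genPos huv _ (T.orderEmbOfFin hTc).injective) (fun r => by
      right
      have := hTJ (T.orderEmbOfFin_mem hTc r)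
      rw [Finset.mem_filter] at this
      omega)
  obtain ⟨l, hl, hlo⟩ := exists_pord P hf
  have h2 := (h1 l).resolve_left hl
  omega

variable [IsAlgClosed k] [CharZero k] [IsFF k L]

open Classical in
/-- The inequality with weights, with the Euler characteristic. -/
theorem rnc_euler {u v : Fin q → k} (huv : ∀ i j, i ≠ j → u i * v j ≠ u j * v i) {w : Fin q → ℝ}
    (hw : ∀ i, w i ≤ 1) (S : Finset (Place k L)) {n : ℕ} (hsum : 2 * (n : ℝ) < ∑ i, w i)
    {f : Fin (n + 1) → L} (hlast : f (Fin.last n) ≠ 0) (hsq : Squarefree (pol f))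
    (hne : ∀ i, lv (rnc n u v i) f ≠ 0)
    (hB : ∀ P ∉ S,
      ((Finset.univ.filter fun i => pord P f < P.ord (lv (rnc n u v i) f)).card : ℝ) ≤
      ∑ i, (1 - w i) * ((P.ord (lv (rnc n u v i) f) - pord P f : ℤ) : ℝ)) :
    (∑ i, w i - 2 * n) * (pht k f : ℝ) ≤
      n * ((max (canDeg k L + S.card) 0 : ℤ) : ℝ) := by
  have hχ : (0 : ℝ) ≤ ((max (canDeg k L + S.card) 0 : ℤ) : ℝ) := by
    exact_mod_cast le_max_right (canDeg k L + (S.card : ℤ)) 0
  induction n with
  | zero =>
    have h1 : pht k f = 0 := Pool.Agent.W601.VF.pht_const (l := 0) (by simpa using hlast)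
      (c := fun _ => 1) fun j => by
        rw [show j = 0 from Fin.ext (by have := j.2; omega), map_one, mul_one]
    rw [h1]
    simp
  | succ n ih =>
    by_cases hroot : ∃ b : k, (pol f).eval (algebraMap k L b) = 0
    · obtain ⟨b, hb⟩ := hroot
      obtain ⟨G, hG⟩ := dvd_iff_isRoot.2 (show (pol f).IsRoot (algebraMap k L b) from hb)
      have hF0 : pol f ≠ 0 := hsq.ne_zero
      have hG0 : G ≠ 0 := by
        rintro rfl
        exact hF0 (by rw [hG, mul_zero])
      have hGd : G.natDegree ≤ n := by
        have h1 := natDegree_pol_le f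
        rw [hG, natDegree_mul (X_sub_C_ne_zero _) hG0, natDegree_X_sub_C] at h1
        omega
      obtain ⟨g, hg⟩ : ∃ g : Fin (n + 1) → L, g = fun j : Fin (n + 1) => G.coeff (j : ℕ) :=
        ⟨_, rfl⟩
      have hGg : G = pol g := by
        rw [hg]
        exact eq_pol hGd
      have hfg : f = mulLin (algebraMap k L b) g := by
        apply pol_inj
        rw [pol_mulLin, ← hGg, hG]
      have hglast : g (Fin.last n) ≠ 0 := by
        rwa [hfg, mulLin_last] at hlast
      have hgsq : Squarefree (pol g) := by
        rw [hG, hGg] at hsq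
        exact hsq.of_mul_right
      have hlv : ∀ i, lv (rnc (n + 1) u v i) f =
          algebraMap k L (v i - b * u i) * lv (rnc n u v i) g := by
        intro i
        rw [lv_rnc, lv_rnc, hfg, bev_mulLin, map_sub, map_mul]
      have hc' : ∀ i, v i - b * u i ≠ 0 := by
        intro i h0
        apply hne i
        rw [hlv, h0, map_zero, zero_mul]
      have hgne : ∀ i, lv (rnc n u v i) g ≠ 0 := by
        intro i h0
        apply hne i
        rw [hlv, h0, mul_zero]
      have hord : ∀ (P : Place k L) i, P.ord (lv (rnc (n + 1) u v i) f) =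
          P.ord (lv (rnc n u v i) g) := by
        intro P i
        rw [hlv, P.ord_mul ((_root_.map_ne_zero _).2 (hc' i)) (hgne i), P.ord_const (hc' i),
          zero_add]
      have hpord : ∀ P : Place k L, pord P f = pord P g := fun P => by
        rw [hfg]
        exact pord_mulLin P hglast
      have hpht : pht k f = pht k g := by
        unfold pht
        simp only [hpord]
      simp only [hord, hpord] at hB
      have h1 := ih (by push_cast at hsum; linarith) hglast hgsq hgne hB
      have h2 : (0 : ℝ) ≤ (pht k g : ℝ) := by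
        exact_mod_cast pht_nonneg' (k := k) ⟨_, hglast⟩
      have e : ((n + 1 : ℕ) : ℝ) = n + 1 := by push_cast; ring
      rw [hpht, e]
      nlinarith
    · push Not at hroot
      obtain ⟨D, hD⟩ := exists_der (k := k) (K := L)
      have hR := res_ne_zero hD hlast hsq hroot
      have hq : n + 1 + (n + 1) ≤ q := by
        have h1 : ∑ i, w i ≤ q := by
          calc ∑ i, w i ≤ ∑ _i : Fin q, (1 : ℝ) := Finset.sum_le_sum fun i _ => hw i
            _ = q := by simp
        have h2 : ((n + 1 + (n + 1) : ℕ) : ℝ) < q := by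
          push_cast at hsum ⊢
          linarith
        exact_mod_cast h2.le
      have h1 := glob_trunc (b := n + 1) hD ⟨_, hlast⟩ hne
        (fun P => rnc_local P hD ⟨_, hlast⟩ huv hq hne hR) hw S hB
      refine h1.trans ?_
      have h2 : ∑ P ∈ S, ((Finset.univ.filter fun i =>
          pord P f < P.ord (lv (rnc (n + 1) u v i) f)).card : ℝ) ≤
          ∑ P ∈ S, ((n + 1 : ℕ) : ℝ) :=
        Finset.sum_le_sum fun P _ => by exact_mod_cast card_contact huv ⟨_, hlast⟩ P
      rw [Finset.sum_const, nsmul_eq_mul] at h2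
      have h3 : (canDeg k L : ℝ) + S.card ≤ ((max (canDeg k L + S.card) 0 : ℤ) : ℝ) := by
        exact_mod_cast le_max_left (canDeg k L + (S.card : ℤ)) 0
      have h4 : (0 : ℝ) ≤ ((n + 1 : ℕ) : ℝ) := by positivity
      nlinarith [mul_le_mul_of_nonneg_left h3 h4]

end Pool.Agent.J4.H73.BF
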