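import Pool.Agent.J4.H73.BF.Restrict

/-!
Varieties with many orbifold polynomials: all subvarieties outside a proper closed subset.
-/

set_option autoImplicit false
set_option linter.unusedSectionVars false
set_option linter.overlappingInstances false

open FF IntermediateField

namespace Pool.Agent.J4.H73.BF

open Pool.Agent.N111.FT
open Pool.Agent.W603.LV (canDeg)
open Pool.Agent.W603.PV (pord pht)
open Pool.Agent.W602.GT (IsForm coords GeneralType LogGeneralType Divisorial)
open Pool.Agent.W602.RG (PseudoGeomHyp)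
open Pool.Agent.Y216 (OnVar CurveBound pointed_of_bound)

variable {k L : Type} [Field k] [IsAlgClosed k] [CharZero k] [Field L] [Algebra k L] {N : ℕ}
  {u : Fin (N + 1) → L} {B : MvPolynomial (Fin (N + 1)) k} {b : ℕ}

theorem curveTo_trans {K : Type} [Field K] [Algebra k K] {v : Fin (N + 1) → K}
    (hv : OnVar k u v) {E : Type} [Field E] [Algebra k E] {S : Finset (Place k E)}
    {f : Fin (N + 1) → E} (h : CurveTo v B b S f) : CurveTo u B b S f :=
  ⟨onVar_trans hv h.1, h.2⟩

/-- **Lang-Vojta for all subvarieties outside a proper closed subset.** -/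
theorem lang_vojta (hu : u ≠ 0) (hgen : coords k u = ⊤)
    (hh : ∀ t : L, t ∈ aclo k (Values u B b)) :
    ∃ G : MvPolynomial (Fin (N + 1)) k, IsForm G ∧ MvPolynomial.aeval u G ≠ 0 ∧ ∃ A : ℕ,
      ∀ (K : Type) [Field K] [Algebra k K] (v : Fin (N + 1) → K) (w : ℕ), OnVar k u v →
        coords k v = ⊤ → Algebra.trdeg k K = w → 1 ≤ w → MvPolynomial.aeval v B ≠ 0 →
        MvPolynomial.aeval v G ≠ 0 → LogGT v B b w ∧
          ∀ (E : Type) [Field E] [Algebra k E] [IsFF k E] (S : Finset (Place k E))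
            (f : Fin (N + 1) → E), CurveTo v B b S f → MvPolynomial.aeval f G ≠ 0 →
            pht k f ≤ A * max (canDeg k E + S.card) 0 := by
  obtain ⟨G1, ⟨d1, hG1⟩, hGu1, A, hA⟩ := joint_bound hu hgen hh
  obtain ⟨G2, ⟨d2, hG2⟩, hGu2, h2⟩ := values_restrict hu hgen hh
  refine ⟨G1 * G2, ⟨_, hG1.mul hG2⟩, by rw [map_mul]; exact mul_ne_zero hGu1 hGu2, A, ?_⟩
  intro K _ _ v w hv hvgen htr hw hvB hvG
  rw [map_mul] at hvG
  refine ⟨?_, fun E _ _ _ S f hf hfG => ?_⟩
  · have hv0 : v ≠ 0 := by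
      obtain ⟨j, hj⟩ := hv.1
      intro h
      exact hj (by rw [h]; rfl)
    exact log_of_values hv0 hvgen hvB hw htr (h2 K v hv hvgen (right_ne_zero_of_mul hvG))
  · rw [map_mul] at hfG
    exact hA E S f (curveTo_trans hv hf) (left_ne_zero_of_mul hfG)

/-- in the projective case the boundary is empty -/
theorem gt_of_log {w : ℕ} (h : LogGT u (1 : MvPolynomial (Fin (N + 1)) k) 0 w) :
    GeneralType k L w := by
  obtain ⟨h1, M, hM, ω, h2, h3, h4, h5⟩ := h
  refine ⟨h1, M, hM, ω, h2, fun P hP j => h4 P hP ?_ j, h5⟩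
  intro hP
  unfold boundary at hP
  rw [Set.mem_ofPred_eq, map_one, P.ord_one] at hP
  simp at hP

/-- **General type and pointed maps for all subvarieties outside a proper closed subset.** -/
theorem pointed (hu : u ≠ 0) (hgen : coords k u = ⊤)
    (hh : ∀ t : L, t ∈ aclo k (Values u (1 : MvPolynomial (Fin (N + 1)) k) 0)) :
    ∃ G : MvPolynomial (Fin (N + 1)) k, IsForm G ∧ MvPolynomial.aeval u G ≠ 0 ∧
      ∀ (K : Type) [Field K] [Algebra k K] (v : Fin (N + 1) → K) (w : ℕ), OnVar k u v →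
        coords k v = ⊤ → Algebra.trdeg k K = w → 1 ≤ w → MvPolynomial.aeval v G ≠ 0 →
        GeneralType k K w ∧ PseudoGeomHyp k v := by
  obtain ⟨G2, hG2, hGu2, h2⟩ := values_restrict hu hgen hh
  refine ⟨G2, hG2, hGu2, fun K _ _ v w hv hvgen htr hw hvG => ?_⟩
  have hv0 : v ≠ 0 := by
    obtain ⟨j, hj⟩ := hv.1
    intro h
    exact hj (by rw [h]; rfl)
  have h3 := h2 K v hv hvgen hvG
  exact ⟨gt_of_log (log_of_values hv0 hvgen (by rw [map_one]; exact one_ne_zero) hw htr h3),
    pointed_of_bound (curve_of_linear (joint_bound hv0 hvgen h3))⟩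

end Pool.Agent.J4.H73.BF
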