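import Pool.Agent.Y190.BV.Rad

/-!
Pluricanonical forms from the roots of several irreducible polynomials over a function field.
-/

set_option autoImplicit false

open FF Pool.Agent.W603.LV Pool.Agent.W602.GT Polynomial

namespace Pool.Agent.J4.H73.BF

open Pool.Agent.Y190.BV hiding den mat phi mat_mul phi_pluri ord_den ge_phi reg_phi

variable {k K L : Type} [Field k] [Field K] [Field L] [Algebra k K] [Algebra k L] [Algebra K L]
  [IsScalarTower k K L]

section galois

variable [FiniteDimensional K L] [IsGalois K L]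

/-- the sum over the Galois group of the pole orders is the same for all conjugates -/
theorem tau_conj {F : K[X]} (hF : Irreducible F) {t t' : L} (ht : aeval t F = 0)
    (ht' : aeval t' F = 0) (W : Place k L) :
    ∑ g : L ≃ₐ[K] L, tau (W.comp (rs g)) t' = ∑ g : L ≃ₐ[K] L, tau (W.comp (rs g)) t := by
  have h1 : minpoly K t' = minpoly K t := by
    rw [← minpoly.eq_of_irreducible hF ht, ← minpoly.eq_of_irreducible hF ht']
  obtain ⟨h, hh⟩ := (Normal.minpoly_eq_iff_mem_orbit L).1 h1
  have hh' : h t = t' := hh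
  rw [← Equiv.sum_comp (Equiv.mulRight h) fun g : L ≃ₐ[K] L => tau (W.comp (rs g)) t]
  refine Finset.sum_congr rfl fun g _ => ?_
  rw [← hh']
  rfl

theorem tau_avg {F : K[X]} (hF : Irreducible F) {t : L} (ht : aeval t F = 0) {d : ℕ}
    (r : Fin d → L) (hroot : ∀ i, aeval (r i) F = 0) (W : Place k L) :
    ∑ g : L ≃ₐ[K] L, TT (W.comp (rs g)) r = d * ∑ g : L ≃ₐ[K] L, tau (W.comp (rs g)) t := by
  unfold TT
  rw [Finset.sum_comm, Finset.sum_congr rfl fun i _ => tau_conj hF ht (hroot i) W,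
    Finset.sum_const, Finset.card_univ, Fintype.card_fin, nsmul_eq_mul]

end galois

variable {σ ι : Type} [Fintype ι] {w : ℕ} (F : σ → K[X]) {q : σ → ℕ} (a : ∀ s, Fin (q s) → k)
  (A : ℕ) (c : ∀ s, Fin (q s) → ℕ) (lab : ι → Fin w → σ) (J : ι → Fin w → L)

/-- the denominator of the forms -/
noncomputable def den : K :=
  ∏ l, ∏ j, ((F (lab l j)).leadingCoeff ^ (A * Module.finrank K L) *
    ∏ i, (Algebra.norm K (J l j - algebraMap k L (a (lab l j) i))) ^ c (lab l j) i)

/-- the matrix of the values of the derived polynomials -/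
noncomputable def mat (lb : Fin w → σ) (x : Fin w → L) (D : Fin w → Derivation k K K) :
    Matrix (Fin w) (Fin w) L :=
  Matrix.of fun i j => ev L ((F (lb j)).natDegree + 1) (fun m => D i ((F (lb j)).coeff m)) (x j)

/-- the forms -/
noncomputable def phi (ψ : K) (D : Fin w → Derivation k K K) : K :=
  ψ / den F a A c lab J * (∏ l, Algebra.norm K (mat F (lab l) (J l) D).det) ^ A

theorem mat_mul (lb : Fin w → σ) (x : Fin w → L) (B : Matrix (Fin w) (Fin w) K)
    (D : Fin w → Derivation k K K) :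
    mat F lb x (fun i => ∑ l, B i l • D l) = (B.map (algebraMap K L)) * mat F lb x D := by
  ext i j
  rw [Matrix.mul_apply]
  change ev L _ (fun m => (∑ l, B i l • D l) ((F (lb j)).coeff m)) (x j) =
    ∑ l, algebraMap K L (B i l) * ev L _ (fun m => D l ((F (lb j)).coeff m)) (x j)
  have h0 : ∀ (s : Finset (Fin w)) (x : K), (∑ l ∈ s, B i l • D l) x
      = ∑ l ∈ s, B i l * D l x := by
    intro s x
    classical
    induction s using Finset.induction_on with
    | empty => simp
    | insert i s hi ih =>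
      rw [Finset.sum_insert hi, Finset.sum_insert hi, Derivation.add_apply, ih]
      rfl
  unfold ev
  simp only [h0, map_sum, map_mul, Finset.sum_mul, Finset.mul_sum]
  rw [Finset.sum_comm]
  refine Finset.sum_congr rfl fun l _ => Finset.sum_congr rfl fun m _ => ?_
  ring

theorem phi_pluri [FiniteDimensional K L] [IsGalois K L] (ψ : K) :
    IsPluri (A * (Fintype.card ι * Module.finrank K L)) (phi F a A c lab J ψ) := by
  intro B D
  unfold phi
  have h1 : ∀ l, Algebra.norm K (mat F (lab l) (J l) (fun i => ∑ j, B i j • D j)).det =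
      B.det ^ Module.finrank K L * Algebra.norm K (mat F (lab l) (J l) D).det := by
    intro l
    rw [mat_mul, Matrix.det_mul, map_mul]
    congr 1
    have : (B.map (algebraMap K L)).det = algebraMap K L B.det := by
      rw [RingHom.map_det]; rfl
    rw [this, Algebra.norm_algebraMap]
  rw [Finset.prod_congr rfl fun l _ => h1 l, Finset.prod_mul_distrib, Finset.prod_const,
    Finset.card_univ, mul_pow, ← pow_mul, ← pow_mul,
    show Module.finrank K L * (Fintype.card ι * A) = A * (Fintype.card ι * Module.finrank K L) by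
      ring]
  ring

variable [FiniteDimensional K L] [IsGalois K L]

theorem ord_den {W : Place k L} (hF : ∀ s, F s ≠ 0)
    (hJ : ∀ l j i, J l j ≠ algebraMap k L (a (lab l j) i)) :
    den F a A c lab J ≠ 0 ∧ W.ord (algebraMap K L (den F a A c lab J)) =
      ∑ l, ∑ j, ∑ s : L ≃ₐ[K] L, ((A : ℤ) * W.ord (algebraMap K L (F (lab l j)).leadingCoeff) +
        ∑ i, (c (lab l j) i : ℤ) *
          (W.comp (rs s)).ord (J l j - algebraMap k L (a (lab l j) i))) := by
  have hN : ∀ l j i, Algebra.norm K (J l j - algebraMap k L (a (lab l j) i)) ≠ 0 := fun l j i =>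
    norm_ne (sub_ne_zero.2 (hJ l j i))
  have hl : ∀ s, (F s).leadingCoeff ≠ 0 := fun s => leadingCoeff_ne_zero.2 (hF s)
  have h1 : ∀ l j, (F (lab l j)).leadingCoeff ^ (A * Module.finrank K L) ≠ 0 := fun l j =>
    pow_ne_zero _ (hl _)
  have h2 : ∀ l j, (∏ i, (Algebra.norm K (J l j - algebraMap k L (a (lab l j) i))) ^
      c (lab l j) i) ≠ 0 := fun l j =>
    Finset.prod_ne_zero_iff.2 fun i _ => pow_ne_zero _ (hN l j i)
  have h3 : ∀ l j, ((F (lab l j)).leadingCoeff ^ (A * Module.finrank K L) *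
    ∏ i, (Algebra.norm K (J l j - algebraMap k L (a (lab l j) i))) ^ c (lab l j) i) ≠ 0 :=
    fun l j => mul_ne_zero (h1 l j) (h2 l j)
  refine ⟨Finset.prod_ne_zero_iff.2 fun l _ => Finset.prod_ne_zero_iff.2 fun j _ => h3 l j, ?_⟩
  unfold den
  rw [map_prod, ord_prod' W _ _ fun l _ => by
    rw [Ne, map_eq_zero]
    exact Finset.prod_ne_zero_iff.2 fun j _ => h3 l j]
  refine Finset.sum_congr rfl fun l _ => ?_
  rw [map_prod, ord_prod' W _ _ fun j _ => by
    rw [Ne, map_eq_zero]
    exact h3 l j]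
  refine Finset.sum_congr rfl fun j _ => ?_
  rw [map_mul, W.ord_mul ((_root_.map_ne_zero _).2 (h1 l j)) ((_root_.map_ne_zero _).2 (h2 l j)), map_pow,
    W.ord_pow, map_prod, ord_prod' W _ _ fun i _ => by
      rw [Ne, map_eq_zero]
      exact pow_ne_zero _ (hN l j i)]
  have h5 : Fintype.card (L ≃ₐ[K] L) = Module.finrank K L := by
    rw [← Nat.card_eq_fintype_card]
    exact IsGalois.card_aut_eq_finrank K L
  rw [Finset.sum_add_distrib, Finset.sum_const, Finset.card_univ, h5, nsmul_eq_mul,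
    Finset.sum_comm]
  congr 1
  · push_cast
    ring
  · refine Finset.sum_congr rfl fun i _ => ?_
    rw [map_pow, W.ord_pow, ord_norm (sub_ne_zero.2 (hJ l j i)), Finset.mul_sum]

/-- **The forms have no poles.** -/
theorem ge_phi {W : Place k L} {P : Place k K} {e : ℕ} (hWP : Over W P e)
    {b : Bool} (D : Fin w → Derivation k K K) (hD : ∀ i, DKind b P (D i))
    (hirr : ∀ s, Irreducible (F s)) (hsep : ∀ s, (F s).Separable)
    (hs : ∀ s, ((F s).map (algebraMap K L)).Splits)
    (ha : ∀ s, Function.Injective (a s)) (hcA : ∀ s i, c s i ≤ A)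
    (h0 : ∀ s i, (F s).eval (algebraMap k K (a s i)) ≠ 0)
    (hram : b = true → ∀ s i, ct P (F s) (a s i) = 0 ∨
      (A : ℤ) ≤ ((A : ℤ) - c s i) * ct P (F s) (a s i))
    (hroot : ∀ l j, aeval (J l j) (F (lab l j)) = 0)
    (hbound : ∀ s, 2 * A * (F s).natDegree < ∑ i, c s i) (l0 : ι) (j0 : Fin w)
    (ψ : K) (hψ : Ge W (- ∑ g : L ≃ₐ[K] L, tau (W.comp (rs g)) (J l0 j0)) (algebraMap K L ψ)) :
    Ge W 0 (algebraMap K L (phi F a A c lab J ψ D)) := by
  classical
  have hF0 : ∀ s, F s ≠ 0 := fun s => (hirr s).ne_zero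
  have hroot' : ∀ l j, ev L ((F (lab l j)).natDegree + 1) (F (lab l j)).coeff (J l j) = 0 := by
    intro l j
    rw [ev_eq_aeval]; exact hroot l j
  have hJa : ∀ l j i, J l j ≠ algebraMap k L (a (lab l j) i) := by
    intro l j i h
    have h1 := hroot' l j
    rw [h, ev_const, map_eq_zero, ev_eq_eval] at h1
    exact h0 _ i h1
  have hent : ∀ (g : L ≃ₐ[K] L) (l : ι) (j : Fin w), ∃ N : ℤ,
      (∀ D : Derivation k K K, DKind b P D →
        Ge (W.comp (rs g)) N (ev L ((F (lab l j)).natDegree + 1)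
          (fun m => D ((F (lab l j)).coeff m)) (J l j))) ∧
      (A : ℤ) * (e * cnt P (F (lab l j)) - (F (lab l j)).natDegree *
        tau (W.comp (rs g)) (J l j)) +
        ∑ i, (c (lab l j) i : ℤ) * vv (W.comp (rs g)) (J l j) (a (lab l j) i) ≤ A * N :=
    fun g l j => entry (over_rs hWP g) (F (lab l j)).coeff (fun m _ => cnt_ge P _ m) _
      (ha _) A _ (hcA _) (fun i => by rw [ev_eq_eval]; exact h0 _ i) (fun hb i => by
        rw [ev_eq_eval]
        rcases hram hb (lab l j) i with h | h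
        · left
          unfold ct at h
          omega
        · exact Or.inr h) (J l j) (hroot' l j)
  choose N hN1 hN2 using hent
  obtain ⟨hden0, hden⟩ := ord_den (W := W) F a A c lab J hF0 hJa
  unfold phi
  rw [map_mul, map_div₀, map_pow, map_prod]
  have h1 := ge_div ((_root_.map_ne_zero (algebraMap K L)).2 hden0) hψ
  have h2 : Ge W (∑ l, ∑ g : L ≃ₐ[K] L, ∑ j, N g l j)
      (∏ l, algebraMap K L (Algebra.norm K (mat F (lab l) (J l) D).det)) := by
    refine Ge.prod _ _ _ fun l _ => ?_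
    refine ge_norm _ fun g => ?_
    refine ge_det _ _ _ (fun i j => N g l j) (fun i j => ?_) (fun σ => le_rfl)
    exact hN1 g l j (D i) (hD i)
  refine (h1.mul (h2.pow A)).mono ?_
  rw [hden]
  -- the main inequality
  have h3 : (A : ℤ) * ∑ l, ∑ g : L ≃ₐ[K] L, ∑ j, N g l j =
      ∑ l, ∑ j, ∑ g : L ≃ₐ[K] L, (A : ℤ) * N g l j := by
    rw [Finset.mul_sum]
    refine Finset.sum_congr rfl fun l _ => ?_
    rw [Finset.sum_comm, Finset.mul_sum]
    refine Finset.sum_congr rfl fun j _ => ?_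
    rw [Finset.mul_sum]
  rw [h3]
  have hS0 : ∀ l j, 0 ≤ ∑ g : L ≃ₐ[K] L, tau (W.comp (rs g)) (J l j) := fun l j =>
    Finset.sum_nonneg fun g _ => tau_nonneg _ _
  have hmain : ∀ l j, ∑ g : L ≃ₐ[K] L, tau (W.comp (rs g)) (J l j) +
      ∑ g : L ≃ₐ[K] L, ((A : ℤ) * W.ord (algebraMap K L (F (lab l j)).leadingCoeff) +
        ∑ i, (c (lab l j) i : ℤ) *
          (W.comp (rs g)).ord (J l j - algebraMap k L (a (lab l j) i))) ≤
      ∑ g : L ≃ₐ[K] L, (A : ℤ) * N g l j := by
    intro l j
    obtain ⟨r, hr, hrr, hcoef⟩ := exists_roots (L := L) (F (lab l j)) (hsep _) (hs _)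
    obtain ⟨m0, hm0, hm1⟩ := cnt_att P (hF0 (lab l j))
    have h4 : ∀ g : L ≃ₐ[K] L,
        (A : ℤ) * W.ord (algebraMap K L (F (lab l j)).leadingCoeff) +
        ∑ i, (c (lab l j) i : ℤ) *
          (W.comp (rs g)).ord (J l j - algebraMap k L (a (lab l j) i)) +
        ((∑ i, (c (lab l j) i : ℤ) - A * (F (lab l j)).natDegree) *
          tau (W.comp (rs g)) (J l j) - A * TT (W.comp (rs g)) r) ≤ (A : ℤ) * N g l j := by
      intro g
      have h5 := hN2 g l j
      set V := W.comp (rs g) with hV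
      have hVP : Over V P e := over_rs hWP g
      have hlV : V.ord (algebraMap K L (F (lab l j)).leadingCoeff) =
          W.ord (algebraMap K L (F (lab l j)).leadingCoeff) := by
        rw [hVP.2, hWP.2]
      have hgc := ge_c0 hVP hm0 hm1 r hcoef
      rw [hlV] at hgc
      have h6 : ∑ i, (c (lab l j) i : ℤ) * vv V (J l j) (a (lab l j) i) =
          ∑ i, (c (lab l j) i : ℤ) * V.ord (J l j - algebraMap k L (a (lab l j) i)) +
          (∑ i, (c (lab l j) i : ℤ)) * tau V (J l j) := by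
        unfold vv
        simp only [mul_add, Finset.sum_add_distrib, Finset.sum_mul]
      rw [h6] at h5
      have h7 : (A : ℤ) * (W.ord (algebraMap K L (F (lab l j)).leadingCoeff) - TT V r) ≤
          A * (e * cnt P (F (lab l j))) :=
        mul_le_mul_of_nonneg_left hgc (by positivity)
      linarith
    have h8 := Finset.sum_le_sum fun (g : L ≃ₐ[K] L) (_ : g ∈ Finset.univ) => h4 g
    refine le_trans ?_ h8
    have h12 : ∑ g : L ≃ₐ[K] L, ((∑ i, (c (lab l j) i : ℤ) - A * (F (lab l j)).natDegree) *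
          tau (W.comp (rs g)) (J l j) - A * TT (W.comp (rs g)) r) =
        (∑ i, (c (lab l j) i : ℤ) - A * (F (lab l j)).natDegree) *
          (∑ g : L ≃ₐ[K] L, tau (W.comp (rs g)) (J l j)) - A * ((F (lab l j)).natDegree *
            ∑ g : L ≃ₐ[K] L, tau (W.comp (rs g)) (J l j)) := by
      rw [Finset.sum_sub_distrib, ← Finset.mul_sum, ← Finset.mul_sum,
        tau_avg (hirr _) (hroot l j) r hrr W]
    rw [Finset.sum_add_distrib (g := fun g : L ≃ₐ[K] L =>
      ((∑ i, (c (lab l j) i : ℤ) - A * (F (lab l j)).natDegree) *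
          tau (W.comp (rs g)) (J l j) - A * TT (W.comp (rs g)) r)), h12]
    have hc1 : (2 * (A : ℤ) * (F (lab l j)).natDegree) + 1 ≤ ∑ i, (c (lab l j) i : ℤ) := by
      exact_mod_cast hbound (lab l j)
    have h9 := hS0 l j
    nlinarith
  have h10 : ∑ g : L ≃ₐ[K] L, tau (W.comp (rs g)) (J l0 j0) ≤
      ∑ l, ∑ j, ∑ g : L ≃ₐ[K] L, tau (W.comp (rs g)) (J l j) := by
    refine le_trans ?_ (Finset.single_le_sum (f := fun l => ∑ j, ∑ g : L ≃ₐ[K] L,
      tau (W.comp (rs g)) (J l j)) (fun l _ => Finset.sum_nonneg fun j _ => hS0 l j)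
      (Finset.mem_univ l0))
    exact Finset.single_le_sum (f := fun j => ∑ g : L ≃ₐ[K] L,
      tau (W.comp (rs g)) (J l0 j)) (fun j _ => hS0 l0 j) (Finset.mem_univ j0)
  have h11 := Finset.sum_le_sum fun l (_ : l ∈ Finset.univ) =>
    Finset.sum_le_sum fun j (_ : j ∈ Finset.univ) => hmain l j
  simp only [Finset.sum_add_distrib] at h11 ⊢
  linarith

/-- The forms are regular or logarithmic at `P`. -/
theorem reg_phi [CharZero k] {P : Place k K}
    {b : Bool} (D : Fin w → Derivation k K K) (hD : ∀ i, DKind b P (D i))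
    (hirr : ∀ s, Irreducible (F s)) (hsep : ∀ s, (F s).Separable)
    (hs : ∀ s, ((F s).map (algebraMap K L)).Splits)
    (ha : ∀ s, Function.Injective (a s)) (hcA : ∀ s i, c s i ≤ A)
    (h0 : ∀ s i, (F s).eval (algebraMap k K (a s i)) ≠ 0)
    (hram : b = true → ∀ s i, ct P (F s) (a s i) = 0 ∨
      (A : ℤ) ≤ ((A : ℤ) - c s i) * ct P (F s) (a s i))
    (hroot : ∀ l j, aeval (J l j) (F (lab l j)) = 0)
    (hbound : ∀ s, 2 * A * (F s).natDegree < ∑ i, c s i)
    (hcov : ∀ s, ∃ l j, lab l j = s) (l0 : ι) (j0 : Fin w)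
    (ψ : K) (hψ : ψ = 1 ∨ ∃ (s : σ) (t : L) (y : k), aeval t (F s) = 0 ∧
      ψ = Algebra.norm K (t - algebraMap k L y)) :
    P.Reg (phi F a A c lab J ψ D) := by
  classical
  obtain ⟨S, T, _, hT, hsum⟩ := exists_places_over (K' := L) P
  have hSne : S.Nonempty := by
    by_contra hcon
    rw [Finset.not_nonempty_iff_eq_empty] at hcon
    rw [hcon, Finset.sum_empty] at hsum
    have : 0 < Module.finrank K L := Module.finrank_pos
    omega
  obtain ⟨W, hW⟩ := hSne
  obtain ⟨e, hWP, _⟩ := hT W hW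
  rw [← hWP.reg]
  rcases hψ with rfl | ⟨s, t, y, ht, rfl⟩
  · refine ge_phi F a A c lab J hWP D hD hirr hsep hs ha hcA h0 hram hroot hbound l0 j0 1 ?_
    rw [map_one]
    have : 0 ≤ ∑ g : L ≃ₐ[K] L, tau (W.comp (rs g)) (J l0 j0) :=
      Finset.sum_nonneg fun g _ => tau_nonneg _ _
    exact Ge.one.mono (by omega)
  · obtain ⟨l, j, hlj⟩ := hcov s
    refine ge_phi F a A c lab J hWP D hD hirr hsep hs ha hcA h0 hram hroot hbound l j _ ?_
    have h1 := hroot l j
    rw [hlj] at h1
    rw [← tau_conj (hirr s) h1 ht W, ← Finset.sum_neg_distrib]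
    exact ge_norm _ fun g => ge_sub_const _ t y

end Pool.Agent.J4.H73.BF
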