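import Pool.Agent.J4.H73.BF.Sum
import Pool.Agent.J4.H73.BF.Det
import Pool.Agent.J4.H73.BF.Energy

/-!
The fields of the coefficients of the layers.
-/

set_option autoImplicit false
set_option linter.unusedSectionVars false

open FF Pool.Agent.W603.LV Pool.Agent.W602.GT Polynomial

namespace Pool.Agent.J4.H73.BF

open Pool.Agent.Y190.BV hiding den mat phi mat_mul phi_pluri ord_den ge_phi reg_phi

variable {k K L : Type} [Field k] [Field K] [Field L] [Algebra k K] [Algebra k L] [Algebra K L]
  [IsScalarTower k K L]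

/-- the transcendence degree of a field contained in the closure of a finite family -/
theorem trdeg_le_of_closure (K' : IntermediateField k K) {w : ℕ} (x : Fin w → L)
    (A : Set (Fin w)) [DecidablePred (· ∈ A)]
    (h : ∀ y ∈ K', IsAlgebraic (Algebra.adjoin k (x '' A)) (algebraMap K L y)) :
    Algebra.trdeg k K' ≤ (Fintype.card {j // j ∈ A} : ℕ) := by
  classical
  obtain ⟨B, hB⟩ := exists_isTranscendenceBasis k K'
  let f : K' →ₐ[k] L := (IsScalarTower.toAlgHom k K L).comp K'.val
  have hind : AlgebraicIndependent k (fun b : B => f b) :=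
    hB.1.map' (f := f) f.toRingHom.injective
  have hI : (AlgebraicIndependent.matroid k L).Indep (Set.range fun b : B => f b) := by
    rw [AlgebraicIndependent.matroid_indep_iff]
    exact hind.to_subtype_range
  have hsub : (Set.range fun b : B => f b) ⊆
      (AlgebraicIndependent.matroid k L).closure (x '' A) := by
    rintro _ ⟨b, rfl⟩
    rw [mem_cl]
    exact h _ b.1.2
  have h1 := hI.encard_le_eRk_of_subset hsub
  rw [Matroid.eRk_closure_eq] at h1
  have h2 := h1.trans (Matroid.eRk_le_encard _ _)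
  have h3 : (x '' A).encard ≤ (Fintype.card {j // j ∈ A} : ℕ) := by
    refine (Set.encard_image_le x A).trans (le_of_eq ?_)
    rw [Set.encard_eq_coe_toFinset_card, Set.toFinset_card]
  have h4 := h2.trans h3
  have hinj : Function.Injective fun b : B => f b := hind.injective
  have h5 : (Set.range fun b : B => f b).encard = ENat.card B := by
    rw [← Set.image_univ, hinj.encard_image, Set.encard_univ]
  rw [h5] at h4
  rw [← hB.cardinalMk_eq_trdeg]
  have hfin : Finite B := by
    rw [← ENat.card_lt_top]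
    exact lt_of_le_of_lt h4 (ENat.natCast_lt_top _)
  have := Fintype.ofFinite B
  rw [ENat.card_eq_coe_fintype_card] at h4
  rw [Cardinal.mk_fintype]
  exact_mod_cast h4

variable {σ : Type} [Fintype σ] (Δ : Dt k K σ) (lay : Lb Δ.τ → ℕ)

/-- the field of the coefficients of the layers up to `lam` -/
def KK (lam : ℕ) : IntermediateField k K :=
  IntermediateField.adjoin k {x : K | ∃ f, lay f ≤ lam ∧ ∃ m, x = (Fb lay f).coeff m}

theorem coeff_KK {lam : ℕ} {f : Lb Δ.τ} (h : lay f ≤ lam) (m : ℕ) :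
    (Fb lay f).coeff m ∈ KK Δ lay lam :=
  IntermediateField.subset_adjoin k _ ⟨f, h, m, rfl⟩

theorem eval_KK {lam : ℕ} {f : Lb Δ.τ} (h : lay f ≤ lam) (y : k) :
    (Fb lay f).eval (algebraMap k K y) ∈ KK Δ lay lam := by
  rw [eval_eq_sum_range]
  exact sum_mem fun m _ => mul_mem (coeff_KK Δ lay h m)
    (pow_mem ((KK Δ lay lam).algebraMap_mem y) _)

/-- the coefficients are algebraic over the roots -/
theorem trdeg_KK (hs : ∀ f : Lb Δ.τ, (f.2.1.map (algebraMap K L)).Splits)
    {w : ℕ} (x : Fin w → L) (lb : Fin w → Lb Δ.τ)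
    (halg : ∀ (f : Lb Δ.τ) (t : L), aeval t f.2.1 = 0 →
      IsAlgebraic (Algebra.adjoin k (x '' {j | lay (lb j) ≤ lay f})) t) (lam : ℕ) :
    Algebra.trdeg k (KK Δ lay lam) ≤ (Fintype.card {j // lay (lb j) ≤ lam} : ℕ) := by
  classical
  refine trdeg_le_of_closure (L := L) (KK Δ lay lam) x {j | lay (lb j) ≤ lam} ?_
  obtain ⟨E, hE⟩ : ∃ E : IntermediateField k L, E = (algebraicClosure
    (IntermediateField.adjoin k (x '' {j | lay (lb j) ≤ lam})) L).restrictScalars k := ⟨_, rfl⟩
  have hEm : ∀ y, y ∈ E ↔ IsAlgebraic (Algebra.adjoin k (x '' {j | lay (lb j) ≤ lam})) y := by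
    intro y
    rw [hE, ← IntermediateField.isAlgebraic_adjoin_iff]
    exact mem_algebraicClosure_iff
  have hroot : ∀ (f : Lb Δ.τ), lay f ≤ lam → ∀ t : L, aeval t f.2.1 = 0 → t ∈ E := by
    intro f hf t ht
    rw [hEm]
    have h1 := halg f t ht
    rw [← mem_cl] at h1 ⊢
    refine (AlgebraicIndependent.matroid k L).closure_subset_closure ?_ h1
    refine Set.image_mono ?_
    intro j hj
    exact le_trans hj hf
  have hle : KK Δ lay lam ≤ E.comap (IsScalarTower.toAlgHom k K L) := by
    unfold KK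
    rw [IntermediateField.adjoin_le_iff]
    rintro _ ⟨f, hf, m, rfl⟩
    change algebraMap K L ((Fb lay f).coeff m) ∈ E
    have h1 : (Fb lay f).map (algebraMap K L) ∈ Polynomial.lifts (algebraMap E L) := by
      rw [prod_blk, Polynomial.map_prod]
      refine Subsemiring.prod_mem _ fun f' hf' => ?_
      have hf'l : lay f' ≤ lam := ((mem_blk lay).1 hf').2.le.trans hf
      have h2 : (f'.2.1.map (algebraMap K L)) =
          (((f'.2.1.map (algebraMap K L)).roots).map fun a => X - C a).prod := by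
        have h3 := (hs f').eq_prod_roots
        rw [((Δ.irr f'.1 f'.2.1 f'.2.2).2.map (algebraMap K L)).leadingCoeff, C_1, one_mul] at h3
        exact h3
      rw [h2]
      refine Subsemiring.multiset_prod_mem _ _ fun z hz => ?_
      rw [Multiset.mem_map] at hz
      obtain ⟨t, ht, rfl⟩ := hz
      have h4 : aeval t f'.2.1 = 0 := by
        have h5 := (mem_roots'.1 ht).2
        rwa [IsRoot.def, eval_map_algebraMap] at h5
      rw [Polynomial.mem_lifts]
      refine ⟨X - C ⟨t, hroot f' hf'l t h4⟩, ?_⟩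
      rw [Polynomial.map_sub, Polynomial.map_X, Polynomial.map_C]
      rfl
    rw [Polynomial.lifts_iff_coeff_lifts] at h1
    obtain ⟨y, hy⟩ := h1 m
    rw [coeff_map] at hy
    rw [← hy]
    exact y.2
  intro y hy
  rw [← hEm]
  exact hle hy

/-- the critical layer -/
theorem exists_lam (P : Place k K) :
    ∃ lam, ((∀ f, lay f ≤ lam) ∨ ∃ y ∈ KK Δ lay lam, P.ord y ≠ 0) ∧
      ∀ f, lay f < lam → ∀ y ∈ KK Δ lay (lay f), P.ord y = 0 := by
  classical
  by_cases h : ∃ lam, ∃ y ∈ KK Δ lay lam, P.ord y ≠ 0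
  · refine ⟨Nat.find h, Or.inr (Nat.find_spec h), fun f hf y hy => ?_⟩
    by_contra hcon
    exact Nat.find_min h hf ⟨y, hy, hcon⟩
  · push Not at h
    exact ⟨Finset.univ.sup lay, Or.inl fun f => Finset.le_sup (Finset.mem_univ f),
      fun f _ y hy => h _ y hy⟩

/-- below the critical layer there are no contacts -/
theorem ct_zero [Infinite k] {P : Place k K} {lam : ℕ}
    (h : ∀ f, lay f < lam → ∀ y ∈ KK Δ lay (lay f), P.ord y = 0) (f : Lb Δ.τ) (hf : lay f < lam)
    (y : k) : ct P f.2.1 y = 0 := by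
  have h0 := fb_eval Δ lay f y
  have h1 : ct P (Fb lay f) y = 0 := by
    obtain ⟨m, hm, hm2⟩ := cnt_att P (fb_ne Δ lay f)
    unfold ct
    rw [← hm2, h f hf _ (coeff_KK Δ lay le_rfl m), h f hf _ (eval_KK Δ lay le_rfl y), sub_zero]
  rw [fb_ct] at h1
  have h2 : ∀ x ∈ yb lay f, 0 ≤ ct P x.1 y := fun x _ => ct_nonneg P (Δ.nc f.1 x.1 x.2 y)
  rw [Finset.sum_eq_zero_iff_of_nonneg h2] at h1
  exact h1 f.2 (Finset.mem_filter.2 ⟨Finset.mem_univ _, rfl⟩)

end Pool.Agent.J4.H73.BF
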