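import Pool.Agent.J4.H73.BF.Euler

/-!
Polynomials over a function field of one variable whose values at constants are ramified: a linear
bound for the height.
-/

set_option autoImplicit false

open Polynomial FF Pool.Agent.W603.LV Pool.Agent.W603.PV Pool.Agent.W601.VF

namespace Pool.Agent.J4.H73.BF

open Pool.Agent.Y216 Pool.Agent.Y190.BV

/-- The weight `1 - 1 / ⌈m / r⌉` of the multiplicity `m`; `m = 0` stands for infinity, and then the
weight is `1`. -/
noncomputable def weight (r m : ℕ) : ℝ := 1 - 1 / (((m + r - 1) / r : ℕ) : ℝ)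

theorem weight_le (r m : ℕ) : weight r m ≤ 1 := by
  unfold weight
  have : (0 : ℝ) ≤ 1 / (((m + r - 1) / r : ℕ) : ℝ) := by positivity
  linarith

theorem weight_good {r m : ℕ} (hr : 1 ≤ r) (hm : m ≠ 0) {g : ℕ} (hg : g ≠ 0) (h : m ≤ r * g) :
    1 ≤ (1 - weight r m) * (g : ℝ) := by
  have h1 : (m + r - 1) / r ≤ g := by
    rw [Nat.div_le_iff_le_mul_add_pred (by omega)]
    omega
  have h2 : 0 < (m + r - 1) / r := Nat.div_pos (by omega) (by omega)
  have h3 : (((m + r - 1) / r : ℕ) : ℝ) ≤ g := by exact_mod_cast h1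
  have h4 : (0 : ℝ) < (((m + r - 1) / r : ℕ) : ℝ) := by exact_mod_cast h2
  unfold weight
  have h5 : (1 : ℝ) - (1 - 1 / (((m + r - 1) / r : ℕ) : ℝ)) = 1 / (((m + r - 1) / r : ℕ) : ℝ) := by
    ring
  rw [h5, one_div, ← div_eq_inv_mul, le_div_iff₀ h4, one_mul]
  exact h3

/-- The roots of `H` which are not constants (elements of `k`) have multiplicity at most `r`. -/
def RootsLE (k : Type) [Field k] {K : Type} [Field K] [Algebra k K] (r : ℕ) (H : K[X]) : Prop :=
  ∀ p : K[X], Irreducible p → (∀ c : k, p.eval (algebraMap k K c) ≠ 0) → ¬ p ^ (r + 1) ∣ H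

section rad

variable {k K : Type} [Field k] [Field K] [Algebra k K]

/-- The irreducible factors without constant roots. -/
theorem rad_nc [Infinite k] {n r q : ℕ} (a : Fin q → k) (ha : Function.Injective a) (H : K[X])
    (hH : H ≠ 0) (hdeg : H.natDegree ≤ n) (hmult : RootsLE k r H) :
    ∃ (T T1 : Finset K[X]) (e : K[X] → ℕ) (u : K), u ≠ 0 ∧
      (∀ p ∈ T, Irreducible p ∧ p.Monic) ∧ H = C u * ∏ p ∈ T, p ^ e p ∧
      (∀ p ∈ T, 1 ≤ e p) ∧ (∀ p ∈ T1, e p ≤ r) ∧ T1 ⊆ T ∧
      (∀ p ∈ T1, ∀ c : k, p.eval (algebraMap k K c) ≠ 0) ∧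
      (∀ p ∈ T, p ∉ T1 → ∃ c : k, p.eval (algebraMap k K c) = 0) ∧
      (∃ I0 : Finset (Fin q), (∀ i, i ∈ I0 ↔ H.eval (algebraMap k K (a i)) = 0) ∧
        (∏ p ∈ T1, p).natDegree + I0.card ≤ n) ∧
      ∀ (P : Place k K) (i : Fin q), H.eval (algebraMap k K (a i)) ≠ 0 →
        ct P (∏ p ∈ T1, p) (a i) ≤ ct P H (a i) ∧
          ct P H (a i) ≤ r * ct P (∏ p ∈ T1, p) (a i) := by
  classical
  obtain ⟨T, e, u, hu, hT, hHT, hTall⟩ := factor hH
  set T1 : Finset K[X] := T.filter (fun p => ∀ c : k, p.eval (algebraMap k K c) ≠ 0) with hT1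
  set T0 : Finset K[X] := T.filter (fun p => ¬ ∀ c : k, p.eval (algebraMap k K c) ≠ 0) with hT0
  have hT1T : ∀ p ∈ T1, p ∈ T := fun p hp => (Finset.mem_filter.1 hp).1
  have hem : ∀ p ∈ T1, e p ≤ r := by
    intro p hp
    by_contra hcon
    push Not at hcon
    have hp' := Finset.mem_filter.1 hp
    exact hmult p (hT p hp'.1).1 hp'.2
      ((pow_dvd_pow p hcon).trans (hT p hp'.1).2.2.2.2)
  have hT2 : ∀ p ∈ T, p ∉ T1 → ∃ c : k, p.eval (algebraMap k K c) = 0 := by
    intro p hp hp1
    by_contra hcon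
    push Not at hcon
    exact hp1 (Finset.mem_filter.2 ⟨hp, hcon⟩)
  refine ⟨T, T1, e, u, hu, fun p hp => ⟨(hT p hp).1, (hT p hp).2.1⟩, hHT,
    fun p hp => (hT p hp).2.2.2.1, hem, Finset.filter_subset _ _,
    fun p hp => (Finset.mem_filter.1 hp).2, hT2, ?_, ?_⟩
  · set I0 : Finset (Fin q) :=
      Finset.univ.filter fun i => ¬ H.eval (algebraMap k K (a i)) ≠ 0 with hI0
    refine ⟨I0, fun i => by simp [hI0], ?_⟩
    have hdegT : ∑ p ∈ T, p.natDegree ≤ n := by
      have h1 : (∏ p ∈ T, p) ∣ H := by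
        rw [hHT]
        refine Dvd.dvd.mul_left ?_ _
        exact Finset.prod_dvd_prod_of_dvd _ _ fun p hp =>
          dvd_pow_self p (by have := (hT p hp).2.2.2.1; omega)
      have h2 := Polynomial.natDegree_le_of_dvd h1 hH
      rw [Polynomial.natDegree_prod _ _ fun p hp => (hT p hp).1.ne_zero] at h2
      exact h2.trans hdeg
    have hdegG : (∏ p ∈ T1, p).natDegree = ∑ p ∈ T1, p.natDegree := by
      rw [Polynomial.natDegree_prod _ _ fun p hp => (hT p (hT1T p hp)).1.ne_zero]
    have hI0T : I0.card ≤ ∑ p ∈ T0, p.natDegree := by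
      have h1 : I0.card ≤ T0.card := by
        refine Finset.card_le_card_of_injOn
          (fun i => X - C (algebraMap k K (a i))) ?_ ?_
        · intro i hi
          have hi2 := (Finset.mem_filter.1 hi).2
          rw [not_not] at hi2
          refine Finset.mem_coe.2 (Finset.mem_filter.2 ⟨hTall _ (Polynomial.irreducible_X_sub_C _)
            (Polynomial.monic_X_sub_C _) (Polynomial.dvd_iff_isRoot.2 hi2), ?_⟩)
          push Not
          exact ⟨a i, by simp⟩
        · intro i _ j _ hij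
          have h2 := Polynomial.C_injective (sub_right_injective hij)
          exact ha ((algebraMap k K).injective h2)
      refine h1.trans ?_
      rw [Finset.card_eq_sum_ones]
      refine Finset.sum_le_sum fun p hp => ?_
      exact (hT p (Finset.mem_filter.1 hp).1).1.natDegree_pos
    have hsplitT : ∑ p ∈ T1, p.natDegree + ∑ p ∈ T0, p.natDegree = ∑ p ∈ T, p.natDegree :=
      Finset.sum_filter_add_sum_filter_not _ _ _
    omega
  · intro P i hi
    have hpe : ∀ p ∈ T, p.eval (algebraMap k K (a i)) ≠ 0 := by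
      intro p hp h0
      apply hi
      obtain ⟨r, hr⟩ := (hT p hp).2.2.1
      rw [hr, Polynomial.eval_mul, h0, zero_mul]
    have h2 : ct P H (a i) = ∑ p ∈ T, (e p : ℤ) * ct P p (a i) := by
      have hprod : (∏ p ∈ T, p ^ e p).eval (algebraMap k K (a i)) ≠ 0 := by
        rw [Polynomial.eval_prod]
        refine Finset.prod_ne_zero_iff.2 fun p hp => ?_
        rw [Polynomial.eval_pow]
        exact pow_ne_zero _ (hpe p hp)
      rw [hHT, ct_mul P (by rw [Polynomial.eval_C]; exact hu) hprod, ct_C P hu, zero_add,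
        ct_prod P T _ fun p hp => by
          rw [Polynomial.eval_pow]
          exact pow_ne_zero _ (hpe p hp)]
      exact Finset.sum_congr rfl fun p hp => ct_pow P (hpe p hp) _
    have h4 : ct P H (a i) = ∑ p ∈ T1, (e p : ℤ) * ct P p (a i) := by
      rw [h2]
      symm
      refine Finset.sum_subset (Finset.filter_subset _ _) fun p hp hp1 => ?_
      obtain ⟨c, hc⟩ := hT2 p hp hp1
      have hpX := eq_X_sub_C (hT p hp).1 (hT p hp).2.1 hc
      have hij : a i ≠ c := by
        intro h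
        apply hpe p hp
        rw [h]; exact hc
      rw [hpX, ct_X_sub_C P hij, mul_zero]
    have h5 : ct P (∏ p ∈ T1, p) (a i) = ∑ p ∈ T1, ct P p (a i) :=
      ct_prod P T1 _ fun p hp => hpe p (hT1T p hp)
    rw [h4, h5]
    constructor
    · refine Finset.sum_le_sum fun p hp => ?_
      have h7 := ct_nonneg P (hpe p (hT1T p hp))
      have h8 : (1 : ℤ) ≤ e p := by exact_mod_cast (hT p (hT1T p hp)).2.2.2.1
      nlinarith
    · rw [Finset.mul_sum]
      refine Finset.sum_le_sum fun p hp => ?_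
      have h7 := ct_nonneg P (hpe p (hT1T p hp))
      have h8 : (e p : ℤ) ≤ r := by exact_mod_cast hem p hp
      exact mul_le_mul_of_nonneg_right h8 h7

/-- the weights of the nodes which are not roots -/
theorem sum_weights {q n d : ℕ} {w : Fin q → ℝ} (hw : ∀ i, w i ≤ 1) (I0 : Finset (Fin q))
    (hd : d + I0.card ≤ n) : ∑ i, w i - 2 * n ≤ ∑ i ∈ I0ᶜ, w i - 2 * d := by
  have h1 : ∑ i ∈ I0ᶜ, w i + ∑ i ∈ I0, w i = ∑ i, w i := by
    rw [add_comm]
    exact Finset.sum_add_sum_compl _ _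
  have h2 : ∑ i ∈ I0, w i ≤ I0.card := by
    calc _ ≤ ∑ _i ∈ I0, (1 : ℝ) := Finset.sum_le_sum fun i _ => hw i
      _ = _ := by rw [Finset.sum_const, nsmul_eq_mul, mul_one]
  have h3 : ((d + I0.card : ℕ) : ℝ) ≤ n := by exact_mod_cast hd
  have h4 : (0 : ℝ) ≤ I0.card := by positivity
  push_cast at h3
  linarith

end rad

section height

variable (k : Type) [Field k] {L : Type} [Field L] [Algebra k L]

/-- the height of a polynomial -/
noncomputable def hp (F : L[X]) : ℤ := - ∑ᶠ P : Place k L, cnt P F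

variable {k}

theorem pord_coeff {F : L[X]} {n : ℕ} (hn : F.natDegree ≤ n) (hF : F ≠ 0) (P : Place k L) :
    pord P (fun j : Fin (n + 1) => F.coeff j) = cnt P F := by
  symm
  have hf : ∃ j : Fin (n + 1), F.coeff j ≠ 0 :=
    ⟨⟨F.natDegree, by omega⟩, leadingCoeff_ne_zero.2 hF⟩
  refine cnt_unique P (fun j => ?_) ?_
  · by_cases hj : j < n + 1
    · exact ge_pord P (fun j : Fin (n + 1) => F.coeff j) ⟨j, hj⟩
    · rw [coeff_eq_zero_of_natDegree_lt (by omega)]
      exact Ge.zero
  · obtain ⟨j, hj, hj2⟩ := exists_pord P hf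
    exact ⟨j, hj, hj2⟩

theorem pht_coeff {F : L[X]} {n : ℕ} (hn : F.natDegree ≤ n) (hF : F ≠ 0) :
    pht k (fun j : Fin (n + 1) => F.coeff j) = hp k F := by
  unfold pht hp
  rw [finsum_congr fun P => pord_coeff hn hF P]

variable [IsAlgClosed k] [CharZero k] [IsFF k L]

theorem cnt_supp {F : L[X]} (hF : F ≠ 0) :
    (Function.support fun P : Place k L => cnt P F).Finite := by
  obtain ⟨T1, hT1⟩ := exists_supp (k := k) (Finset.univ : Finset (Fin (F.natDegree + 1)))
    fun j => F.coeff j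
  refine (Finset.finite_toSet T1).subset fun P hP => ?_
  obtain ⟨j, hj, hpj⟩ := cnt_att P hF
  have hj' : j < F.natDegree + 1 := Nat.lt_succ_of_le (le_natDegree_of_ne_zero hj)
  exact hT1 ⟨j, hj'⟩ (Finset.mem_univ _) P (by
    change P.ord (F.coeff j) ≠ 0
    rw [hpj]; exact hP)

theorem hp_mul {F G : L[X]} (hF : F ≠ 0) (hG : G ≠ 0) : hp k (F * G) = hp k F + hp k G := by
  have : Infinite k := inferInstance
  unfold hp
  rw [finsum_congr fun P => cnt_mul P hF hG, finsum_add_distrib (cnt_supp hF) (cnt_supp hG)]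
  ring

theorem hp_C {u : L} (hu : u ≠ 0) : hp k (C u) = 0 := by
  unfold hp
  rw [finsum_congr fun P => cnt_C P hu, sum_ord, neg_zero]

theorem hp_one : hp k (1 : L[X]) = 0 := by
  rw [← C_1]
  exact hp_C one_ne_zero

theorem hp_pow {F : L[X]} (hF : F ≠ 0) (m : ℕ) : hp k (F ^ m) = m * hp k F := by
  induction m with
  | zero => rw [pow_zero, hp_one, Nat.cast_zero, zero_mul]
  | succ m ih =>
    rw [pow_succ, hp_mul (pow_ne_zero _ hF) hF, ih]
    push_cast
    ring

theorem hp_prod {T : Finset L[X]} (g : L[X] → L[X]) (h : ∀ p ∈ T, g p ≠ 0) :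
    hp k (∏ p ∈ T, g p) = ∑ p ∈ T, hp k (g p) := by
  classical
  induction T using Finset.induction_on with
  | empty => rw [Finset.prod_empty, Finset.sum_empty, hp_one]
  | insert p T hp ih =>
    rw [Finset.prod_insert hp, Finset.sum_insert hp, hp_mul (h p (Finset.mem_insert_self _ _))
      (Finset.prod_ne_zero_iff.2 fun x hx => h x (Finset.mem_insert_of_mem hx)),
      ih fun x hx => h x (Finset.mem_insert_of_mem hx)]

theorem hp_nonneg {F : L[X]} (hF : F ≠ 0) : 0 ≤ hp k F := by
  rw [← pht_coeff (k := k) le_rfl hF]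
  exact pht_nonneg' (k := k) ⟨⟨F.natDegree, by omega⟩, leadingCoeff_ne_zero.2 hF⟩

theorem hp_X_sub_C (c : k) : hp k (X - C (algebraMap k L c)) = 0 := by
  unfold hp
  have h : ∀ P : Place k L, cnt P (X - C (algebraMap k L c)) = 0 := by
    intro P
    refine cnt_unique P (fun j => ?_) ⟨1, ?_, ?_⟩
    · rw [coeff_sub, coeff_X, coeff_C]
      refine Ge.sub ?_ ?_
      · split_ifs
        · exact Ge.one
        · exact Ge.zero
      · split_ifs
        · exact Ge.const _
        · exact Ge.zero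
    · rw [coeff_sub, coeff_X_one, coeff_C_succ, sub_zero]
      exact one_ne_zero
    · rw [coeff_sub, coeff_X_one, coeff_C_succ, sub_zero, P.ord_one]
  rw [finsum_congr h, finsum_zero, neg_zero]

open Classical in
/-- **The height inequality for polynomials.** -/
theorem height_poly {n r q : ℕ} (hr : 1 ≤ r) {a : Fin q → k} (ha : Function.Injective a)
    {m : Fin q → ℕ} (hsum : 2 * (n : ℝ) < ∑ i, weight r (m i)) {H : L[X]} (hH : H ≠ 0)
    (hn : H.natDegree ≤ n) (hmult : RootsLE k r H) (S : Finset (Place k L))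
    (hram : ∀ P ∉ S, ∀ i, H.eval (algebraMap k L (a i)) ≠ 0 →
      ct P H (a i) = 0 ∨ (m i ≠ 0 ∧ (m i : ℤ) ≤ ct P H (a i))) :
    (∑ i, weight r (m i) - 2 * n) * (hp k H : ℝ) ≤
      r * (n * ((max (canDeg k L + S.card) 0 : ℤ) : ℝ)) := by
  have hinf : Infinite k := inferInstance
  obtain ⟨T, T1, e, u, hu, hT, hHT, hTe, hT1e, hT1T, hT1c, hT2, ⟨I0, hI0, hdz⟩, hct⟩ :=
    rad_nc a ha H hH hn hmult
  obtain ⟨R, hR⟩ : ∃ R, R = ∏ p ∈ T1, p := ⟨_, rfl⟩
  rw [← hR] at hdz hct
  have hRm : R.Monic := by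
    rw [hR]
    exact monic_prod_of_monic _ _ fun p hp => (hT p (hT1T hp)).2
  have hR0 : R ≠ 0 := hRm.ne_zero
  have hRsep : Squarefree R := by
    have hL : CharZero L := charZero_of_injective_algebraMap (algebraMap k L).injective
    have h1 : R.Separable := by
      rw [hR]
      refine Polynomial.separable_prod' ?_ ?_
      · intro p hp s hs hps
        exact coprime_of_ne (hT p (hT1T hp)).1 (hT s (hT1T hs)).1 (hT p (hT1T hp)).2
          (hT s (hT1T hs)).2 hps
      · intro p hp
        exact (hT p (hT1T hp)).1.separable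
    exact h1.squarefree
  have hRa : ∀ c : k, R.eval (algebraMap k L c) ≠ 0 := by
    intro c
    rw [hR, Polynomial.eval_prod]
    exact Finset.prod_ne_zero_iff.2 fun p hp => hT1c p hp c
  -- the height of `H`
  have hpH : hp k H ≤ r * hp k R := by
    have h1 : ∀ p ∈ T, p ^ e p ≠ 0 := fun p hp => pow_ne_zero _ (hT p hp).1.ne_zero
    rw [hHT, hp_mul (C_ne_zero.2 hu) (Finset.prod_ne_zero_iff.2 h1), hp_C hu, zero_add,
      hp_prod (fun p => p ^ e p) h1, hR, hp_prod (fun p => p) fun p hp =>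
        (hT p (hT1T hp)).1.ne_zero, Finset.mul_sum]
    rw [← Finset.sum_subset hT1T fun p hp hp1 => ?_]
    · refine Finset.sum_le_sum fun p hp => ?_
      rw [hp_pow (hT p (hT1T hp)).1.ne_zero]
      have h2 : (e p : ℤ) ≤ r := by exact_mod_cast hT1e p hp
      exact mul_le_mul_of_nonneg_right h2 (hp_nonneg (hT p (hT1T hp)).1.ne_zero)
    · obtain ⟨c, hc⟩ := hT2 p hp hp1
      rw [hp_pow (hT p hp).1.ne_zero, eq_X_sub_C (hT p hp).1 (hT p hp).2 hc, hp_X_sub_C, mul_zero]
  -- the good nodes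
  let ee := (I0ᶜ).equivFin.symm
  have hee : ∀ i, H.eval (algebraMap k L (a (ee i))) ≠ 0 := fun i h0 =>
    (Finset.mem_compl.1 (ee i).2) ((hI0 _).2 h0)
  have hsumee : ∑ i, weight r (m (ee i)) = ∑ i ∈ I0ᶜ, weight r (m i) := by
    rw [← Finset.sum_coe_sort I0ᶜ fun i => weight r (m i)]
    exact Equiv.sum_comp ee (fun i : (I0ᶜ : Finset (Fin q)) => weight r (m i))
  have hwt := sum_weights (w := fun i => weight r (m i)) (fun i => weight_le r _) I0 hdz
  rw [← hsumee] at hwt
  obtain ⟨f, hf⟩ : ∃ f : Fin (R.natDegree + 1) → L, f = fun j : Fin (R.natDegree + 1) =>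
    R.coeff (j : ℕ) := ⟨_, rfl⟩
  have hRf : R = pol f := by
    rw [hf]
    exact eq_pol le_rfl
  have huv : ∀ i j : Fin (I0ᶜ).card, i ≠ j → (fun _ => (1 : k)) i * (fun i => a (ee i)) j ≠
      (fun _ => (1 : k)) j * (fun i => a (ee i)) i := by
    intro i j hij h
    simp only [one_mul] at h
    exact hij (ee.injective (Subtype.ext (ha h))).symm
  have hlv : ∀ i, lv (rnc R.natDegree (fun _ => (1 : k)) (fun i => a (ee i)) i) f =
      R.eval (algebraMap k L (a (ee i))) := by
    intro i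
    unfold lv rnc
    rw [hf, Polynomial.eval_eq_sum_range, Finset.sum_range]
    refine Finset.sum_congr rfl fun j _ => ?_
    rw [one_pow, one_mul, map_pow, mul_comm]
  have hpf : ∀ P : Place k L, pord P f = cnt P R := fun P => by
    rw [hf]
    exact pord_coeff le_rfl hR0 P
  have hphtR : pht k f = hp k R := by
    rw [hf]
    exact pht_coeff le_rfl hR0
  have hlast : f (Fin.last R.natDegree) ≠ 0 := by
    rw [hf]
    exact leadingCoeff_ne_zero.2 hR0
  have hmain := rnc_euler (k := k) huv (w := fun i => weight r (m (ee i)))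
    (fun i => weight_le r _) S (n := R.natDegree) (by linarith) (f := f) hlast
    (by rw [← hRf]; exact hRsep) (fun i => by rw [hlv]; exact hRa _) (fun P hP => by
      rw [Finset.card_filter]
      push_cast
      refine Finset.sum_le_sum fun i _ => ?_
      rw [hlv, hpf]
      obtain ⟨h1, h2⟩ := hct P (ee i) (hee i)
      have h3 := ct_nonneg P (hRa (a (ee i)))
      have h4 := hram P hP (ee i) (hee i)
      have h5 : P.ord (R.eval (algebraMap k L (a (ee i)))) - cnt P R = ct P R (a (ee i)) := rfl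
      obtain ⟨g, hg⟩ := Int.eq_ofNat_of_zero_le h3
      have h6 : 0 ≤ 1 - weight r (m (ee i)) := sub_nonneg.2 (weight_le r _)
      have h7 : ((P.ord (R.eval (algebraMap k L (a (ee i)))) : ℤ) : ℝ) - ((cnt P R : ℤ) : ℝ) =
          (g : ℝ) := by
        have : ((P.ord (R.eval (algebraMap k L (a (ee i)))) - cnt P R : ℤ) : ℝ) = ((g : ℤ) : ℝ) := by
          rw [h5, hg]
        push_cast at this
        exact this
      rw [h7]
      split_ifs with hc
      · have hg0 : g ≠ 0 := by
          rintro rfl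
          rw [← h5] at hg
          simp at hg
          omega
        rcases h4 with h4 | ⟨h4, h8⟩
        · exfalso
          apply hg0
          rw [h4, hg] at h1
          have : (g : ℤ) ≤ 0 := h1
          omega
        · have h9 : m (ee i) ≤ r * g := by
            have := h8.trans h2
            rw [hg] at this
            exact_mod_cast this
          exact weight_good hr h4 hg0 h9
      · exact mul_nonneg h6 (by positivity))
  rw [hphtR] at hmain
  have hR1 : (0 : ℝ) ≤ (hp k R : ℝ) := by exact_mod_cast hp_nonneg (k := k) hR0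
  have hχ : (0 : ℝ) ≤ ((max (canDeg k L + S.card) 0 : ℤ) : ℝ) := by
    exact_mod_cast le_max_right (canDeg k L + (S.card : ℤ)) 0
  have h1 : (hp k H : ℝ) ≤ r * (hp k R : ℝ) := by exact_mod_cast hpH
  have h2 : (R.natDegree : ℝ) ≤ n := by exact_mod_cast (by omega : R.natDegree ≤ n)
  have h3 : 0 ≤ ∑ i, weight r (m i) - 2 * n := by linarith
  calc (∑ i, weight r (m i) - 2 * n) * (hp k H : ℝ)
      ≤ (∑ i, weight r (m i) - 2 * n) * (r * (hp k R : ℝ)) := mul_le_mul_of_nonneg_left h1 h3
    _ = r * ((∑ i, weight r (m i) - 2 * n) * (hp k R : ℝ)) := by ring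
    _ ≤ r * ((∑ i, weight r (m (ee i)) - 2 * R.natDegree) * (hp k R : ℝ)) :=
        mul_le_mul_of_nonneg_left (mul_le_mul_of_nonneg_right hwt hR1) (by positivity)
    _ ≤ r * (R.natDegree * ((max (canDeg k L + S.card) 0 : ℤ) : ℝ)) :=
        mul_le_mul_of_nonneg_left hmain (by positivity)
    _ ≤ r * (n * ((max (canDeg k L + S.card) 0 : ℤ) : ℝ)) :=
        mul_le_mul_of_nonneg_left (mul_le_mul_of_nonneg_right h2 hχ) (by positivity)

end height

end Pool.Agent.J4.H73.BF
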