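import Pool.Agent.J4.H73.BF.Asm
import Pool.Agent.J4.H73.BF.CoreAll

/-!
Orbifold polynomials on subvarieties, and log general type.
-/

set_option autoImplicit false
set_option linter.unusedSectionVars false
set_option linter.overlappingInstances false

open FF IntermediateField

namespace Pool.Agent.J4.H73.BF

open Pool.Agent.TH466.QG Pool.Agent.N111.FT
open Pool.Agent.W603.LV
open Pool.Agent.W603.PV (pord pht pht_le pord_le exists_pord)
open Pool.Agent.W602.GT (IsForm val coords LogGeneralType Divisorial)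
open Pool.Agent.Y216 (OnVar CurveBound)
open Pool.Agent.Y190.BV (ct cnt)

section alg

variable {k L E : Type} [Field k] [Field L] [Field E] [Algebra k L] [Algebra k E]

/-- algebraic dependence specializes -/
theorem spread_alg {ι : Type} {vv : ι → L} {x : L} (hx : x ∈ aclo k (Set.range vv)) :
    ∃ ϑ : L, ∀ (E : Type) [Field E] [Algebra k E] (S : Sp k L E) (vv' : ι → E) (x' : E),
      (∀ i, S.T (vv i) (vv' i)) → S.T x x' → (∃ t, S.T ϑ t) → x' ∈ aclo k (Set.range vv') := by
  classical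
  rw [mem_aclo, IntermediateField.isAlgebraic_adjoin_iff] at hx
  obtain ⟨q, hq0, hq⟩ := hx
  have hadj : ∀ y ∈ Algebra.adjoin k (Set.range vv), ∃ P : MvPolynomial ι k,
      MvPolynomial.aeval vv P = y := by
    intro y hy
    rw [Algebra.adjoin_range_eq_range_aeval] at hy
    exact hy
  have hco : ∀ j, ∃ P : MvPolynomial ι k, MvPolynomial.aeval vv P = (q.coeff j : L) :=
    fun j => hadj _ (q.coeff j).2
  choose P hP using hco
  obtain ⟨n, hn⟩ : ∃ n, n = q.natDegree := ⟨_, rfl⟩
  have hlead : MvPolynomial.aeval vv (P n) ≠ 0 := by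
    rw [hP, hn]
    intro h
    have h1 : q.leadingCoeff = 0 := Subtype.ext h
    exact hq0 (Polynomial.leadingCoeff_eq_zero.1 h1)
  have hsum : ∑ j ∈ Finset.range (n + 1), MvPolynomial.aeval vv (P j) * x ^ j = 0 := by
    rw [Polynomial.aeval_eq_sum_range, ← hn] at hq
    rw [← hq]
    refine Finset.sum_congr rfl fun j _ => ?_
    rw [hP, Algebra.smul_def]
    rfl
  refine ⟨(MvPolynomial.aeval vv (P n))⁻¹, fun E _ _ S vv' x' hvv hx' ⟨t, ht⟩ => ?_⟩
  have hev : ∀ j, S.T (MvPolynomial.aeval vv (P j)) (MvPolynomial.aeval vv' (P j)) := fun j =>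
    sp_val S hvv (P j)
  have hlead' : MvPolynomial.aeval vv' (P n) ≠ 0 := by
    intro h
    have h1 := S.mul (hev n) ht
    rw [mul_inv_cancel₀ hlead, h, zero_mul] at h1
    exact one_ne_zero (S.ext S.one h1)
  have hpow : ∀ j : ℕ, S.T (x ^ j) (x' ^ j) := by
    intro j
    induction j with
    | zero => rw [pow_zero, pow_zero]; exact S.one
    | succ j ih => rw [pow_succ, pow_succ]; exact S.mul ih hx'
  have hsumS : ∀ s : Finset ℕ, S.T (∑ j ∈ s, MvPolynomial.aeval vv (P j) * x ^ j)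
      (∑ j ∈ s, MvPolynomial.aeval vv' (P j) * x' ^ j) := by
    intro s
    induction s using Finset.induction_on with
    | empty =>
      rw [Finset.sum_empty, Finset.sum_empty]
      have h1 := S.const 0
      rwa [map_zero, map_zero] at h1
    | insert a s ha ih =>
      rw [Finset.sum_insert ha, Finset.sum_insert ha]
      exact S.add (S.mul (hev a) (hpow a)) ih
  have hsum' : ∑ j ∈ Finset.range (n + 1), MvPolynomial.aeval vv' (P j) * x' ^ j = 0 := by
    have h1 := hsumS (Finset.range (n + 1))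
    rw [hsum] at h1
    have h2 := S.const 0
    rw [map_zero, map_zero] at h2
    exact S.ext h1 h2
  rw [mem_aclo, IntermediateField.isAlgebraic_adjoin_iff]
  have hmem : ∀ j, MvPolynomial.aeval vv' (P j) ∈ Algebra.adjoin k (Set.range vv') := by
    intro j
    rw [Algebra.adjoin_range_eq_range_aeval]
    exact ⟨P j, rfl⟩
  refine ⟨∑ j ∈ Finset.range (n + 1), Polynomial.C (⟨_, hmem j⟩ : Algebra.adjoin k
    (Set.range vv')) * Polynomial.X ^ j, ?_, ?_⟩
  · intro h
    have h1 := congrArg (fun p => Polynomial.coeff p n) h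
    simp only [Polynomial.finsetSum_coeff, Polynomial.coeff_C_mul, Polynomial.coeff_X_pow,
      Polynomial.coeff_zero] at h1
    rw [Finset.sum_eq_single n] at h1
    · rw [if_pos rfl, mul_one] at h1
      exact hlead' (congrArg Subtype.val h1)
    · intro j _ hj
      rw [if_neg (Ne.symm hj), mul_zero]
    · intro h2
      exact absurd (Finset.mem_range.2 (Nat.lt_succ_self n)) h2
  · rw [map_sum, ← hsum']
    refine Finset.sum_congr rfl fun j _ => ?_
    rw [map_mul, map_pow, Polynomial.aeval_C, Polynomial.aeval_X]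
    rfl

end alg

variable {k L : Type} [Field k] [IsAlgClosed k] [CharZero k] [Field L] [Algebra k L] {N : ℕ}
  {u : Fin (N + 1) → L} {B : MvPolynomial (Fin (N + 1)) k} {b : ℕ}

theorem onVar_trans {E : Type} [Field E] [Algebra k E] {f : Fin (N + 1) → E} (h1 : OnVar k u f)
    {E' : Type} [Field E'] [Algebra k E'] {f' : Fin (N + 1) → E'} (h2 : OnVar k f f') :
    OnVar k u f' := ⟨h2.1, fun H hH h => h2.2 H hH (h1.2 H hH h)⟩

/-- the restriction of an orbifold polynomial to a subvariety -/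
theorem restrict (hu : u ≠ 0) (hgen : coords k u = ⊤) (H : OrbifoldPolynomial u B b) :
    ∃ G : MvPolynomial (Fin (N + 1)) k, IsForm G ∧ MvPolynomial.aeval u G ≠ 0 ∧
      ∀ (E : Type) [Field E] [Algebra k E] (f : Fin (N + 1) → E), OnVar k u f →
        MvPolynomial.aeval f G ≠ 0 → ∃ H' : OrbifoldPolynomial f B b,
          ∀ i j : Fin (H.n + 1), MvPolynomial.aeval f (H.φ i) / MvPolynomial.aeval f (H.φ j) ∈
            H'.values := by
  obtain ⟨G1, ⟨d1, hG1⟩, hGu1, h1⟩ := roots_spread hu hgen H.form H.nonzero H.roots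
  obtain ⟨G2, ⟨d2, hG2⟩, hGu2, h2⟩ := H.ramified
  refine ⟨G1 * G2, ⟨_, hG1.mul hG2⟩, by rw [map_mul]; exact mul_ne_zero hGu1 hGu2, ?_⟩
  intro E _ _ f hf hfG
  rw [map_mul] at hfG
  obtain ⟨h3, h4⟩ := h1 E f hf (left_ne_zero_of_mul hfG)
  refine ⟨⟨H.n, H.δ, H.φ, H.form, h3, H.r, H.r_pos, h4, H.q, H.a, H.distinct, H.m, H.large,
    ⟨G2, ⟨d2, hG2⟩, right_ne_zero_of_mul hfG, fun E' _ _ f' hf' => h2 E' f' (onVar_trans hf hf')⟩⟩,
    fun i j => ⟨i, j, rfl⟩⟩

/-- **Subvarieties:** outside a proper closed subset, all functions on the subvarieties are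
algebraic over the values of orbifold polynomials. -/
theorem values_restrict (hu : u ≠ 0) (hgen : coords k u = ⊤)
    (hh : ∀ t : L, t ∈ aclo k (Values u B b)) :
    ∃ G : MvPolynomial (Fin (N + 1)) k, IsForm G ∧ MvPolynomial.aeval u G ≠ 0 ∧
      ∀ (E : Type) [Field E] [Algebra k E] (f : Fin (N + 1) → E), OnVar k u f →
        coords k f = ⊤ → MvPolynomial.aeval f G ≠ 0 → ∀ t : E, t ∈ aclo k (Values f B b) := by
  classical
  obtain ⟨i1, hi1'⟩ := Function.ne_iff.1 hu
  have hi1 : u i1 ≠ 0 := hi1'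
  choose T hTV hT using fun m : Fin (N + 1) =>
    Pool.Agent.N111.GG.aclo_finite (hh (u m / u i1))
  let W : Set L := {v | v ≠ 0 ∧ ∃ m, v ∈ (T m : Set L)}
  have hWf : W.Finite := by
    refine (Set.finite_iUnion fun m => (T m).finite_toSet).subset ?_
    rintro v ⟨-, m, hm⟩
    exact Set.mem_iUnion.2 ⟨m, hm⟩
  have hWF : Fintype W := hWf.fintype
  have hW : ∀ v : W, ∃ (H : OrbifoldPolynomial u B b) (i j : Fin (H.n + 1)),
      (v : L) = MvPolynomial.aeval u (H.φ i) / MvPolynomial.aeval u (H.φ j) := by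
    rintro ⟨v, -, m, hm⟩
    obtain ⟨H, i, j, h⟩ := hTV m hm
    exact ⟨H, i, j, h⟩
  choose H ii jj hv using hW
  have hd0 : ∀ v : W, MvPolynomial.aeval u ((H v).φ (jj v)) ≠ 0 := by
    intro v h0
    apply v.2.1
    rw [hv v, h0, div_zero]
  have hall : ∀ m : Fin (N + 1), u m / u i1 ∈ aclo k (Set.range fun v : W => (v : L)) := by
    intro m
    refine aclo_le ?_ (hT m)
    intro v hvT
    by_cases hv0 : v = 0
    · rw [hv0]
      exact (aclo k _).zero_mem
    · exact subset_aclo _ ⟨⟨v, hv0, m, hvT⟩, rfl⟩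
  choose ϑ hϑ using fun m => spread_alg (hall m)
  choose Gv hGvf hGvu hGvr using fun v : W => restrict hu hgen (H v)
  choose dv hGvd using hGvf
  obtain ⟨G0, ⟨d0, hG0⟩, hGu0, hspread⟩ := spread_form (k := k) hgen hi1
    (Θ := Set.range ϑ ∪ Set.range fun v : W => (v : L))
    ((Set.finite_range _).union (Set.finite_range _))
  refine ⟨G0 * ((∏ v, Gv v) * ∏ v, (H v).φ (jj v)), ?_, ?_, ?_⟩
  · exact ⟨_, hG0.mul ((MvPolynomial.IsHomogeneous.prod _ _ _ fun v _ => hGvd v).mul
      (MvPolynomial.IsHomogeneous.prod _ _ _ fun v _ => (H v).form (jj v)))⟩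
  · rw [map_mul, map_mul, map_prod, map_prod]
    exact mul_ne_zero hGu0 (mul_ne_zero (Finset.prod_ne_zero_iff.2 fun v _ => hGvu v)
      (Finset.prod_ne_zero_iff.2 fun v _ => hd0 v))
  intro E _ _ f hf hfgen hfR
  rw [map_mul, map_mul, map_prod, map_prod] at hfR
  have hfG := Finset.prod_ne_zero_iff.1 (left_ne_zero_of_mul (right_ne_zero_of_mul hfR))
  have hfd := Finset.prod_ne_zero_iff.1 (right_ne_zero_of_mul (right_ne_zero_of_mul hfR))
  obtain ⟨hf1, S, hSx, hSΘ⟩ := hspread E f hf (left_ne_zero_of_mul hfR)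
  -- the specializations of the values
  have key : ∀ v : W, S.T (v : L) (MvPolynomial.aeval f ((H v).φ (ii v)) /
      MvPolynomial.aeval f ((H v).φ (jj v))) := by
    intro v
    obtain ⟨t, ht⟩ := hSΘ (v : L) (Or.inr ⟨v, rfl⟩)
    have hdj := hfd v (Finset.mem_univ v)
    have h1 : (v : L) * MvPolynomial.aeval (fun i => u i / u i1) ((H v).φ (jj v)) =
        MvPolynomial.aeval (fun i => u i / u i1) ((H v).φ (ii v)) := by
      have h2 := hd0 v
      rw [aeval_div ((H v).form _) hi1] at h2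
      rw [hv v, aeval_div ((H v).form (ii v)) hi1, aeval_div ((H v).form (jj v)) hi1,
        mul_div_mul_left _ _ (pow_ne_zero _ hi1), div_mul_cancel₀ _ (right_ne_zero_of_mul h2)]
    have h3 := S.mul ht (sp_val S hSx ((H v).φ (jj v)))
    rw [h1] at h3
    have h4 := S.ext h3 (sp_val S hSx ((H v).φ (ii v)))
    have h5 : t = MvPolynomial.aeval f ((H v).φ (ii v)) /
        MvPolynomial.aeval f ((H v).φ (jj v)) := by
      rw [aeval_div ((H v).form _) hf1] at hdj
      rw [aeval_div ((H v).form (ii v)) hf1, aeval_div ((H v).form (jj v)) hf1,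
        mul_div_mul_left _ _ (pow_ne_zero _ hf1), eq_div_iff (right_ne_zero_of_mul hdj)]
      exact h4
    rw [← h5]
    exact ht
  have h3 : (⊤ : IntermediateField k E) ≤ aclo k (Values f B b) := by
    rw [← adjoin_norm hfgen hf1, adjoin_le_iff]
    rintro _ ⟨m, rfl⟩
    have h4 := hϑ m E S (fun v : W => MvPolynomial.aeval f ((H v).φ (ii v)) /
      MvPolynomial.aeval f ((H v).φ (jj v))) (f m / f i1) key (hSx m)
      (hSΘ _ (Or.inl ⟨m, rfl⟩))
    refine aclo_mono ?_ h4
    rintro _ ⟨v, rfl⟩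
    obtain ⟨H', hH'⟩ := hGvr v E f hf (hfG v (Finset.mem_univ v))
    exact ⟨H', hH' _ _⟩
  exact fun t => h3 (mem_top (x := t))

/-- **Log general type**, if all functions are algebraic over the values of orbifold
polynomials. -/
theorem log_of_values (hu : u ≠ 0) (hgen : coords k u = ⊤) (hB : MvPolynomial.aeval u B ≠ 0)
    {w : ℕ} (hw : 1 ≤ w) (htr : Algebra.trdeg k L = w)
    (hh : ∀ t : L, t ∈ aclo k (Values u B b)) : LogGT u B b w := by
  classical
  obtain ⟨σ, hσ, H, d, A, -, -, hA, halg⟩ := asm hu hgen hB (fun _ => True) fun t => by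
    refine aclo_mono ?_ (hh t)
    rintro v ⟨H, hH⟩
    exact ⟨H, trivial, hH⟩
  let Δ : Dt k L σ := ⟨fun s => (d s).τ, fun s => (d s).irr, fun s => (d s).nc, fun s => (d s).q,
    fun s => (d s).a, fun s => (d s).inj, A, fun s => (d s).c, fun s i => hA s ▸ (d s).cA i,
    fun s => hA s ▸ (d s).large⟩
  refine core_all hw htr Δ halg _ fun P _ hP s i => ?_
  have h1 := (d s).ram P hP i
  rw [hA s] at h1
  exact h1

end Pool.Agent.J4.H73.BF
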