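import Pool.Agent.J4.H73.BF.Entry
import Pool.Agent.J4.H73.BF.Comb

/-!
The sum of the local estimates over all roots, with the multiplicities of the labels.
-/

set_option autoImplicit false
set_option linter.unusedSectionVars false

open FF Pool.Agent.W603.LV Pool.Agent.W602.GT Polynomial

namespace Pool.Agent.J4.H73.BF

open Pool.Agent.Y190.BV hiding den mat phi mat_mul phi_pluri ord_den ge_phi reg_phi

variable {k K L : Type} [Field k] [Field K] [Field L] [Algebra k K] [Algebra k L] [Algebra K L]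
  [IsScalarTower k K L]

section gauss

variable [Infinite k]

theorem cnt_X_sub_C (V : Place k L) (r : L) : cnt V (X - C r) = - tau V r := by
  apply cnt_unique
  · intro j
    rw [coeff_sub, coeff_X, coeff_C]
    have h0 := tau_nonneg V r
    refine Ge.sub ?_ ?_
    · split_ifs
      · exact Ge.one.mono (by omega)
      · exact Ge.zero
    · split_ifs
      · exact ge_tau V r
      · exact Ge.zero
  · by_cases h : tau V r = 0
    · refine ⟨1, ?_, ?_⟩
      · rw [coeff_sub, coeff_X_one, coeff_C_of_ne_zero one_ne_zero, sub_zero]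
        exact one_ne_zero
      · rw [coeff_sub, coeff_X_one, coeff_C_of_ne_zero one_ne_zero, sub_zero, V.ord_one, h,
          neg_zero]
    · have h0 := tau_nonneg V r
      have h1 : V.ord r < 0 := by
        unfold tau at h h0
        rcases max_cases 0 (- V.ord r) with ⟨h2, _⟩ | ⟨h2, _⟩ <;> omega
      have h2 : tau V r = - V.ord r := by
        unfold tau
        exact max_eq_right (by omega)
      have hr : r ≠ 0 := by
        rintro rfl
        rw [V.ord_zero] at h1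
        omega
      refine ⟨0, ?_, ?_⟩
      · rw [coeff_sub, coeff_X_zero, coeff_C_zero, zero_sub]
        exact neg_ne_zero.2 hr
      · rw [coeff_sub, coeff_X_zero, coeff_C_zero, zero_sub, V.ord_neg, h2, neg_neg]

theorem cnt_prod {ι : Type*} (P : Place k K) (s : Finset ι) (F : ι → K[X])
    (h : ∀ i ∈ s, F i ≠ 0) : cnt P (∏ i ∈ s, F i) = ∑ i ∈ s, cnt P (F i) := by
  classical
  induction s using Finset.induction_on with
  | empty => rw [Finset.prod_empty, Finset.sum_empty, cnt_one]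
  | insert a s ha ih =>
    rw [Finset.prod_insert ha, Finset.sum_insert ha, cnt_mul P (h a (Finset.mem_insert_self a s))
      (Finset.prod_ne_zero_iff.2 fun i hi => h i (Finset.mem_insert_of_mem hi)),
      ih fun i hi => h i (Finset.mem_insert_of_mem hi)]

theorem cnt_map {V : Place k L} {P : Place k K} {e : ℕ} (hVP : Over V P e) {p : K[X]}
    (hp : p ≠ 0) : cnt V (p.map (algebraMap K L)) = e * cnt P p := by
  apply cnt_unique
  · intro j
    rw [coeff_map]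
    exact over_ge hVP (cnt_ge P p j)
  · obtain ⟨j, hj, hj2⟩ := cnt_att P hp
    refine ⟨j, ?_, ?_⟩
    · rw [coeff_map]
      exact (_root_.map_ne_zero _).2 hj
    · rw [coeff_map, hVP.2, hj2]

/-- Gauss's lemma -/
theorem gauss_cnt {V : Place k L} {P : Place k K} {e : ℕ} (hVP : Over V P e) {p : K[X]}
    (hp : p ≠ 0) {d : ℕ} (r : Fin d → L) (hr : p.map (algebraMap K L) = ∏ i, (X - C (r i))) :
    e * cnt P p = - TT V r := by
  rw [← cnt_map hVP hp, hr, cnt_prod V _ _ fun i _ => X_sub_C_ne_zero _]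
  unfold TT
  rw [← Finset.sum_neg_distrib]
  exact Finset.sum_congr rfl fun i _ => cnt_X_sub_C V _

theorem gauss_ct {V : Place k L} {P : Place k K} {e : ℕ} (hVP : Over V P e) {p : K[X]} {d : ℕ}
    (r : Fin d → L) (hr : p.map (algebraMap K L) = ∏ i, (X - C (r i))) {a : k}
    (h0 : p.eval (algebraMap k K a) ≠ 0) : ∑ i, vv V (r i) a = e * ct P p a := by
  have hp : p ≠ 0 := by
    rintro rfl
    simp at h0
  unfold ct
  rw [mul_sub, gauss_cnt hVP hp r hr, ← hVP.2, sub_neg_eq_add]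
  have h1 : algebraMap K L (p.eval (algebraMap k K a)) = ∏ i, (algebraMap k L a - r i) := by
    rw [← eval₂_at_apply, ← eval_map, hr, eval_prod, ← IsScalarTower.algebraMap_apply k K L]
    refine Finset.prod_congr rfl fun i _ => ?_
    rw [eval_sub, eval_X, eval_C]
  have h2 : ∀ i, algebraMap k L a - r i ≠ 0 := by
    intro i h
    apply (_root_.map_ne_zero (algebraMap K L)).2 h0
    rw [h1]
    exact Finset.prod_eq_zero (Finset.mem_univ i) h
  rw [h1, ord_prod' V _ _ fun i _ => h2 i]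
  unfold vv TT
  rw [Finset.sum_add_distrib]
  congr 1
  refine Finset.sum_congr rfl fun i _ => ?_
  rw [← V.ord_neg, neg_sub]

end gauss

/-- the labels -/
abbrev Lb {σ : Type} (τ : σ → Finset K[X]) : Type := (s : σ) × {p : K[X] // p ∈ τ s}

section labels

variable {σ : Type} {τ : σ → Finset K[X]} (lay : Lb τ → ℕ)

/-- the block of a label -/
def yb (f : Lb τ) : Finset {p : K[X] // p ∈ τ f.1} :=
  Finset.univ.filter fun y => lay ⟨f.1, y⟩ = lay f

/-- the block of a label, as a set of labels -/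
def blk (f : Lb τ) : Finset (Lb τ) := (yb lay f).map (Function.Embedding.sigmaMk f.1)

/-- the polynomial of a block -/
noncomputable def Fb (f : Lb τ) : K[X] := ∏ y ∈ yb lay f, y.1

theorem mem_blk {f f' : Lb τ} : f' ∈ blk lay f ↔ f'.1 = f.1 ∧ lay f' = lay f := by
  unfold blk yb
  rw [Finset.mem_map]
  constructor
  · rintro ⟨y, hy, rfl⟩
    exact ⟨rfl, (Finset.mem_filter.1 hy).2⟩
  · rintro ⟨h1, h2⟩
    obtain ⟨s, x⟩ := f
    obtain ⟨s', x'⟩ := f'
    simp only at h1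
    subst h1
    exact ⟨x', Finset.mem_filter.2 ⟨Finset.mem_univ _, h2⟩, rfl⟩

theorem sum_blk (f : Lb τ) (G : Lb τ → ℤ) :
    ∑ f' ∈ blk lay f, G f' = ∑ y ∈ yb lay f, G ⟨f.1, y⟩ := by
  unfold blk
  rw [Finset.sum_map]
  rfl

theorem prod_blk (f : Lb τ) : Fb lay f = ∏ f' ∈ blk lay f, f'.2.1 := by
  unfold blk Fb
  rw [Finset.prod_map]
  rfl

end labels

/-- The data: for each `s`, a set of irreducible polynomials without constant roots, nodes and
integral weights. -/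
structure Dt (k K : Type) [Field k] [Field K] [Algebra k K] (σ : Type) where
  /-- the irreducible polynomials -/
  τ : σ → Finset K[X]
  irr : ∀ s, ∀ p ∈ τ s, Irreducible p ∧ p.Monic
  nc : ∀ s, ∀ p ∈ τ s, ∀ y : k, p.eval (algebraMap k K y) ≠ 0
  /-- the number of the nodes -/
  q : σ → ℕ
  /-- the nodes -/
  a : ∀ s, Fin (q s) → k
  inj : ∀ s, Function.Injective (a s)
  /-- the common denominator of the weights -/
  A : ℕ
  /-- the weights -/
  c : ∀ s, Fin (q s) → ℕ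
  cA : ∀ s i, c s i ≤ A
  large : ∀ s, 2 * A * (∏ p ∈ τ s, p).natDegree < ∑ i, c s i

section star

variable {σ : Type} (Δ : Dt k K σ) (lay : Lb Δ.τ → ℕ)

/-- the contact in the estimates -/
noncomputable def xx (b : Bool) (lam : ℕ) (V : Place k L) (P : Place k K) (e : ℕ) (f : Lb Δ.τ)
    (t : L) : ℤ :=
  if b = true ∧ lay f ≤ lam then rh V e P (Fb lay f) (Δ.a f.1) t else vs V (Δ.a f.1) t

/-- the difference of the estimates for the determinant and the denominator -/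
noncomputable def psi (b : Bool) (lam : ℕ) (V : Place k L) (P : Place k K) (e : ℕ) (f : Lb Δ.τ)
    (t : L) : ℤ :=
  Δ.A * (e * cnt P (Fb lay f) - (Fb lay f).natDegree * tau V t + xx Δ lay b lam V P e f t) -
    ∑ m, (Δ.c f.1 m : ℤ) * V.ord (t - algebraMap k L (Δ.a f.1 m))

/-- the ramification -/
def Ram (P : Place k K) : Prop := ∀ s i, ct P (∏ p ∈ Δ.τ s, p) (Δ.a s i) = 0 ∨
  (Δ.A : ℤ) + ct P (∏ p ∈ Δ.τ s, p) (Δ.a s i) ≤
    ((Δ.A : ℤ) - Δ.c s i) * ct P (∏ p ∈ Δ.τ s, p) (Δ.a s i)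

theorem lb_ne (f : Lb Δ.τ) : f.2.1 ≠ 0 := (Δ.irr f.1 f.2.1 f.2.2).1.ne_zero

theorem fb_eval (f : Lb Δ.τ) (y : k) : (Fb lay f).eval (algebraMap k K y) ≠ 0 := by
  unfold Fb
  rw [eval_prod]
  exact Finset.prod_ne_zero_iff.2 fun x _ => Δ.nc f.1 x.1 x.2 y

theorem fb_ne (f : Lb Δ.τ) : Fb lay f ≠ 0 :=
  Finset.prod_ne_zero_iff.2 fun x _ => (Δ.irr f.1 x.1 x.2).1.ne_zero

theorem fb_natDegree (f : Lb Δ.τ) :
    (Fb lay f).natDegree = ∑ f' ∈ blk lay f, f'.2.1.natDegree := by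
  rw [prod_blk, natDegree_prod _ _ fun f' _ => lb_ne Δ f']

theorem fb_degree_le (f : Lb Δ.τ) :
    (Fb lay f).natDegree ≤ (∏ p ∈ Δ.τ f.1, p).natDegree := by
  have h1 : (∏ p ∈ Δ.τ f.1, p) = ∏ x : {p : K[X] // p ∈ Δ.τ f.1}, x.1 := by
    rw [← Finset.prod_coe_sort (Δ.τ f.1) (fun p => p)]
  have h2 : (∏ p ∈ Δ.τ f.1, p) ≠ 0 :=
    Finset.prod_ne_zero_iff.2 fun x hx => (Δ.irr f.1 x hx).1.ne_zero
  refine natDegree_le_of_dvd ?_ h2
  rw [h1]
  exact Finset.prod_dvd_prod_of_subset _ _ _ (Finset.subset_univ _)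

theorem fb_ct [Infinite k] (P : Place k K) (f : Lb Δ.τ) (y : k) :
    ct P (Fb lay f) y = ∑ x ∈ yb lay f, ct P x.1 y := by
  unfold Fb
  exact ct_prod P _ _ fun x _ => Δ.nc f.1 x.1 x.2 y

variable [Fintype σ]

/-- **The main inequality.** -/
theorem star [Infinite k] (NN : Lb Δ.τ → ℕ) {V : Place k L} {P : Place k K} {e : ℕ}
    (hVP : Over V P e) (b : Bool) (lam κ Dd M : ℕ)
    (hκ : ∀ f f', lay f ≤ lay f' → NN f ≤ NN f' + κ)
    (hM : ∀ s, (∏ p ∈ Δ.τ s, p).natDegree ≤ M) (hN1 : ∀ f, Δ.A * M * κ + Dd ≤ NN f)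
    (hN2 : ∀ f, κ * (2 * Δ.A + 1) ≤ NN f)
    (hlam : b = true → ∀ f, lay f < lam → ∀ y : k, ct P f.2.1 y = 0) (hram : b = true → Ram Δ P)
    (r : ∀ f : Lb Δ.τ, Fin f.2.1.natDegree → L)
    (hr : ∀ f, f.2.1.map (algebraMap K L) = ∏ i, (X - C (r f i))) :
    ∑ f, (Dd : ℤ) * TT V (r f) ≤ ∑ f, (NN f : ℤ) * ∑ i, psi Δ lay b lam V P e f (r f i) := by
  classical
  have hroot : ∀ f i, aeval (r f i) f.2.1 = 0 := by
    intro f i
    rw [← eval_map_algebraMap, hr, eval_prod]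
    exact Finset.prod_eq_zero (Finset.mem_univ i) (by simp)
  have hra : ∀ f i (y : k), r f i ≠ algebraMap k L y := fun f i y =>
    root_ne (Δ.nc f.1 f.2.1 f.2.2 y) (hroot f i)
  -- the loss of the contact
  obtain ⟨θ, hθ⟩ : ∃ θ : ∀ f : Lb Δ.τ, Fin f.2.1.natDegree → Fin (Δ.q f.1) → ℤ,
      θ = fun f i m => if b = true ∧ lay f ≤ lam then (if 0 < vv V (r f i) (Δ.a f.1 m) then
        vv V (r f i) (Δ.a f.1 m) - min (vv V (r f i) (Δ.a f.1 m))
          (e * (ct P (Fb lay f) (Δ.a f.1 m) - 1)) else 0) else 0 := ⟨_, rfl⟩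
  have hxx : ∀ f i, xx Δ lay b lam V P e f (r f i) =
      ∑ m, (vv V (r f i) (Δ.a f.1 m) - θ f i m) := by
    intro f i
    unfold xx
    by_cases h : b = true ∧ lay f ≤ lam
    · rw [if_pos h]
      unfold rh
      refine Finset.sum_congr rfl fun m _ => ?_
      rw [hθ]
      beta_reduce
      rw [if_pos h]
      split_ifs with h1
      · ring
      · have h2 := vv_nonneg V (hra f i (Δ.a f.1 m))
        omega
    · rw [if_neg h]
      unfold vs
      refine Finset.sum_congr rfl fun m _ => ?_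
      rw [hθ]
      beta_reduce
      rw [if_neg h, sub_zero]
  have hcnt : ∀ f, e * cnt P (Fb lay f) = - ∑ f' ∈ blk lay f, TT V (r f') := by
    intro f
    rw [prod_blk, cnt_prod P _ _ fun f' _ => lb_ne Δ f', Finset.mul_sum, ← Finset.sum_neg_distrib]
    exact Finset.sum_congr rfl fun f' _ => gauss_cnt hVP (lb_ne Δ f') (r f') (hr f')
  have hdeg : ∀ f, ((Fb lay f).natDegree : ℤ) = ∑ f' ∈ blk lay f, (f'.2.1.natDegree : ℤ) := by
    intro f
    rw [fb_natDegree]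
    push_cast
    rfl
  have hpsi : ∀ f i, psi Δ lay b lam V P e f (r f i) =
      (-(Δ.A * ∑ f' ∈ blk lay f, TT V (r f')) +
        (∑ m, (Δ.c f.1 m : ℤ) - Δ.A * ∑ f' ∈ blk lay f, (f'.2.1.natDegree : ℤ)) *
          tau V (r f i)) +
      ∑ m, (((Δ.A : ℤ) - Δ.c f.1 m) * vv V (r f i) (Δ.a f.1 m) - Δ.A * θ f i m) := by
    intro f i
    unfold psi
    rw [hxx, hcnt, hdeg]
    have h1 : ∑ m, (Δ.c f.1 m : ℤ) * V.ord (r f i - algebraMap k L (Δ.a f.1 m)) =
        ∑ m, (Δ.c f.1 m : ℤ) * vv V (r f i) (Δ.a f.1 m) -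
          (∑ m, (Δ.c f.1 m : ℤ)) * tau V (r f i) := by
      rw [Finset.sum_mul, ← Finset.sum_sub_distrib]
      refine Finset.sum_congr rfl fun m _ => ?_
      unfold vv
      ring
    have h2 : ∑ m, (((Δ.A : ℤ) - Δ.c f.1 m) * vv V (r f i) (Δ.a f.1 m) - Δ.A * θ f i m) =
        Δ.A * ∑ m, (vv V (r f i) (Δ.a f.1 m) - θ f i m) -
          ∑ m, (Δ.c f.1 m : ℤ) * vv V (r f i) (Δ.a f.1 m) := by
      rw [Finset.mul_sum, ← Finset.sum_sub_distrib]
      refine Finset.sum_congr rfl fun m _ => ?_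
      ring
    rw [h1, h2]
    ring
  have hsum : ∀ f, ∑ i, psi Δ lay b lam V P e f (r f i) =
      (-(Δ.A * f.2.1.natDegree * ∑ f' ∈ blk lay f, TT V (r f')) +
        (∑ m, (Δ.c f.1 m : ℤ) - Δ.A * ∑ f' ∈ blk lay f, (f'.2.1.natDegree : ℤ)) *
          TT V (r f)) +
      ∑ m, ∑ i, (((Δ.A : ℤ) - Δ.c f.1 m) * vv V (r f i) (Δ.a f.1 m) - Δ.A * θ f i m) := by
    intro f
    rw [Finset.sum_congr rfl fun i _ => hpsi f i, Finset.sum_add_distrib, Finset.sum_add_distrib,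
      Finset.sum_comm (γ := Fin (Δ.q f.1)), ← Finset.mul_sum, Finset.sum_const, Finset.card_univ,
      Fintype.card_fin, nsmul_eq_mul]
    unfold TT
    ring
  have htot : ∑ f, (NN f : ℤ) * ∑ i, psi Δ lay b lam V P e f (r f i) =
      ∑ f : Lb Δ.τ, ((NN f : ℤ) *
        (-(Δ.A * f.2.1.natDegree * ∑ f' ∈ blk lay f, TT V (r f')) +
        (∑ m, (Δ.c f.1 m : ℤ) - Δ.A * ∑ f' ∈ blk lay f, (f'.2.1.natDegree : ℤ)) *
          TT V (r f))) +
      ∑ f : Lb Δ.τ, (NN f : ℤ) *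
      ∑ m, ∑ i, (((Δ.A : ℤ) - Δ.c f.1 m) * vv V (r f i) (Δ.a f.1 m) - Δ.A * θ f i m) := by
    rw [← Finset.sum_add_distrib]
    refine Finset.sum_congr rfl fun f _ => ?_
    rw [hsum, mul_add]
  rw [htot]
  have hpole : ∑ f, (Dd : ℤ) * TT V (r f) ≤ ∑ f : Lb Δ.τ, ((NN f : ℤ) *
      (-(Δ.A * f.2.1.natDegree * ∑ f' ∈ blk lay f, TT V (r f')) +
        (∑ m, (Δ.c f.1 m : ℤ) - Δ.A * ∑ f' ∈ blk lay f, (f'.2.1.natDegree : ℤ)) *
          TT V (r f))) := by
    refine pole_sum (blk lay) (fun f f' => ?_) NN (fun f => f.2.1.natDegree)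
      (fun f => TT V (r f)) (fun f => TT_nonneg V (r f)) Δ.A (fun f => ∑ m, (Δ.c f.1 m : ℤ))
      κ Dd M (fun f f' hf' => ?_) (fun f => ?_) (fun f => ?_) hN1
    · rw [mem_blk, mem_blk]
      constructor
      · rintro ⟨h1, h2⟩
        exact ⟨h1.symm, h2.symm⟩
      · rintro ⟨h1, h2⟩
        exact ⟨h1.symm, h2.symm⟩
    · exact hκ _ _ ((mem_blk lay).1 hf').2.le
    · rw [← hdeg]
      have h1 := fb_degree_le Δ lay f
      have h2 := Δ.large f.1
      have h3 : 2 * Δ.A * (Fb lay f).natDegree + 1 ≤ ∑ m, Δ.c f.1 m :=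
        lt_of_le_of_lt (Nat.mul_le_mul_left _ h1) h2
      exact_mod_cast h3
    · rw [← fb_natDegree]
      exact (fb_degree_le Δ lay f).trans (hM f.1)
  have hcont : 0 ≤ ∑ f : Lb Δ.τ, (NN f : ℤ) *
      ∑ m, ∑ i, (((Δ.A : ℤ) - Δ.c f.1 m) * vv V (r f i) (Δ.a f.1 m) - Δ.A * θ f i m) := by
    rw [Fintype.sum_sigma]
    refine Finset.sum_nonneg fun s _ => ?_
    have h1 : ∀ x : {p : K[X] // p ∈ Δ.τ s}, (NN ⟨s, x⟩ : ℤ) *
        ∑ m, ∑ i, (((Δ.A : ℤ) - Δ.c s m) * vv V (r ⟨s, x⟩ i) (Δ.a s m) - Δ.A * θ ⟨s, x⟩ i m) =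
        ∑ m, (NN ⟨s, x⟩ : ℤ) * ∑ i, (((Δ.A : ℤ) - Δ.c s m) * vv V (r ⟨s, x⟩ i) (Δ.a s m) -
          Δ.A * θ ⟨s, x⟩ i m) := fun x => Finset.mul_sum _ _ _
    rw [Finset.sum_congr rfl fun x _ => h1 x, Finset.sum_comm]
    refine Finset.sum_nonneg fun m _ => ?_
    cases b with
    | false =>
      refine Finset.sum_nonneg fun x _ => mul_nonneg (Nat.cast_nonneg _)
        (Finset.sum_nonneg fun i _ => ?_)
      have h2 : θ ⟨s, x⟩ i m = 0 := by
        rw [hθ]
        beta_reduce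
        rw [if_neg (by simp)]
      rw [h2, mul_zero, sub_zero]
      have h3 : (Δ.c s m : ℤ) ≤ Δ.A := by exact_mod_cast Δ.cA s m
      exact mul_nonneg (by linarith) (vv_nonneg V (hra ⟨s, x⟩ i _))
    | true =>
      have h2 := contact_sum (X := {p : K[X] // p ∈ Δ.τ s}) (fun x => lay ⟨s, x⟩)
        (fun x => NN ⟨s, x⟩) (fun x => x.1.natDegree)
        (fun x i => vv V (r ⟨s, x⟩ i) (Δ.a s m)) (fun x i => vv_nonneg V (hra ⟨s, x⟩ i _))
        (fun x => ct P x.1 (Δ.a s m)) e hVP.1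
        (fun x => gauss_ct hVP (r ⟨s, x⟩) (hr ⟨s, x⟩) (Δ.nc s x.1 x.2 _)) Δ.A (Δ.c s m)
        (Δ.cA s m) lam κ (fun x hx => hlam rfl ⟨s, x⟩ hx _) (fun x y h => hκ _ _ h)
        (fun x => hN2 _) (by
          have h3 := hram rfl s m
          have h4 : ct P (∏ p ∈ Δ.τ s, p) (Δ.a s m) =
              ∑ x : {p : K[X] // p ∈ Δ.τ s}, ct P x.1 (Δ.a s m) := by
            rw [ct_prod P _ _ fun p hp => Δ.nc s p hp _,
              ← Finset.sum_coe_sort (Δ.τ s) (fun p => ct P p (Δ.a s m))]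
          rw [h4] at h3
          exact h3)
      refine h2.trans (le_of_eq ?_)
      refine Finset.sum_congr rfl fun x _ => ?_
      congr 1
      refine Finset.sum_congr rfl fun i _ => ?_
      rw [hθ]
      beta_reduce
      rw [fb_ct]
      simp only [true_and]
      rfl
  linarith

end star

end Pool.Agent.J4.H73.BF
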